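import Pool.Agent.Work.MP_51e72e_nt.AV.MinA

-- merged part: Pool.Agent.Work.MP_51e72e_nt.AV.Key
section
/-! The primes minus their model. -/

set_option autoImplicit false
open Finset Filter MeasureTheory Pool.Agent.Lib.MR Pool.Agent.Lib.LargeSieve
open Pool.Agent.Work.MP_678620_nt

namespace Pool.Agent.Work.MP_51e72e_nt.AV

/-- The indicator of `1`. -/
noncomputable def Key_b (n : ℕ) : ℂ := if n = 1 then 1 else 0

lemma Key_dat (z : ℝ) : Dat z 1 Key_b w1 where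
  β_le n := by unfold Key_b; split_ifs <;> simp
  β_supp n h := by
    have : n = 1 := by
      by_contra hc
      exact h (if_neg hc)
    subst this
    exact fun p hp h => absurd (Nat.dvd_one.1 h) hp.ne_one
  w_nonneg n := by unfold w1; split_ifs <;> norm_num
  w_le n := by unfold w1; split_ifs <;> norm_num
  w_supp n h := by
    have : n = 1 := by
      by_contra hc
      exact h (if_neg hc)
    subst this
    exact ⟨fun p hp h => absurd (Nat.dvd_one.1 h) hp.ne_one, Nat.modEq_one⟩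

lemma Key_conv (γ : ℕ → ℝ) {n : ℕ} (hn : n ≠ 0) : conv Key_b γ n = γ n := by
  rw [conv, Int.toNat_natCast, sum_eq_single (1, n)]
  · simp [Key_b]
  · intro x hx hne
    have h1 : x.1 ≠ 1 := fun h => hne (by
      have := (Nat.mem_divisorsAntidiagonal.1 hx).1
      rw [h, one_mul] at this
      exact Prod.ext h this)
    simp [Key_b, h1]
  · intro h
    exact absurd (Nat.mem_divisorsAntidiagonal.2 ⟨one_mul n, hn⟩) h

lemma Key_eq {z : ℝ} (hz : 0 ≤ z) (m : ℤ) :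
    conv Key_b (gam z 1 w1) m - conv Key_b (flat z 1 w1) m = (G1 z m : ℂ) := by
  rcases le_or_gt m 0 with h | h
  · have h1 : ¬ z < m := not_lt.2 (le_trans (by exact_mod_cast h) hz)
    rw [conv_nonpos _ _ h, conv_nonpos _ _ h]
    simp [G1, L1, F1, h1]
  obtain ⟨n, rfl⟩ := Int.eq_ofNat_of_zero_le h.le
  have hn : n ≠ 0 := by omega
  rw [Key_conv _ hn, Key_conv _ hn, ← Complex.ofReal_sub]
  congr 1
  simp only [G1, L1, F1, Int.toNat_natCast, Int.cast_natCast]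
  by_cases hr : Rou z n
  · rw [TB_gam hr, TB_flat hr hn]
    congr 1
    · by_cases hp : n.Prime
      · simp [hp, hr n hp dvd_rfl]
      · simp [hp]
    · simp [hr]
  · have h1 : gam z 1 w1 n = 0 := by
      by_contra hc
      exact hr (gam_supp (Key_dat z) n hc).1
    have h2 : flat z 1 w1 n = 0 := by
      by_contra hc
      exact hr (flat_supp n hc).1
    have h3 : ¬ (n.Prime ∧ z < n) := fun h3 => hr fun p hp hd => by
      rw [(Nat.prime_dvd_prime_iff_eq hp h3.1).1 hd]; exact h3.2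
    rw [h1, h2, if_neg h3, if_neg fun h4 => hr h4.1]

lemma Key_zz (N : ℕ) : 0 ≤ zz N := (Real.exp_pos _).le

theorem G1_key (A : ℕ) : ∀ᶠ N : ℕ in atTop, ∀ M : ℕ, N ≤ M ^ 2 → M ≤ N ^ 2 →
    KeyP N M (1 / 2) A fun m => (G1 (zz N) m : ℂ) := by
  filter_upwards [key A 1 le_rfl (δ := 1 / 2) (by norm_num)] with N h M h1 h2
  have := h M h1 h2 _ _ (Key_dat (zz N))
  simpa only [Key_eq (Key_zz N)] using this

theorem G1_sw (A : ℕ) : ∀ᶠ N : ℕ in atTop, ∀ M : ℕ, N ≤ M ^ 2 → M ≤ N ^ 2 →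
    ∀ q c Y : ℕ, 1 ≤ q → (q : ℝ) ≤ Real.log N ^ A → Y ≤ 20 * M →
      |∑ n ∈ (Icc 1 Y).filter (fun n => n ≡ c [MOD q]), G1 (zz N) n| ≤ M / Real.log N ^ A := by
  filter_upwards [sw_dif A 1 le_rfl] with N h M h1 h2 q c Y hq hq' hY
  have := h M h1 h2 _ _ (Key_dat (zz N)) q c Y hq hq' hY
  simp only [Key_eq (Key_zz N)] at this
  rwa [← Complex.ofReal_sum, Complex.norm_real] at this

theorem LF_bound : ∀ᶠ N : ℕ in atTop, ∀ m : ℤ, m ≤ (N : ℤ) ^ 3 →
    0 ≤ L1 (zz N) m ∧ L1 (zz N) m ≤ 3 * Real.log N ∧ 0 ≤ F1 (zz N) m ∧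
      F1 (zz N) m ≤ Real.log N ∧ |G1 (zz N) m| ≤ 3 * Real.log N := by
  filter_upwards [Vz_inv_le, eventually_ge_atTop 1] with N h1 h2 m hm
  have l0 := Real.log_natCast_nonneg N
  have a : 0 ≤ L1 (zz N) m ∧ L1 (zz N) m ≤ 3 * Real.log N := by
    unfold L1
    split_ifs with h
    · have h3 : (0 : ℝ) < m := (Key_zz N).trans_lt h.2
      have h4 : (1 : ℝ) ≤ m := by
        have : (0 : ℤ) < m := by exact_mod_cast h3
        exact_mod_cast this
      refine ⟨Real.log_nonneg h4, ?_⟩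
      have := Real.log_le_log h3 (show (m : ℝ) ≤ (N : ℝ) ^ 3 by exact_mod_cast hm)
      simpa using this
    · exact ⟨le_rfl, by positivity⟩
  have b : 0 ≤ F1 (zz N) m ∧ F1 (zz N) m ≤ Real.log N := by
    unfold F1
    split_ifs
    · exact ⟨inv_nonneg.2 (Vz_pos _).le, h1⟩
    · exact ⟨le_rfl, l0⟩
  refine ⟨a.1, a.2, b.1, b.2, ?_⟩
  rw [G1, abs_le]
  constructor <;> linarith [a.1, a.2, b.1, b.2]

end Pool.Agent.Work.MP_51e72e_nt.AV
end

-- merged part: Pool.Agent.Work.MP_51e72e_nt.AV.BDH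
section
/-! The variance of the primes minus their model over all residue classes. -/

set_option autoImplicit false
open Finset Filter MeasureTheory Pool.Agent.Lib.MR Pool.Agent.Lib.LargeSieve
open Pool.Agent.Work.MP_678620_nt

namespace Pool.Agent.Work.MP_51e72e_nt.AV

lemma BDH_inj {α β : Type*} (s : Finset α) (t : Finset β) (f : α → ℝ) (F : β → ℝ)
    (φ : α → β) (hφ : Set.InjOn φ s) (hm : ∀ a ∈ s, φ a ∈ t) (hF : ∀ x ∈ t, 0 ≤ F x)
    (h : ∀ a ∈ s, f a = F (φ a)) : ∑ a ∈ s, f a ≤ ∑ x ∈ t, F x := by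
  classical
  rw [sum_congr rfl h, ← sum_image hφ]
  exact sum_le_sum_of_subset_of_nonneg (image_subset_iff.2 hm) fun x hx _ => hF x hx

/-- Reduction to lowest terms. -/
lemma BDH_red (g : ℝ → ℝ) (hg : ∀ x, 0 ≤ g x) (D : ℕ) :
    ∑ d ∈ Icc 1 D, 1 / (d : ℝ) * ∑ h ∈ range d, g ((h : ℝ) / d) ≤ HH D * ∑ q ∈ Icc 1 D,
      1 / (q : ℝ) * ∑ c ∈ (range q).filter (fun c => Nat.Coprime c q), g ((c : ℝ) / q) := by
  simp only [HH, mul_sum, sum_mul]
  rw [sum_sigma', sum_sigma', sum_sigma']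
  refine BDH_inj _ _ _ _ (fun x => ⟨⟨x.1 / Nat.gcd x.2 x.1, x.2 / Nat.gcd x.2 x.1⟩, Nat.gcd x.2 x.1⟩)
    ?_ ?_ (fun x _ => mul_nonneg (by positivity) (mul_nonneg (by positivity) (hg _))) ?_
  · rintro ⟨d, h⟩ - ⟨d', h'⟩ - e
    simp only [Sigma.mk.injEq, heq_eq_eq] at e
    obtain ⟨⟨e1, e2⟩, e3⟩ := e
    have a : d = d' := by
      rw [← Nat.div_mul_cancel (Nat.gcd_dvd_right h d), e1, e3,
        Nat.div_mul_cancel (Nat.gcd_dvd_right h' d')]
    have b : h = h' := by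
      rw [← Nat.div_mul_cancel (Nat.gcd_dvd_left h d), e2, e3,
        Nat.div_mul_cancel (Nat.gcd_dvd_left h' d')]
    rw [a, b]
  · rintro ⟨d, h⟩ hx
    simp only [mem_sigma, mem_Icc, mem_range, mem_filter] at hx ⊢
    obtain ⟨⟨d1, d2⟩, h1⟩ := hx
    have hg : 0 < Nat.gcd h d := Nat.gcd_pos_of_pos_right _ d1
    have hl : Nat.gcd h d ≤ d := Nat.gcd_le_right _ d1
    exact ⟨⟨⟨Nat.div_pos hl hg, (Nat.div_le_self _ _).trans d2⟩,
      Nat.div_lt_div_of_lt_of_dvd (Nat.gcd_dvd_right _ _) h1, Nat.coprime_div_gcd_div_gcd hg⟩,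
      hg, hl.trans d2⟩
  · rintro ⟨d, h⟩ hx
    simp only [mem_sigma, mem_Icc, mem_range] at hx
    have hg : 0 < Nat.gcd h d := Nat.gcd_pos_of_pos_right _ hx.1.1
    have hd : (0 : ℝ) < d := by exact_mod_cast hx.1.1
    simp only
    rw [Nat.cast_div (Nat.gcd_dvd_left _ _) (by positivity),
      Nat.cast_div (Nat.gcd_dvd_right _ _) (by positivity), div_div_div_cancel_right₀ (by positivity)]
    field_simp

lemma BDH_split (R : Finset ℕ) (a : ℕ → ℝ) {d : ℕ} (hd : 0 < d) (h : ℕ) :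
    ∑ n ∈ R, (a n : ℂ) * ee (n * ((h : ℝ) / d)) = ∑ c ∈ range d, ee (h * ((c : ℝ) / d)) *
      ((∑ n ∈ R.filter (fun n => n % d = c), a n : ℝ) : ℂ) := by
  rw [← sum_fiberwise_of_maps_to (s := R) (t := range d) (g := fun n => n % d)
    fun n _ => mem_range.2 (Nat.mod_lt _ hd)]
  refine sum_congr rfl fun c _ => ?_
  rw [Complex.ofReal_sum, mul_sum]
  refine sum_congr rfl fun n hn => ?_
  have e : (n : ℝ) * ((h : ℝ) / d) = h * ((c : ℝ) / d) + ((n / d * h : ℕ) : ℝ) := by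
    have k : (n : ℝ) = d * (n / d : ℕ) + c := by
      have := Nat.div_add_mod n d
      rw [(mem_filter.1 hn).2] at this
      exact_mod_cast this.symm
    rw [Nat.cast_mul]
    generalize ((n / d : ℕ) : ℝ) = Q at k ⊢
    rw [k]
    field_simp
    ring
  rw [e, ee_add, ee_natCast, mul_one, mul_comm]

lemma BDH_pars (R : Finset ℕ) (a : ℕ → ℝ) {d : ℕ} (hd : 0 < d) :
    ∑ c ∈ range d, (∑ n ∈ R.filter (fun n => n % d = c), a n) ^ 2 =
      1 / (d : ℝ) * ∑ h ∈ range d, ‖∑ n ∈ R, (a n : ℂ) * ee (n * ((h : ℝ) / d))‖ ^ 2 := by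
  simp_rw [BDH_split R a hd]
  rw [sum_normSq_of_orth (range d) (range d) (fun h r => ee (h * ((r : ℝ) / d))) (fun _ => (d : ℝ))
    _ fun j hj k hk => sum_ee_orth d hd (mem_range.1 hj) (mem_range.1 hk), ← mul_sum, one_div,
    inv_mul_cancel_left₀ (by positivity)]
  exact sum_congr rfl fun c _ => by rw [Complex.norm_real, Real.norm_eq_abs, sq_abs]

/-- The variance from small moduli and the large sieve. -/
lemma BDH_abs {R : Finset ℕ} {L : ℕ} (hR : R ⊆ range L) (a : ℕ → ℝ) {U W : ℝ}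
    (hU : ∀ n ∈ R, |a n| ≤ U) (D : ℕ) {Q : ℕ} (hQ : 0 < Q)
    (hW : ∀ q, 0 < q → q ≤ Q → ∀ c < q, |∑ n ∈ R.filter (fun n => n % q = c), a n| ≤ W) :
    ∑ d ∈ Icc 1 D, ∑ c ∈ range d, (∑ n ∈ R.filter (fun n => n % d = c), a n) ^ 2 ≤
      HH D * (Q * (Q * W) ^ 2 + 1 / Q * ((L + (D ^ 2 : ℕ) * HH (D ^ 2)) * (L * U ^ 2))) := by
  have hQ' : (0 : ℝ) < Q := by exact_mod_cast hQ
  have hW0 : 0 ≤ W := (abs_nonneg _).trans (hW 1 one_pos hQ 0 one_pos)
  rw [sum_congr rfl fun d hd => BDH_pars R a (mem_Icc.1 hd).1]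
  refine (BDH_red (fun θ => ‖∑ n ∈ R, (a n : ℂ) * ee (n * θ)‖ ^ 2) (fun _ => by positivity)
    D).trans (mul_le_mul_of_nonneg_left ?_ (HH_nonneg D))
  have ls := largeSieve_farey D L fun n => if n ∈ R then (a n : ℂ) else 0
  simp only [ite_mul, zero_mul, sum_ite_mem, inter_eq_right.2 hR] at ls
  have l2 : ∑ n ∈ range L, ‖if n ∈ R then (a n : ℂ) else 0‖ ^ 2 ≤ L * U ^ 2 := by
    refine (sum_le_card_nsmul _ _ (U ^ 2) fun n _ => ?_).trans (by simp)
    split_ifs with k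
    · rw [Complex.norm_real, Real.norm_eq_abs]
      exact pow_le_pow_left₀ (abs_nonneg _) (hU n k) 2
    · rw [norm_zero, zero_pow two_ne_zero]
      positivity
  replace ls := ls.trans (mul_le_mul_of_nonneg_left l2 (by have := HH_nonneg (D ^ 2); positivity))
  refine le_trans (sum_le_sum (g := fun q => (if q ∈ Icc 1 Q then (Q * W) ^ 2 else 0) +
    1 / Q * ∑ c ∈ (range q).filter (fun c => Nat.Coprime c q),
      ‖∑ n ∈ R, (a n : ℂ) * ee (n * ((c : ℝ) / q))‖ ^ 2) fun q hq => ?_) ?_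
  · have q1 := (mem_Icc.1 hq).1
    have q0 : (0 : ℝ) < q := by exact_mod_cast q1
    split_ifs with k
    · have k' : (q : ℝ) ≤ Q := by exact_mod_cast (mem_Icc.1 k).2
      refine le_add_of_le_of_nonneg ?_ (by positivity)
      rw [one_div_mul_eq_div, div_le_iff₀ q0]
      refine (sum_le_card_nsmul _ _ ((Q * W) ^ 2) fun c _ => ?_).trans ?_
      · refine pow_le_pow_left₀ (norm_nonneg _) ?_ 2
        rw [BDH_split R a q1]
        refine (norm_sum_le _ _).trans ((sum_le_card_nsmul _ _ W fun r hr => ?_).trans ?_)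
        · rw [norm_mul, Pool.Agent.Lib.LargeSieve.norm_ee, one_mul, Complex.norm_real, Real.norm_eq_abs]
          exact hW q q1 (mem_Icc.1 k).2 r (mem_range.1 hr)
        · rw [card_range, nsmul_eq_mul]
          exact mul_le_mul_of_nonneg_right k' hW0
      · rw [nsmul_eq_mul, mul_comm]
        exact mul_le_mul_of_nonneg_left
          (by exact_mod_cast (card_filter_le _ _).trans (card_range q).le) (by positivity)
    · have k' : (Q : ℝ) ≤ q := by
        rw [mem_Icc] at k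
        exact_mod_cast (by omega : Q ≤ q)
      rw [zero_add]
      exact mul_le_mul_of_nonneg_right (one_div_le_one_div_of_le hQ' k') (by positivity)
  · rw [sum_add_distrib, ← mul_sum, sum_ite_mem, sum_const, nsmul_eq_mul]
    refine add_le_add (mul_le_mul_of_nonneg_right ?_ (by positivity))
      (mul_le_mul_of_nonneg_left ls (by positivity))
    exact_mod_cast (card_le_card inter_subset_right).trans (by simp)

/-- The values of a linear form on a class of an interval. -/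
lemma BDH_cls (g : ℤ → ℝ) {A q c n₀ N : ℕ} {b : ℤ} (hA : 1 ≤ A) (hc : c < q)
    (hn : b.natAbs < n₀) (hN : n₀ ≤ N) : ∃ c' Y₀ Y₁ : ℕ, Y₀ ≤ Y₁ ∧ Y₁ ≤ A * N + b.natAbs ∧
      ∑ n ∈ (Icc n₀ N).filter (fun n => n % q = c), g (A * n + b) =
        ∑ m ∈ (Icc 1 Y₁).filter (fun m => m ≡ c' [MOD A * q]), g m -
          ∑ m ∈ (Icc 1 Y₀).filter (fun m => m ≡ c' [MOD A * q]), g m := by
  have hA' : (1 : ℤ) ≤ A := by exact_mod_cast hA
  have pos : ∀ n : ℕ, n₀ ≤ n → (A : ℤ) * n₀ ≤ A * n := fun n h =>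
    mul_le_mul_of_nonneg_left (by exact_mod_cast h) (by omega)
  have p0 : (n₀ : ℤ) ≤ A * n₀ := le_mul_of_one_le_left (by omega) hA'
  have pN := pos N hN
  obtain ⟨c', hc'⟩ : ∃ c' : ℕ, (c' : ℤ) = A * (c + q * b.natAbs) + b := by
    refine ⟨_, Int.toNat_of_nonneg ?_⟩
    have h1 : (b.natAbs : ℤ) ≤ q * b.natAbs := le_mul_of_one_le_left (by omega) (by omega)
    have h2 : (c : ℤ) + q * b.natAbs ≤ A * (c + q * b.natAbs) :=
      le_mul_of_one_le_left (by omega) hA'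
    omega
  obtain ⟨Y₀, h0⟩ : ∃ Y : ℕ, (Y : ℤ) = A * n₀ + b - 1 := ⟨_, Int.toNat_of_nonneg (by omega)⟩
  obtain ⟨Y₁, h1⟩ : ∃ Y : ℕ, (Y : ℤ) = A * N + b := ⟨_, Int.toNat_of_nonneg (by omega)⟩
  refine ⟨c', Y₀, Y₁, by omega, by omega, ?_⟩
  rw [← sum_sdiff (s₁ := (Icc 1 Y₀).filter fun m => m ≡ c' [MOD A * q])
    (filter_subset_filter _ (Icc_subset_Icc_right (by omega))), add_sub_cancel_right]
  have md : ∀ m : ℕ, m ≡ c' [MOD A * q] ↔ ∃ k : ℤ, (m : ℤ) = A * (c + q * k) + b := fun m => by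
    rw [Nat.modEq_iff_dvd, hc', Nat.cast_mul]
    exact ⟨fun ⟨k, e⟩ => ⟨b.natAbs - k, by linear_combination -e⟩,
      fun ⟨k, e⟩ => ⟨b.natAbs - k, by linear_combination -e⟩⟩
  have val : ∀ n ∈ (Icc n₀ N).filter (fun n => n % q = c),
      ((((A : ℤ) * n + b).toNat : ℕ) : ℤ) = A * n + b := fun n h => by
    have := pos n (mem_Icc.1 (mem_filter.1 h).1).1
    exact Int.toNat_of_nonneg (by omega)
  refine sum_bij (fun n _ => ((A : ℤ) * n + b).toNat) (fun n h => ?_) (fun n h n' h' e => ?_)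
    (fun m h => ?_) fun n h => by rw [val n h]
  · have v := val n h
    obtain ⟨h2, h3⟩ := mem_filter.1 h
    obtain ⟨h4, h5⟩ := mem_Icc.1 h2
    have a1 := pos n h4
    have a2 : (A : ℤ) * n ≤ A * N := mul_le_mul_of_nonneg_left (by exact_mod_cast h5) (by omega)
    simp only [Finset.mem_sdiff, mem_filter, mem_Icc]
    refine ⟨⟨by omega, (md _).2 ⟨(n / q : ℕ), ?_⟩⟩, fun k => by omega⟩
    rw [v, ← h3, ← Nat.cast_mul q, ← Nat.cast_add, Nat.mod_add_div]
  · have v := val n h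
    rw [e, val n' h'] at v
    exact_mod_cast mul_left_cancel₀ (by omega : (A : ℤ) ≠ 0) (add_right_cancel v).symm
  · simp only [Finset.mem_sdiff, mem_filter, mem_Icc] at h
    obtain ⟨⟨⟨a1, a2⟩, a3⟩, a4⟩ := h
    have a5 : Y₀ < m := by
      by_contra k
      exact a4 ⟨⟨a1, by omega⟩, a3⟩
    obtain ⟨k, e⟩ := (md m).1 a3
    have b1 : (n₀ : ℤ) ≤ c + q * k := le_of_mul_le_mul_left (a := (A : ℤ)) (by omega) (by omega)
    have b2 : (c : ℤ) + q * k ≤ N := le_of_mul_le_mul_left (a := (A : ℤ)) (by omega) (by omega)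
    obtain ⟨n, hn'⟩ : ∃ n : ℕ, (n : ℤ) = c + q * k := ⟨_, Int.toNat_of_nonneg (by omega)⟩
    refine ⟨n, mem_filter.2 ⟨mem_Icc.2 (by omega), ?_⟩, by rw [hn', ← e, Int.toNat_natCast]⟩
    zify
    rw [hn', Int.add_mul_emod_self_left]
    exact Int.emod_eq_of_lt (by omega) (by omega)

lemma BDH_num {l N K H₁ H₂ Q D₂ L : ℝ} {C : ℕ} (hl : 288 ≤ l) (hK0 : 0 ≤ K) (hK : K ≤ l)
    (hN : 0 ≤ N) (h1 : H₁ ≤ 2 * l) (h2 : H₂ ≤ 2 * l) (h20 : 0 ≤ H₂) (hQ : l ^ (C + 5) ≤ Q)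
    (hQ' : Q ≤ l ^ (C + 6)) (hD0 : 0 ≤ D₂) (hD : D₂ ≤ N) (hL0 : 0 ≤ L) (hL : L ≤ 2 * N) :
    H₁ * (Q * (Q * (2 * (K * N / l ^ (2 * C + 13)))) ^ 2 +
      1 / Q * ((L + D₂ * H₂) * (L * (3 * l) ^ 2))) ≤ N ^ 2 / l ^ C := by
  have l0 : 0 < l := by linarith
  have l1 : 1 ≤ l := by linarith
  have Q0 : 0 < Q := lt_of_lt_of_le (by positivity) hQ
  have t1 : Q * (Q * (2 * (K * N / l ^ (2 * C + 13)))) ^ 2 ≤ 4 * N ^ 2 / l ^ (C + 6) := by
    calc _ ≤ l ^ (C + 6) * (l ^ (C + 6) * (2 * (l * N / l ^ (2 * C + 13)))) ^ 2 := by gcongr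
      _ = _ := by field_simp; ring
  have t2 : 1 / Q * ((L + D₂ * H₂) * (L * (3 * l) ^ 2)) ≤ 72 * N ^ 2 / l ^ (C + 2) := by
    calc _ ≤ 1 / l ^ (C + 5) * ((2 * N * l + N * (2 * l)) * (2 * N * (3 * l) ^ 2)) := by
          gcongr
          exact hL.trans (le_mul_of_one_le_right (by positivity) l1)
      _ = _ := by field_simp; ring
  calc _ ≤ 2 * l * (4 * N ^ 2 / l ^ (C + 6) + 72 * N ^ 2 / l ^ (C + 2)) := by gcongr
    _ = N ^ 2 / l ^ C * (8 / l ^ 5 + 144 / l) := by field_simp; ring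
    _ ≤ _ := by
      refine mul_le_of_le_one_right (by positivity) ?_
      have a : 8 / l ^ 5 ≤ 144 / l :=
        div_le_div₀ (by norm_num) (by norm_num) l0 (le_self_pow₀ l1 (by norm_num))
      have b : 144 / l ≤ 1 / 2 := by rw [div_le_iff₀ l0]; linarith
      linarith

theorem bdh (f₀ : ℤ × ℤ) (h₀ : 1 ≤ f₀.1) (B C : ℕ) : ∀ᶠ N : ℕ in atTop, ∀ (lam : ℝ) (D : ℕ),
    Real.log N ≤ lam → lam ≤ Real.log N ^ B → D ^ 4 ≤ N →
      ∑ d ∈ Icc 1 D, ∑ c ∈ range d,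
        (∑ n ∈ (Ra lam N).filter (fun n => n % d = c), G1 (zz N) (ev f₀ n)) ^ 2
        ≤ (N : ℝ) ^ 2 / Real.log N ^ C := by
  obtain ⟨a, b⟩ := f₀
  obtain ⟨A, rfl⟩ : ∃ A : ℕ, a = A := ⟨_, (Int.toNat_of_nonneg (by simp only at h₀; omega)).symm⟩
  have hA : 1 ≤ A := by simpa using h₀
  have tl : Tendsto (fun N : ℕ => Real.log N) atTop atTop :=
    Real.tendsto_log_atTop.comp tendsto_natCast_atTop_atTop
  have e1 := tendsto_natCast_atTop_atTop.eventually ((Real.isLittleO_pow_log_id_atTop (n := B)).bound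
    (c := 1 / ((b.natAbs : ℝ) + 1)) (by positivity))
  filter_upwards [G1_sw (2 * C + 13), LF_bound, tl.eventually_ge_atTop 288,
    tl.eventually_ge_atTop ((A + b.natAbs : ℕ) : ℝ), eventually_ge_atTop (A + b.natAbs), e1]
    with N hsw hLF hl hK hKN hB lam D h1 h2 h3
  have N1 : 1 ≤ N := by omega
  have N0 : (0 : ℝ) < N := by exact_mod_cast N1
  set l := Real.log N with hld
  have l1 : 1 ≤ l := by linarith
  have lam0 : 0 < lam := by linarith
  have hn : b.natAbs < ⌈N / lam⌉₊ := by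
    rw [Nat.lt_ceil, lt_div_iff₀ lam0]
    rw [Real.norm_eq_abs, Real.norm_eq_abs, id, abs_of_pos N0, abs_of_pos (by positivity),
      one_div_mul_eq_div, le_div_iff₀ (by positivity)] at hB
    nlinarith [Nat.cast_nonneg (α := ℝ) b.natAbs]
  have hN : ⌈N / lam⌉₊ ≤ N := Nat.ceil_le.2 (div_le_self N0.le (by linarith))
  have hR : Ra lam N = Icc ⌈N / lam⌉₊ N := by
    ext n
    simp only [Ra, mem_filter, mem_Icc]
    have : (N : ℝ) ≤ lam * n ↔ ⌈N / lam⌉₊ ≤ n := by rw [Nat.ceil_le, div_le_iff₀' lam0]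
    rw [this]
    omega
  have hQ : (⌈l ^ (C + 5)⌉₊ : ℝ) ≤ l ^ (C + 6) := by
    have p : 1 ≤ l ^ (C + 5) := one_le_pow₀ l1
    have := Nat.ceil_lt_add_one (zero_le_one.trans p)
    rw [pow_succ l (C + 5)]
    nlinarith
  have hD : D ^ 2 ≤ N := by
    rcases Nat.eq_zero_or_pos D with rfl | k
    · simp
    · exact (Nat.pow_le_pow_right k (by norm_num)).trans h3
  have hH : ∀ n ≤ N, HH n ≤ 2 * l := fun n k => by
    refine (HH_le n).trans ?_
    rcases Nat.eq_zero_or_pos n with rfl | k'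
    · simp; linarith
    · have := Real.log_le_log (by exact_mod_cast k') (show (n : ℝ) ≤ N by exact_mod_cast k)
      linarith
  have hM : (A + b.natAbs) * N ≤ N ^ 2 := by rw [sq]; exact Nat.mul_le_mul_right _ hKN
  have hY : A * N + b.natAbs ≤ (A + b.natAbs) * N := by
    rw [add_mul]; exact Nat.add_le_add_left (Nat.le_mul_of_pos_right _ N1) _
  rw [hR]
  refine (BDH_abs (L := N + 1) (fun n k => mem_range.2 (Nat.lt_succ_of_le (mem_Icc.1 k).2)) _
    (U := 3 * l) (W := 2 * (((A + b.natAbs : ℕ) : ℝ) * N / l ^ (2 * C + 13))) (fun n k => ?_) D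
    (Q := ⌈l ^ (C + 5)⌉₊) (Nat.ceil_pos.2 (by positivity)) fun q q0 q1 c hc => ?_).trans
    (BDH_num hl (by positivity) hK N0.le (hH D ((Nat.le_self_pow two_ne_zero D).trans hD))
      (hH _ hD) (HH_nonneg _) (Nat.le_ceil _) hQ (by positivity) (by exact_mod_cast hD)
      (by positivity) (by exact_mod_cast (by omega : N + 1 ≤ 2 * N)))
  · refine (hLF _ ?_).2.2.2.2
    have a1 : A * n ≤ A * N := Nat.mul_le_mul_left _ (mem_Icc.1 k).2
    have a2 : N ^ 2 ≤ N ^ 3 := Nat.pow_le_pow_right N1 (by norm_num)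
    have a3 : A * n + b.natAbs ≤ N ^ 3 := by omega
    simp only [ev]
    zify at a3
    linarith [le_abs_self b]
  · obtain ⟨c', Y₀, Y₁, y1, y2, e⟩ := BDH_cls (G1 (zz N)) hA hc hn hN
    have s := fun Y (y : Y ≤ Y₁) => hsw ((A + b.natAbs) * N)
      ((Nat.le_mul_of_pos_left _ (by omega)).trans (Nat.le_self_pow two_ne_zero _)) hM (A * q) c' Y
      (Nat.mul_pos hA q0) (by
        have a1 : (q : ℝ) ≤ l ^ (C + 6) := le_trans (by exact_mod_cast q1) hQ
        have a2 : (A : ℝ) ≤ l := le_trans (by exact_mod_cast Nat.le_add_right _ _) hK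
        calc ((A * q : ℕ) : ℝ) ≤ l * l ^ (C + 6) := by rw [Nat.cast_mul]; gcongr
          _ ≤ _ := by rw [← pow_succ']; exact pow_le_pow_right₀ l1 (by omega)) (by omega)
    simp only [ev]
    rw [e]
    have s0 := s Y₀ y1
    have s1 := s Y₁ le_rfl
    rw [Nat.cast_mul] at s0 s1
    exact (abs_sub _ _).trans (by linarith)

end Pool.Agent.Work.MP_51e72e_nt.AV
end

-- merged part: Pool.Agent.Work.MP_51e72e_nt.AV.Fix
section
/-! The fixed form. -/

set_option autoImplicit false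
open Finset Filter MeasureTheory Pool.Agent.Lib.MR Pool.Agent.Lib.LargeSieve
open Pool.Agent.Work.MP_678620_nt

namespace Pool.Agent.Work.MP_51e72e_nt.AV

/-- The primes of `P` dividing one of the values. -/
def Fix_Z {k : ℕ} (P : Finset ℕ) (n : ℕ) (v : Fin k → ℤ × ℤ) : Finset ℕ :=
  P.filter fun p => ∃ i, (p : ℤ) ∣ ev (v i) n

lemma Fix_line {H d : ℕ} (hd : 1 ≤ d) (hdH : d ≤ H) (u : ℤ) :
    ((((Icc (-(H : ℤ)) H).filter fun b : ℤ => (d : ℤ) ∣ u + b).card : ℕ) : ℝ) ≤ 6 * H / d := by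
  have d0 : (0 : ℤ) < d := by exact_mod_cast hd
  have e : (Icc (-(H : ℤ)) H).filter (fun b : ℤ => (d : ℤ) ∣ u + b)
      = (Ico (-(H : ℤ)) (H + 1)).filter fun b : ℤ => b ≡ -u [ZMOD d] := by
    ext b
    simp only [mem_filter, mem_Icc, mem_Ico, Int.lt_add_one_iff, Int.modEq_iff_dvd]
    refine and_congr_right fun _ => ?_
    rw [← dvd_neg, show -(u + b) = -u - b by ring]
  have h := Int.Ico_filter_modEq_card (-(H : ℤ)) (H + 1) d0 (-u)
  rw [← e] at h
  have dq : (0 : ℚ) < d := by exact_mod_cast hd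
  have hq : (d : ℚ) ≤ H := by exact_mod_cast hdH
  have d1 : (1 : ℚ) ≤ d := by exact_mod_cast hd
  have key : ((((Icc (-(H : ℤ)) H).filter fun b : ℤ => (d : ℤ) ∣ u + b).card : ℤ) : ℚ)
      ≤ 6 * H / d := by
    rw [h]
    push_cast
    refine max_le ?_ (by positivity)
    have a1 := Int.ceil_lt_add_one (((H : ℚ) + 1 - -u) / d)
    have a2 := Int.le_ceil ((-(H : ℚ) - -u) / d)
    have a3 : ((H : ℚ) + 1 - -u) / d + 1 - (-(H : ℚ) - -u) / d = (2 * H + 1 + d) / d := by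
      field_simp
      ring
    have a4 : (2 * (H : ℚ) + 1 + d) / d ≤ 6 * H / d :=
      div_le_div_of_nonneg_right (by linarith) dq.le
    linarith
  have k2 : ((((Icc (-(H : ℤ)) H).filter fun b : ℤ => (d : ℤ) ∣ u + b).card : ℕ) : ℚ)
      ≤ 6 * H / d := by exact_mod_cast key
  have k3 := (Rat.cast_le (K := ℝ)).2 k2
  push_cast at k3
  exact k3

lemma Fix_box {H d : ℕ} (hd : 1 ≤ d) (hdH : d ≤ H) (lam : ℝ) (n : ℕ) :
    ((((Box lam H).filter fun f => (d : ℤ) ∣ ev f n).card : ℕ) : ℝ) ≤ 6 * H ^ 2 / d := by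
  rw [card_filter, Box, sum_product]
  push_cast
  refine (sum_le_card_nsmul _ _ (6 * (H : ℝ) / d) fun a _ => ?_).trans ?_
  · have := Fix_line hd hdH (a * n)
    rw [card_filter] at this
    push_cast at this
    exact this
  · have c : ((Icc (1 : ℤ) H).filter fun a : ℤ => (H : ℝ) ≤ lam * a).card ≤ H :=
      (card_filter_le _ _).trans (by simp)
    have c' : ((((Icc (1 : ℤ) H).filter fun a : ℤ => (H : ℝ) ≤ lam * a).card : ℕ) : ℝ) ≤ H := by
      exact_mod_cast c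
    rw [nsmul_eq_mul]
    refine (mul_le_mul_of_nonneg_right c' (by positivity)).trans_eq (by ring)

lemma Fix_count {k H : ℕ} {P T : Finset ℕ} (hT : ∀ p ∈ T, p.Prime) (hH : ∏ p ∈ T, p ≤ H)
    (lam : ℝ) (n : ℕ) :
    ∑ v ∈ Tup k lam H, (if T ⊆ Fix_Z P n v then (1 : ℝ) else 0)
      ≤ (6 * (H : ℝ) ^ 2) ^ k * ∏ p ∈ T, ((k : ℝ) / p) := by
  classical
  let dd : (T → Fin k) → Fin k → ℕ := fun φ i => ∏ p ∈ univ.filter fun p : T => φ p = i, (p : ℕ)
  have hprod : ∀ φ : T → Fin k, ∏ i, dd φ i = ∏ p ∈ T, p := fun φ => by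
    rw [prod_fiberwise univ φ (fun p : T => (p : ℕ)), prod_coe_sort T fun p => p]
  have pos : ∀ φ i, 1 ≤ dd φ i := fun φ i =>
    Nat.one_le_iff_ne_zero.2 (prod_ne_zero_iff.2 fun p _ => (hT p p.2).ne_zero)
  have le : ∀ φ i, dd φ i ≤ H := fun φ i => by
    refine le_trans ?_ hH
    rw [← hprod φ]
    exact single_le_prod' (fun j _ => pos φ j) (mem_univ i)
  have step : ∀ v ∈ Tup k lam H, (if T ⊆ Fix_Z P n v then (1 : ℝ) else 0)
      ≤ ∑ φ : T → Fin k, ∏ i, (if (dd φ i : ℤ) ∣ ev (v i) n then (1 : ℝ) else 0) := by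
    intro v _
    have nn : ∀ φ : T → Fin k,
        0 ≤ ∏ i, (if (dd φ i : ℤ) ∣ ev (v i) n then (1 : ℝ) else 0) := fun φ =>
      prod_nonneg fun i _ => by split_ifs <;> norm_num
    split_ifs with h
    · choose φ hφ using fun p : T => (mem_filter.1 (h p.2)).2
      refine le_trans (le_of_eq ?_) (single_le_sum (fun φ _ => nn φ) (mem_univ φ))
      refine (prod_eq_one fun i _ => if_pos ?_).symm
      simp only [dd]
      push_cast
      refine prod_dvd_of_coprime ?_ fun p hp => ?_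
      · intro p _ q _ hpq
        exact Nat.isCoprime_iff_coprime.2
          ((Nat.coprime_primes (hT p p.2) (hT q q.2)).2 fun e => hpq (Subtype.ext e))
      · rw [← (mem_filter.1 hp).2]
        exact hφ p
    · exact sum_nonneg fun φ _ => nn φ
  refine (sum_le_sum step).trans ?_
  rw [sum_comm]
  have one : ∀ φ : T → Fin k, ∑ v ∈ Tup k lam H,
      ∏ i, (if (dd φ i : ℤ) ∣ ev (v i) n then (1 : ℝ) else 0)
      ≤ (6 * (H : ℝ) ^ 2) ^ k / ∏ p ∈ T, (p : ℝ) := by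
    intro φ
    rw [Tup, ← prod_univ_sum (fun _ : Fin k => Box lam H)
      fun i f => if (dd φ i : ℤ) ∣ ev f n then (1 : ℝ) else 0]
    refine (prod_le_prod (g := fun i => 6 * (H : ℝ) ^ 2 / dd φ i) (fun i _ => sum_nonneg fun f _ => by
      split_ifs <;> norm_num) fun i _ => ?_).trans_eq ?_
    · have := Fix_box (pos φ i) (le φ i) lam n
      rw [card_filter] at this
      push_cast at this
      exact this
    · rw [prod_div_distrib, prod_const, card_univ, Fintype.card_fin, ← Nat.cast_prod, hprod,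
        Nat.cast_prod]
  refine (sum_le_card_nsmul _ _ _ fun φ _ => one φ).trans_eq ?_
  rw [card_univ, Fintype.card_fun, Fintype.card_fin, Fintype.card_coe, prod_div_distrib,
    prod_const, nsmul_eq_mul]
  push_cast
  ring

lemma Fix_mod {k : ℕ} {P T : Finset ℕ} (n : ℕ) (v : Fin k → ℤ × ℤ) :
    T ⊆ Fix_Z P (n % ∏ p ∈ T, p) v ↔ T ⊆ Fix_Z P n v := by
  refine forall_congr' fun p => forall_congr' fun hp => ?_
  simp only [Fix_Z, mem_filter]
  refine and_congr_right fun _ => exists_congr fun i => ?_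
  obtain ⟨c, hc⟩ := dvd_prod_of_mem (fun p : ℕ => p) hp
  have e : ev (v i) n = ev (v i) (n % ∏ p ∈ T, p)
      + p * ((v i).1 * c * ((n / ∏ p ∈ T, p : ℕ) : ℤ)) := by
    have h := Nat.mod_add_div n (∏ p ∈ T, p)
    generalize n % ∏ p ∈ T, p = r at *
    generalize n / ∏ p ∈ T, p = q at *
    rw [hc] at h
    rw [ev, ev, ← h]
    push_cast
    ring
  rw [e, dvd_add_left (dvd_mul_right _ _)]

lemma Fix_bonf {P Z : Finset ℕ} (hZ : Z ⊆ P) (J : ℕ) :
    |(if Z = ∅ then (1 : ℝ) else 0) - ∑ T ∈ P.powerset.filter (fun T => T.card ≤ J),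
        (-1 : ℝ) ^ T.card * (if T ⊆ Z then (1 : ℝ) else 0)|
      ≤ ∑ T ∈ P.powersetCard (J + 1), (if T ⊆ Z then (1 : ℝ) else 0) := by
  have h := bonf_set Z J
  have e1 : ∑ T ∈ P.powerset.filter (fun T => T.card ≤ J),
        (-1 : ℝ) ^ T.card * (if T ⊆ Z then (1 : ℝ) else 0)
      = ∑ T ∈ Z.powerset.filter (fun T => T.card ≤ J), (-1 : ℝ) ^ T.card := by
    simp only [mul_ite, mul_one, mul_zero]
    rw [← sum_filter]
    refine sum_congr ?_ fun _ _ => rfl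
    ext T
    simp only [mem_filter, mem_powerset]
    exact ⟨fun h => ⟨h.2, h.1.2⟩, fun h => ⟨⟨h.1.trans hZ, h.2⟩, h.1⟩⟩
  have e2 : ∑ T ∈ P.powersetCard (J + 1), (if T ⊆ Z then (1 : ℝ) else 0)
      = (Z.powersetCard (J + 1)).card := by
    rw [← sum_filter, sum_const, nsmul_eq_mul, mul_one]
    congr 2
    ext T
    simp only [mem_filter, mem_powersetCard]
    exact ⟨fun h => ⟨h.2, h.1.2⟩, fun h => ⟨⟨h.1.trans hZ, h.2⟩, h.1⟩⟩
  rw [e1, e2]
  exact h

lemma Fix_main {k H : ℕ} {P T : Finset ℕ} (hT : ∀ p ∈ T, p.Prime) (hH : ∏ p ∈ T, p ≤ H)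
    (lam : ℝ) (S : Finset ℕ) (G : ℕ → ℝ) {t : ℝ} (ht : 0 < t) :
    ∑ v ∈ Tup k lam H, |∑ n ∈ S, G n * (if T ⊆ Fix_Z P n v then (1 : ℝ) else 0)|
      ≤ (6 * (H : ℝ) ^ 2) ^ k * ((t * ∏ p ∈ T, ((k : ℝ) ^ 2 / p) +
        (∑ c ∈ range (∏ p ∈ T, p), (∑ n ∈ S.filter (fun n => n % (∏ p ∈ T, p) = c), G n) ^ 2) / t)
          / 2) := by
  have d0 : 0 < ∏ p ∈ T, p := prod_pos fun p hp => (hT p hp).pos
  have step : ∀ v ∈ Tup k lam H, |∑ n ∈ S, G n * (if T ⊆ Fix_Z P n v then (1 : ℝ) else 0)|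
      ≤ ∑ c ∈ range (∏ p ∈ T, p), |∑ n ∈ S.filter (fun n => n % (∏ p ∈ T, p) = c), G n| *
        (if T ⊆ Fix_Z P c v then (1 : ℝ) else 0) := by
    intro v _
    rw [← sum_fiberwise_of_maps_to (s := S) (t := range (∏ p ∈ T, p))
      (g := fun n => n % ∏ p ∈ T, p) fun n _ => mem_range.2 (Nat.mod_lt n d0)]
    refine (abs_sum_le_sum_abs _ _).trans (sum_le_sum fun c _ => le_of_eq ?_)
    rw [sum_congr rfl (g := fun n => G n * (if T ⊆ Fix_Z P c v then (1 : ℝ) else 0)) fun n hn => by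
      rw [← (mem_filter.1 hn).2]
      simp only [Fix_mod], ← sum_mul, abs_mul]
    congr 1
    split_ifs <;> simp
  refine (sum_le_sum step).trans ?_
  rw [sum_comm]
  have dR : (0 : ℝ) < ∏ p ∈ T, (p : ℝ) := prod_pos fun p hp => Nat.cast_pos.2 (hT p hp).pos
  have e : t * ∏ p ∈ T, ((k : ℝ) ^ 2 / p)
      = ∑ _c ∈ range (∏ p ∈ T, p), t * (∏ p ∈ T, ((k : ℝ) / p)) ^ 2 := by
    rw [sum_const, card_range, nsmul_eq_mul, prod_div_distrib, prod_div_distrib, prod_const,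
      prod_const, Nat.cast_prod]
    field_simp
    ring
  rw [e, sum_div, ← sum_add_distrib, sum_div, mul_sum]
  refine sum_le_sum fun c _ => ?_
  rw [← mul_sum]
  refine (mul_le_mul_of_nonneg_left (Fix_count (P := P) hT hH lam c) (abs_nonneg _)).trans ?_
  rw [mul_left_comm]
  refine mul_le_mul_of_nonneg_left ?_ (by positivity)
  rw [← sq_abs (∑ n ∈ S.filter (fun n => n % (∏ p ∈ T, p) = c), G n)]
  generalize |∑ n ∈ S.filter (fun n => n % (∏ p ∈ T, p) = c), G n| = x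
  generalize ∏ p ∈ T, ((k : ℝ) / p) = y
  have : (t * y ^ 2 + x ^ 2 / t) / 2 - x * y = (t * y - x) ^ 2 / (2 * t) := by
    field_simp
    ring
  have : 0 ≤ (t * y - x) ^ 2 / (2 * t) := by positivity
  linarith

lemma Fix_core {k H J D : ℕ} {P : Finset ℕ} (hP : ∀ p ∈ P, p.Prime)
    (hd : ∀ T ⊆ P, T.card ≤ J + 1 → ∏ p ∈ T, p ≤ H ∧ ∏ p ∈ T, p ≤ D)
    (lam : ℝ) (S : Finset ℕ) (G : ℕ → ℝ) {g t : ℝ} (hg : ∀ n ∈ S, |G n| ≤ g) (g0 : 0 ≤ g)
    (ht : 0 < t) :
    ∑ v ∈ Tup k lam H, |∑ n ∈ S, G n * (if Fix_Z P n v = ∅ then (1 : ℝ) else 0)|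
      ≤ (6 * (H : ℝ) ^ 2) ^ k * ((t * Real.exp ((k : ℝ) ^ 2 * ∑ p ∈ P, (p : ℝ)⁻¹) +
        (∑ d ∈ Icc 1 D, ∑ c ∈ range d, (∑ n ∈ S.filter (fun n => n % d = c), G n) ^ 2) / t) / 2
          + g * S.card * (((k : ℝ) * ∑ p ∈ P, (p : ℝ)⁻¹) ^ (J + 1) / (J + 1).factorial)) := by
  have step : ∀ v ∈ Tup k lam H, |∑ n ∈ S, G n * (if Fix_Z P n v = ∅ then (1 : ℝ) else 0)|
      ≤ ∑ T ∈ P.powerset.filter (fun T => T.card ≤ J),
          |∑ n ∈ S, G n * (if T ⊆ Fix_Z P n v then (1 : ℝ) else 0)|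
        + g * ∑ n ∈ S, ∑ T ∈ P.powersetCard (J + 1), (if T ⊆ Fix_Z P n v then (1 : ℝ) else 0) := by
    intro v _
    have e : ∑ n ∈ S, G n * (if Fix_Z P n v = ∅ then (1 : ℝ) else 0)
        = ∑ T ∈ P.powerset.filter (fun T => T.card ≤ J), (-1 : ℝ) ^ T.card *
            ∑ n ∈ S, G n * (if T ⊆ Fix_Z P n v then (1 : ℝ) else 0)
          + ∑ n ∈ S, G n * ((if Fix_Z P n v = ∅ then (1 : ℝ) else 0)
            - ∑ T ∈ P.powerset.filter (fun T => T.card ≤ J),
              (-1 : ℝ) ^ T.card * (if T ⊆ Fix_Z P n v then (1 : ℝ) else 0)) := by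
      simp only [mul_sub, sum_sub_distrib, mul_sum]
      rw [sum_comm (s := S)]
      simp only [mul_left_comm (G _)]
      ring
    rw [e]
    refine (abs_add_le _ _).trans (add_le_add ((abs_sum_le_sum_abs _ _).trans
      (sum_le_sum fun T _ => ?_)) ((abs_sum_le_sum_abs _ _).trans ?_))
    · rw [abs_mul, abs_pow, abs_neg, abs_one, one_pow, one_mul]
    · rw [mul_sum]
      refine sum_le_sum fun n hn => ?_
      rw [abs_mul]
      exact mul_le_mul (hg n hn) (Fix_bonf (filter_subset _ _) J) (abs_nonneg _) g0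
  refine (sum_le_sum step).trans ?_
  rw [sum_add_distrib, mul_add, sum_comm]
  refine add_le_add ?_ ?_
  · refine (sum_le_sum fun T hT => Fix_main (fun p hp => hP p (mem_powerset.1 (mem_filter.1 hT).1 hp))
      (hd T (mem_powerset.1 (mem_filter.1 hT).1) ((mem_filter.1 hT).2.trans (Nat.le_succ J))).1
      lam S G ht).trans ?_
    rw [← mul_sum, ← sum_div, sum_add_distrib, ← mul_sum, ← sum_div]
    refine mul_le_mul_of_nonneg_left (div_le_div_of_nonneg_right (add_le_add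
      (mul_le_mul_of_nonneg_left ?_ ht.le) (div_le_div_of_nonneg_right ?_ ht.le)) zero_le_two)
      (by positivity)
    · refine (sum_le_sum_of_subset_of_nonneg (filter_subset _ _)
        fun T _ _ => prod_nonneg fun p _ => by positivity).trans ?_
      rw [← prod_one_add, mul_sum, Real.exp_sum]
      refine prod_le_prod (fun p _ => by positivity) fun p _ => ?_
      rw [add_comm, div_eq_mul_inv]
      exact Real.add_one_le_exp _
    · rw [← sum_image (s := P.powerset.filter fun T => T.card ≤ J) (g := fun T => ∏ p ∈ T, p)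
        (f := fun d => ∑ c ∈ range d, (∑ n ∈ S.filter (fun n => n % d = c), G n) ^ 2)]
      · refine sum_le_sum_of_subset_of_nonneg (fun d hd' => ?_)
          fun d _ _ => sum_nonneg fun c _ => sq_nonneg _
        obtain ⟨T, hT, rfl⟩ := mem_image.1 hd'
        have s := mem_powerset.1 (mem_filter.1 hT).1
        exact mem_Icc.2 ⟨prod_pos fun p hp => (hP p (s hp)).pos,
          (hd T s ((mem_filter.1 hT).2.trans (Nat.le_succ J))).2⟩
      · intro T hT T' hT' h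
        have s := mem_powerset.1 (mem_filter.1 hT).1
        have s' := mem_powerset.1 (mem_filter.1 hT').1
        rw [← Nat.primeFactors_prod fun p hp => hP p (s hp),
          ← Nat.primeFactors_prod fun p hp => hP p (s' hp)]
        exact congrArg _ h
  · rw [← mul_sum, sum_comm, mul_assoc g, mul_left_comm _ g]
    refine mul_le_mul_of_nonneg_left ((sum_le_card_nsmul _ _ ((6 * (H : ℝ) ^ 2) ^ k *
      (((k : ℝ) * ∑ p ∈ P, (p : ℝ)⁻¹) ^ (J + 1) / (J + 1).factorial)) fun n _ => ?_).trans_eq ?_) g0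
    · rw [sum_comm]
      refine (sum_le_sum fun T hT => Fix_count (fun p hp => hP p ((mem_powersetCard.1 hT).1 hp))
        (hd T (mem_powersetCard.1 hT).1 (mem_powersetCard.1 hT).2.le).1 lam n).trans ?_
      rw [← mul_sum]
      refine mul_le_mul_of_nonneg_left ?_ (by positivity)
      have := esym_le_pow (I := P) (ν := fun p : ℕ => (k : ℝ) / p) (fun _ _ => by positivity) (J + 1)
      rw [mul_sum]
      exact this
    · rw [nsmul_eq_mul]
      ring

lemma Fix_flat {k n : ℕ} {z : ℝ} (hz : 0 ≤ z) {v : Fin k → ℤ × ℤ} (hv : ∀ i, z < ev (v i) n) :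
    ∏ i, F1 z (ev (v i) n) = (Vz z)⁻¹ ^ k * (if Fix_Z (PZ z) n v = ∅ then (1 : ℝ) else 0) := by
  have pos : ∀ i, (((ev (v i) n).toNat : ℕ) : ℤ) = ev (v i) n := fun i =>
    Int.toNat_of_nonneg (by exact_mod_cast hz.trans (hv i).le)
  split_ifs with h
  · rw [mul_one, prod_congr rfl (g := fun _ => (Vz z)⁻¹) fun i _ => ?_, prod_const, card_univ,
      Fintype.card_fin]
    refine if_pos ⟨fun p hp hd => ?_, hv i⟩
    by_contra hc
    have : p ∈ Fix_Z (PZ z) n v := mem_filter.2 ⟨(mem_PZ hz).2 ⟨hp, not_lt.1 hc⟩, i, by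
      rw [← pos i]; exact_mod_cast hd⟩
    rw [h] at this
    exact notMem_empty p this
  · obtain ⟨p, hp⟩ := nonempty_iff_ne_empty.2 h
    obtain ⟨hp1, i, hi⟩ := mem_filter.1 hp
    obtain ⟨hp2, hp3⟩ := (mem_PZ hz).1 hp1
    rw [mul_zero]
    refine prod_eq_zero (mem_univ i) (if_neg fun hc => ?_)
    rw [← pos i] at hi
    exact absurd (hc.1 p hp2 (by exact_mod_cast hi)) (not_lt.2 hp3)

lemma Fix_num {k C J : ℕ} {l N v σ Q : ℝ} (hl : 1 ≤ l) (hN : 0 < N) (v0 : 0 ≤ v) (hv : v ≤ l)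
    (σ0 : 0 ≤ σ) (hσ : σ ≤ Real.log l + 72) (c0 : 2 ^ (k + 1) * Real.exp (72 * k ^ 2) ≤ l)
    (hJ : (4 * k + C + 1) * Real.log l + 217 * k + 3 ≤ (J + 1 : ℕ)) {c : ℝ} (hc : c ≤ N)
    (hQ : Q ≤ N ^ 2 / l ^ ((k + k ^ 2 + C + 1) + (k + C + 1))) :
    v ^ k * (2 ^ k * ((N / l ^ (k + k ^ 2 + C + 1) * Real.exp ((k : ℝ) ^ 2 * σ) +
      Q / (N / l ^ (k + k ^ 2 + C + 1))) / 2 +
        3 * l * c * (((k : ℝ) * σ) ^ (J + 1) / (J + 1).factorial))) ≤ N / l ^ C := by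
  have l0 : 0 < l := by linarith
  have k0 : (0 : ℝ) ≤ k := Nat.cast_nonneg k
  have a1 : Real.exp ((k : ℝ) ^ 2 * σ) ≤ l ^ (k ^ 2) * Real.exp (72 * k ^ 2) := by
    rw [← Real.exp_log (show 0 < l ^ (k ^ 2) by positivity), ← Real.exp_add, Real.exp_le_exp,
      Real.log_pow]
    push_cast
    linarith [mul_le_mul_of_nonneg_left hσ (sq_nonneg (k : ℝ))]
  have a2 : ((k : ℝ) * σ) ^ (J + 1) / (J + 1).factorial ≤ 1 / (l ^ (k + C + 1) * (8 * 2 ^ k)) := by
    refine (TB_tail (mul_nonneg k0 σ0) (J + 1)).trans ?_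
    have b : (8 * 2 ^ k : ℝ) ≤ Real.exp ((k + 3 : ℕ) : ℝ) := by
      rw [← Real.exp_one_pow]
      refine le_trans (le_of_eq (by ring)) (pow_le_pow_left₀ zero_le_two ?_ (k + 3))
      linarith [Real.add_one_le_exp 1]
    refine le_trans ?_ (one_div_le_one_div_of_le (by positivity)
      (mul_le_mul_of_nonneg_left b (by positivity)))
    rw [← Real.exp_log (show 0 < l ^ (k + C + 1) by positivity), ← Real.exp_add, one_div,
      ← Real.exp_neg, Real.exp_le_exp, Real.log_pow]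
    have := mul_le_mul_of_nonneg_left hσ k0
    push_cast at hJ ⊢
    linarith
  have E1 : 1 ≤ Real.exp (72 * (k : ℝ) ^ 2) := Real.one_le_exp (by positivity)
  have a3 : Q / (N / l ^ (k + k ^ 2 + C + 1)) ≤ N / l ^ (k + C + 1) := by
    refine (div_le_div_of_nonneg_right hQ (by positivity)).trans_eq ?_
    rw [pow_add l (k + k ^ 2 + C + 1)]
    field_simp
  have a4 : N / l ^ (k + k ^ 2 + C + 1) * Real.exp ((k : ℝ) ^ 2 * σ)
      ≤ N / l ^ (k + C + 1) * Real.exp (72 * k ^ 2) := by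
    refine (mul_le_mul_of_nonneg_left a1 (by positivity)).trans_eq ?_
    rw [show k + k ^ 2 + C + 1 = k + C + 1 + k ^ 2 by ring, pow_add l (k + C + 1)]
    field_simp
  have a5 : 3 * l * c * (((k : ℝ) * σ) ^ (J + 1) / (J + 1).factorial)
      ≤ 3 * l * N * (1 / (l ^ (k + C + 1) * (8 * 2 ^ k))) :=
    mul_le_mul (mul_le_mul_of_nonneg_left hc (by positivity)) a2 (by positivity) (by positivity)
  have a6 : N / l ^ (k + C + 1) ≤ N / l ^ (k + C + 1) * Real.exp (72 * k ^ 2) :=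
    le_mul_of_one_le_right (by positivity) E1
  have a7 : (N / l ^ (k + k ^ 2 + C + 1) * Real.exp ((k : ℝ) ^ 2 * σ) +
      Q / (N / l ^ (k + k ^ 2 + C + 1))) / 2 +
        3 * l * c * (((k : ℝ) * σ) ^ (J + 1) / (J + 1).factorial)
      ≤ N / l ^ (k + C + 1) * Real.exp (72 * k ^ 2)
        + 3 * l * N * (1 / (l ^ (k + C + 1) * (8 * 2 ^ k))) := by linarith
  refine (mul_le_mul_of_nonneg_left (mul_le_mul_of_nonneg_left a7 (by positivity))
    (pow_nonneg v0 k)).trans ((mul_le_mul_of_nonneg_right (pow_le_pow_left₀ v0 hv k)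
      (by positivity)).trans ?_)
  have e : l ^ k * (2 ^ k * (N / l ^ (k + C + 1) * Real.exp (72 * k ^ 2)
        + 3 * l * N * (1 / (l ^ (k + C + 1) * (8 * 2 ^ k)))))
      = N / l ^ C * (2 ^ (k + 1) * Real.exp (72 * k ^ 2) / l / 2 + 3 / 8) := by
    field_simp
    ring
  rw [e]
  refine mul_le_of_le_one_right (by positivity) ?_
  linarith [(div_le_one l0).2 c0]

theorem fixed (k : ℕ) (f₀ : ℤ × ℤ) (h₀ : 1 ≤ f₀.1) {ε : ℝ} (hε : 0 < ε) (B C : ℕ) :
    ∀ᶠ N : ℕ in atTop, ∀ (H : ℕ) (lam : ℝ), Par ε B N H lam →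
      ∑ v ∈ Tup k lam H, |∑ n ∈ Ra lam N, G1 (zz N) (ev f₀ n) * ∏ i, F1 (zz N) (ev (v i) n)|
        ≤ (3 * (H : ℝ) ^ 2) ^ k * N / Real.log N ^ C := by
  have e0 : 0 < min ε (1 / 4) := lt_min hε (by norm_num)
  filter_upwards [bdh f₀ h₀ B ((k + k ^ 2 + C + 1) + (k + C + 1)), LF_bound, Vz_inv_le,
    zz_big (2 * B), zz_big 1, TB_mertens, TB_tend.eventually_ge_atTop 3,
    TB_tend.eventually_ge_atTop (2 ^ (k + 1) * Real.exp (72 * k ^ 2)),
    TB_ev_small (show (0 : ℝ) ≤ 221 * k + C + 5 by positivity) e0,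
    eventually_ge_atTop f₀.1.natAbs, eventually_ge_atTop f₀.2.natAbs, eventually_ge_atTop 2]
    with N hB hL hV hz hz1 hM hl c0 hs n1 n2 n3 H lam hP
  have N0 : (0 : ℝ) < N := by exact_mod_cast (show 0 < N by omega)
  have eN : Real.exp (Real.log N) = N := Real.exp_log N0
  have ez : zz N = Real.exp (Real.log N ^ (24 / 25 : ℝ)) := rfl
  obtain ⟨H1, H2, l1, l2⟩ := hP
  rw [Real.rpow_def_of_pos N0] at H1
  have V0 : 0 ≤ (Vz (zz N))⁻¹ := inv_nonneg.2 (prod_nonneg fun p hp => sub_nonneg.2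
    (inv_le_one_of_one_le₀ (by exact_mod_cast (mem_filter.1 hp).2.one_le)))
  have hG : ∀ n ∈ Ra lam N, |G1 (zz N) (ev f₀ n)| ≤ 3 * Real.log N := fun n hn => by
    refine (hL _ ?_).2.2.2.2
    have a : (n : ℤ) ≤ N := by exact_mod_cast (rg_Ra lam N).hi n hn
    have b : f₀.1 ≤ N := by omega
    have c : f₀.2 ≤ N := by omega
    have d : (2 : ℤ) ≤ N := by exact_mod_cast n3
    have := mul_le_mul b a (Nat.cast_nonneg n) (Nat.cast_nonneg N)
    rw [ev]
    nlinarith [mul_le_mul_of_nonneg_left d (show (0 : ℤ) ≤ N * N by positivity)]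
  replace hB := fun D => hB lam D l1 l2
  have hc : ((Ra lam N).card : ℝ) ≤ N := by exact_mod_cast (rg_Ra lam N).card
  generalize Real.log N = l at *
  generalize zz N = z at *
  have l0 : 0 < l := by linarith
  have t0 : 0 ≤ Real.log l := Real.log_nonneg (by linarith)
  have q0 := Real.rpow_nonneg l0.le (1 / 4 : ℝ)
  have s0 := Real.rpow_nonneg l0.le (24 / 25 : ℝ)
  generalize l ^ (1 / 4 : ℝ) = q at *
  generalize l ^ (24 / 25 : ℝ) = s at *
  have z3 : 3 ≤ z := by linarith [hz1.1, pow_one l]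
  have k0 : (0 : ℝ) ≤ k := Nat.cast_nonneg k
  have C0 : (0 : ℝ) ≤ C := Nat.cast_nonneg C
  obtain ⟨J, J1, J2⟩ : ∃ J : ℕ, (4 * k + C + 1) * Real.log l + 217 * k + 3 ≤ (J + 1 : ℕ) ∧
      ((J + 1 : ℕ) : ℝ) ≤ (4 * k + C + 1) * Real.log l + 217 * k + 5 := by
    refine ⟨⌈(4 * k + C + 1) * Real.log l + 217 * k + 3⌉₊, ?_, ?_⟩
    · push_cast
      linarith [Nat.le_ceil ((4 * k + C + 1) * Real.log l + 217 * k + 3)]
    · push_cast
      linarith [Nat.ceil_lt_add_one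
        (show 0 ≤ (4 * k + C + 1) * Real.log l + 217 * k + 3 by positivity)]
  have J3 : 3 ≤ J + 1 := by
    have : (3 : ℝ) ≤ (J + 1 : ℕ) := le_trans (by
      linarith [mul_nonneg (show (0 : ℝ) ≤ 4 * k + C + 1 by positivity) t0]) J1
    exact_mod_cast this
  have zJ : z ^ (J + 1) ≤ Real.exp (min ε (1 / 4) * l) := by
    rw [ez, ← Real.exp_nat_mul, Real.exp_le_exp]
    refine (mul_le_mul_of_nonneg_right J2 s0).trans (le_trans ?_ hs)
    have ts := mul_nonneg t0 s0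
    nlinarith [mul_nonneg k0 ts, mul_nonneg C0 ts, mul_nonneg k0 s0, mul_nonneg C0 s0,
      mul_nonneg k0 t0, mul_nonneg C0 t0, mul_nonneg k0 q0, mul_nonneg C0 q0]
  have zH : z ^ (J + 1) ≤ H := zJ.trans ((Real.exp_le_exp.2 (by
    linarith [mul_le_mul_of_nonneg_right (min_le_left ε (1 / 4)) l0.le])).trans H1)
  have zD : z ^ (J + 1) ≤ Real.exp (l / 4) := zJ.trans (Real.exp_le_exp.2 (by
    linarith [mul_le_mul_of_nonneg_right (min_le_right ε (1 / 4)) l0.le]))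
  have hD : ⌊Real.exp (l / 4)⌋₊ ^ 4 ≤ N := by
    have := pow_le_pow_left₀ (Nat.cast_nonneg _) (Nat.floor_le (Real.exp_pos (l / 4)).le) 4
    rw [← Real.exp_nat_mul, show ((4 : ℕ) : ℝ) * (l / 4) = l by push_cast; ring, eN] at this
    exact_mod_cast this
  have hd : ∀ T ⊆ PZ z, T.card ≤ J + 1 → ∏ p ∈ T, p ≤ H ∧ ∏ p ∈ T, p ≤ ⌊Real.exp (l / 4)⌋₊ := by
    intro T hT hc
    have a : ((∏ p ∈ T, p : ℕ) : ℝ) ≤ z ^ (J + 1) := by
      rw [Nat.cast_prod]
      refine (prod_le_prod (g := fun _ => z) (fun p _ => Nat.cast_nonneg p)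
        fun p hp => ((mem_PZ (by linarith)).1 (hT hp)).2).trans ?_
      rw [prod_const]
      exact pow_le_pow_right₀ (by linarith) hc
    exact ⟨by exact_mod_cast a.trans zH, Nat.le_floor (a.trans zD)⟩
  have HH : (1 : ℝ) ≤ H := (one_le_pow₀ (by linarith)).trans zH
  have zN : lam ^ 2 * (z + 2) ≤ N := by
    have a : lam ^ 2 ≤ z := by
      refine (pow_le_pow_left₀ (by linarith) l2 2).trans ?_
      rw [← pow_mul, mul_comm]
      exact hz.1
    have b : z ^ 3 ≤ N := ((pow_le_pow_right₀ (by linarith) J3).trans zD).trans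
      ((Real.exp_le_exp.2 (by linarith)).trans eN.le)
    nlinarith [mul_le_mul_of_nonneg_right a (show 0 ≤ z + 2 by linarith),
      mul_le_mul_of_nonneg_left z3 (show 0 ≤ z ^ 2 by positivity)]
  have big : ∀ v ∈ Tup k lam H, ∀ n ∈ Ra lam N, ∀ i, z < ev (v i) n := by
    intro v hv n hn i
    obtain ⟨b1, b2⟩ := mem_product.1 (Fintype.mem_piFinset.1 hv i)
    have b3 := (mem_filter.1 b1).2
    have b4 : -(H : ℝ) ≤ (v i).2 := by exact_mod_cast (mem_Icc.1 b2).1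
    have b5 := (rg_Ra lam N).lo n hn
    have b6 := mul_le_mul b3 b5 N0.le (by linarith)
    have b7 := mul_le_mul_of_nonneg_left zN (show (0 : ℝ) ≤ H by linarith)
    have b8 : (H : ℝ) * (z + 2) ≤ (v i).1 * n :=
      le_of_mul_le_mul_left (by linarith) (show 0 < lam ^ 2 by have : 0 < lam := by linarith
                                                               positivity)
    rw [ev]
    push_cast
    nlinarith [mul_le_mul_of_nonneg_right HH (show 0 ≤ z + 1 by linarith)]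
  rw [sum_congr rfl (g := fun v => (Vz z)⁻¹ ^ k * |∑ n ∈ Ra lam N, G1 z (ev f₀ n) *
      (if Fix_Z (PZ z) n v = ∅ then (1 : ℝ) else 0)|) fun v hv => by
    rw [← abs_of_nonneg (pow_nonneg V0 k), ← abs_mul, mul_sum]
    congr 1
    exact sum_congr rfl fun n hn => by
      rw [Fix_flat (by linarith) (big v hv n hn), mul_left_comm], ← mul_sum]
  refine (mul_le_mul_of_nonneg_left (Fix_core (t := N / l ^ (k + k ^ 2 + C + 1))
    (fun p hp => PZ_prime hp) hd lam (Ra lam N) (fun n => G1 z (ev f₀ n)) hG (by positivity)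
    (by positivity)) (pow_nonneg V0 k)).trans ?_
  have fin := Fix_num (by linarith) N0 V0 hV (sum_nonneg fun p _ => by positivity) hM c0 J1 hc
    (hB _ hD)
  rw [mul_div_assoc, show (6 * (H : ℝ) ^ 2) ^ k = (3 * (H : ℝ) ^ 2) ^ k * 2 ^ k by
    rw [← mul_pow]; ring_nf, mul_assoc, mul_left_comm]
  exact mul_le_mul_of_nonneg_left fin (by positivity)

end Pool.Agent.Work.MP_51e72e_nt.AV
end
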