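import Pool.Agent.Work.MP_51e72e_nt.AV.MinA

/-! The large values inequality in a residue class, for families of translated sets. -/

set_option autoImplicit false
open Finset Filter MeasureTheory Pool.Agent.Lib.MR Pool.Agent.Lib.LargeSieve
open Pool.Agent.Work.MP_678620_nt

namespace Pool.Agent.Work.MP_51e72e_nt.AV

lemma HMc_sum (E : ℕ → ℂ) (Y : ℕ) :
    ∑ k ∈ Icc 1 Y, (((Y : ℝ) - k + 1 : ℝ) : ℂ) * E k = ∑ j ∈ Icc 1 Y, ∑ k ∈ Icc 1 j, E k := by
  induction Y with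
  | zero => simp
  | succ N ih =>
    rw [sum_Icc_succ_top (Nat.le_add_left 1 N) (fun j => ∑ k ∈ Icc 1 j, E k), ← ih]
    have : ∑ n ∈ Icc 1 N, (((N : ℝ) - n + 1 : ℝ) : ℂ) * E n =
        ∑ n ∈ Icc 1 (N + 1), (((N : ℝ) - n + 1 : ℝ) : ℂ) * E n := by
      rw [sum_Icc_succ_top (Nat.le_add_left 1 N)]
      simp
    rw [this, ← sum_add_distrib]
    refine sum_congr rfl fun n _ => ?_
    push_cast
    ring

open PrimeHM in
/-- The kernel with a shift. -/
lemma HMc_ker {e t β : ℝ} (h0 : 0 ≤ β) (h1 : β ≤ 1) (E : ℕ → ℂ) (hE : ∀ k, ‖E k‖ = 1) {N : ℕ}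
    (h : ∀ y ≤ N, ‖∑ m ∈ Icc 1 y, E m - ((y + β : ℝ) : ℂ) * E y / (1 + Complex.I * t)‖ ≤ e) :
    ‖∑ k ∈ Icc 1 N, (((N : ℝ) - k + 1 : ℝ) : ℂ) * E k‖ ≤
      (N + 1) * (N + 2) * (1 + t ^ 2)⁻¹ + (3 * N + 2) * e := by
  have hN := h N le_rfl
  have he : 0 ≤ e := (norm_nonneg _).trans hN
  set s : ℂ := 1 + Complex.I * t with hs
  have s1 : 1 ≤ ‖s‖ := one_le_norm t
  have s0 : s ≠ 0 := PrimeHM.ne_zero t
  set W : ℂ := ∑ j ∈ Icc 1 N, ((j + β : ℝ) : ℂ) * E j / s with hW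
  set Q : ℂ := ∑ k ∈ Icc 1 N, (((N : ℝ) - k + 1 : ℝ) : ℂ) * E k with hQ
  have h2 : ‖Q - W‖ ≤ N * e := by
    rw [hQ, HMc_sum, hW, ← sum_sub_distrib]
    refine (norm_sum_le _ _).trans ((sum_le_card_nsmul _ _ e fun j hj =>
      h j (mem_Icc.1 hj).2).trans ?_)
    rw [Nat.card_Icc, Nat.add_sub_cancel, nsmul_eq_mul]
  have e1 : Q = ((N + 1 + β : ℝ) : ℂ) * ∑ m ∈ Icc 1 N, E m - s * W := by
    rw [hQ, hW, mul_sum, mul_sum, ← sum_sub_distrib]
    refine sum_congr rfl fun n _ => ?_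
    push_cast
    field_simp
    ring
  have s2 : ‖s‖ ≤ ‖s + 1‖ := by
    refine (sq_le_sq₀ (norm_nonneg _) (norm_nonneg _)).1 ?_
    rw [← Complex.normSq_eq_norm_sq, ← Complex.normSq_eq_norm_sq, hs, Complex.normSq_apply,
      Complex.normSq_apply]
    simp
    norm_num
  have a3 : (0 : ℝ) ≤ N := Nat.cast_nonneg N
  have hF : ‖∑ m ∈ Icc 1 N, E m‖ ≤ (N + 1) / ‖s‖ + e := by
    have := norm_add_le (((N + β : ℝ) : ℂ) * E N / s)
      (∑ m ∈ Icc 1 N, E m - ((N + β : ℝ) : ℂ) * E N / s)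
    rw [add_sub_cancel, norm_div, norm_mul, hE, mul_one, Complex.norm_real,
      Real.norm_of_nonneg (by linarith)] at this
    have b : ((N : ℝ) + β) / ‖s‖ ≤ (N + 1) / ‖s‖ :=
      div_le_div_of_nonneg_right (by linarith) (norm_nonneg _)
    linarith
  have h3 : ‖s‖ * ‖W‖ ≤ (N + 2) * ((N + 1) / ‖s‖ + e) + N * e := by
    have e2 : (s + 1) * W = ((N + 1 + β : ℝ) : ℂ) * ∑ m ∈ Icc 1 N, E m - (Q - W) := by
      rw [e1]; ring
    calc ‖s‖ * ‖W‖ ≤ ‖(s + 1) * W‖ := by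
          rw [norm_mul]; exact mul_le_mul_of_nonneg_right s2 (norm_nonneg _)
      _ ≤ _ := by
          rw [e2]
          refine (norm_sub_le _ _).trans (add_le_add ?_ h2)
          rw [norm_mul, Complex.norm_real, Real.norm_of_nonneg (by linarith)]
          exact mul_le_mul (by linarith) hF (norm_nonneg _) (by linarith)
  have h4 : ‖W‖ ≤ (N + 1) * (N + 2) * (1 + t ^ 2)⁻¹ + (2 * N + 2) * e := by
    rw [← norm_sq, ← hs]
    refine le_of_mul_le_mul_left (h3.trans ?_) (by linarith : 0 < ‖s‖)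
    have a1 : ‖s‖ * ((N + 1) * (N + 2) * (‖s‖ ^ 2)⁻¹) = (N + 2) * ((N + 1) / ‖s‖) := by
      field_simp
    have a2 : (2 * N + 2) * e ≤ ‖s‖ * ((2 * N + 2) * e) :=
      le_mul_of_one_le_left (by positivity) s1
    rw [mul_add ‖s‖, a1]
    nlinarith
  have := norm_add_le W (Q - W)
  rw [add_sub_cancel] at this
  linarith

lemma HMc_nit {q σ k : ℕ} (hq : 1 ≤ q) (hk : 1 ≤ k) (t : ℝ) :
    nit (σ + q * k) t = nit q t *
      Complex.exp (Complex.I * ((t * Real.log (k + (σ : ℝ) / q) : ℝ) : ℂ)) := by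
  have q0 : (0 : ℝ) < q := by exact_mod_cast hq
  have k0 : (0 : ℝ) < k := by exact_mod_cast hk
  have e : ((σ + q * k : ℕ) : ℝ) = q * (k + (σ : ℝ) / q) := by
    push_cast
    field_simp
    ring
  simp only [nit]
  rw [← Complex.exp_add, e, Real.log_mul q0.ne' (by positivity)]
  congr 1
  push_cast
  ring

theorem HMc (K : ℕ) : ∃ c : ℝ, 0 < c ∧ ∃ C : ℝ, 1 ≤ C ∧ ∀ q σ V : ℕ, 1 ≤ q → 1 ≤ V →
    ∀ (μ : Measure ℝ) [IsFiniteMeasure μ], μ ≤ volume → ∀ U : Set ℝ, MeasurableSet U →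
    (∀ u ∈ U, |u| ≤ (V : ℝ) ^ K) → μ.real U ≤ (V : ℝ) ^ c →
    ∀ S : Finset ℕ, (∀ n ∈ S, q ≤ n ∧ n ≤ q * V ∧ n % q = σ) → ∀ a : ℕ → ℂ,
      ∫ u in U, ‖DP S a u‖ ^ 2 ∂μ ≤ C * V * ∑ n ∈ S, ‖a n‖ ^ 2 := by
  obtain ⟨c0, hc0, C0, H⟩ := exp_sum_log (K + 1)
  set c : ℝ := min c0 1 with hc
  have c1 : 0 < c := lt_min hc0 one_pos
  have c2 : c ≤ 1 := min_le_right _ _
  set C1 : ℝ := 2 * max C0 0 + 1 with hC1
  have C11 : 1 ≤ C1 := by have := le_max_right C0 0; linarith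
  have hpi := Real.pi_pos
  refine ⟨c, c1, 12 * Real.pi + 8 * C1, by linarith,
    fun q σ M hq hM μ _ hle U hU hUK hUc S hS a => ?_⟩
  by_cases hσ : σ < q
  swap
  · have : S = ∅ := eq_empty_of_forall_notMem fun n hn =>
      hσ ((hS n hn).2.2 ▸ Nat.mod_lt n hq)
    simp [this, DP]
  obtain ⟨N, hN⟩ : ∃ N, N = 2 * M := ⟨_, rfl⟩
  have N1 : (N : ℝ) = 2 * M := by rw [hN]; push_cast; rfl
  have hS1 : ∀ n ∈ S, n / q ≤ M := fun n hn =>
    Nat.div_le_of_le_mul (hS n hn).2.1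
  have hS' : ∀ n ∈ S, ((n / q : ℕ) : ℝ) ≤ M := fun n hn => by exact_mod_cast hS1 n hn
  let J : Finset ℕ := (Icc 1 N).image fun k => σ + q * k
  have hdiv : ∀ k, (σ + q * k) / q = k := fun k => by
    rw [Nat.add_mul_div_left _ _ hq, Nat.div_eq_of_lt hσ, zero_add]
  have hSN : S ⊆ J := fun n hn => mem_image.2 ⟨n / q, mem_Icc.2
    ⟨(Nat.le_div_iff_mul_le hq).2 (by simpa using (hS n hn).1), (hS1 n hn).trans (by omega)⟩, by
      rw [← (hS n hn).2.2]; exact Nat.mod_add_div n q⟩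
  have q0 : (0 : ℝ) < q := by exact_mod_cast hq
  have b0 : 0 ≤ (σ : ℝ) / q := by positivity
  have b1 : (σ : ℝ) / q ≤ 1 := (div_le_one q0).2 (by exact_mod_cast hσ.le)
  have hA : (1 : ℝ) ≤ M := by exact_mod_cast hM
  generalize (M : ℝ) = A at *
  have hA0 : 0 < A := by linarith
  have z4 : A ^ (1 - c) * A ^ c = A := by
    rw [← Real.rpow_add hA0]
    norm_num
  have y1 : 1 ≤ A ^ (1 - c) := Real.one_le_rpow hA (by linarith)
  generalize hy : A ^ (1 - c) = y at z4 y1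
  have hexp : ∀ u ∈ U, ∀ v ∈ U, ‖∑ n ∈ J, (((N : ℝ) - (n / q : ℕ) + 1 : ℝ) : ℂ) * nit n (u - v)‖ ≤
      (N + 1) * (N + 2) * (1 + (u - v) ^ 2)⁻¹ + (3 * N + 2) * (C1 * y) := by
    intro u hu v hv
    have a1 : |u - v| ≤ (2 * A) ^ (K + 1) := by
      have b1 : A ^ K ≤ (2 * A) ^ K := pow_le_pow_left₀ hA0.le (by linarith) K
      have b2 := abs_sub u v
      have b3 := hUK u hu
      have b4 := hUK v hv
      have b5 : 0 ≤ A ^ K := by positivity
      rw [pow_succ]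
      nlinarith
    have a3 : (2 * A) ^ (1 - c0) ≤ 2 * y := by
      calc (2 * A) ^ (1 - c0) ≤ (2 * A) ^ (1 - c) :=
            Real.rpow_le_rpow_of_exponent_le (by linarith) (by linarith [min_le_left c0 1])
        _ = 2 ^ (1 - c) * y := by rw [Real.mul_rpow (by norm_num) hA0.le, hy]
        _ ≤ 2 * y := by
            refine mul_le_mul_of_nonneg_right ?_ (by linarith)
            exact (Real.rpow_le_rpow_of_exponent_le (by norm_num) (by linarith)).trans_eq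
              (Real.rpow_one 2)
    have a4 : C0 * (2 * A) ^ (1 - c0) ≤ max C0 0 * (2 * y) :=
      mul_le_mul (le_max_left _ _) a3 (by positivity) (le_max_right _ _)
    have a5 := HMc_ker (e := C1 * y) (t := u - v) b0 b1
      (fun k => Complex.exp (Complex.I * (((u - v) * Real.log (k + (σ : ℝ) / q) : ℝ) : ℂ)))
      (fun k => by rw [mul_comm, Complex.norm_exp_ofReal_mul_I]) (N := N) fun j hj => by
        refine (H (2 * A) (by linarith) _ b0 b1 _ a1 j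
          ((Nat.cast_le.2 hj).trans N1.le)).trans (a4.trans ?_)
        rw [hC1]; nlinarith
    refine le_trans (le_of_eq ?_) a5
    rw [sum_image fun k _ l _ e => Nat.eq_of_mul_eq_mul_left hq (Nat.add_left_cancel e),
      ← one_mul ‖∑ k ∈ Icc 1 N, (((N : ℝ) - k + 1 : ℝ) : ℂ) * _‖, ← norm_nit q (u - v), ← norm_mul,
      mul_sum]
    congr 1
    refine sum_congr rfl fun k hk => ?_
    rw [hdiv, HMc_nit hq (mem_Icc.1 hk).1]
    ring
  have hQ := Trig.DP S a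
  set W : ℝ := ∫ u in U, ‖DP S a u‖ ^ 2 ∂μ with hW
  have M0 : 0 ≤ W := integral_nonneg fun u => by positivity
  have m0 : 0 ≤ μ.real U := measureReal_nonneg
  let g : ℕ → ℝ := fun n => ‖PrimeHM.GG (μ.restrict U) (DP S a) n‖ ^ 2
  have X1 := PrimeHM.bil μ hle hU hQ J (fun n => (N : ℝ) - (n / q : ℕ) + 1)
    (α := (N + 1) * (N + 2)) (β := (3 * N + 2) * (C1 * y)) (by positivity) (by positivity) hexp
  have S1 : ∑ p ∈ S, ((N : ℝ) - (p / q : ℕ) + 1) * g p ≤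
      ∑ p ∈ J, ((N : ℝ) - (p / q : ℕ) + 1) * g p :=
    sum_le_sum_of_subset_of_nonneg hSN fun n hn _ => by
      obtain ⟨k, hk, rfl⟩ := mem_image.1 hn
      have : (k : ℝ) ≤ N := by exact_mod_cast (mem_Icc.1 hk).2
      rw [hdiv]
      exact mul_nonneg (by linarith) (by positivity)
  have S2 : A * ∑ p ∈ S, g p ≤ ∑ p ∈ S, ((N : ℝ) - (p / q : ℕ) + 1) * g p := by
    rw [mul_sum]
    exact sum_le_sum fun p hp =>
      mul_le_mul_of_nonneg_right (by linarith [hS' p hp]) (by positivity)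
  have X3 : ∑ n ∈ J, ((N : ℝ) - (n / q : ℕ) + 1) * g n ≤
      A * ((12 * Real.pi + 8 * C1) * A * W) := by
    rw [← mul_assoc]
    refine ((le_abs_self _).trans X1).trans (mul_le_mul_of_nonneg_right ?_ M0)
    have a1 : ((N : ℝ) + 1) * (N + 2) ≤ 3 * A * (4 * A) :=
      mul_le_mul (by linarith) (by linarith) (by positivity) (by positivity)
    have a2 : (3 * N + 2) * (C1 * y) * μ.real U ≤ 8 * A * (C1 * y) * A ^ c :=
      mul_le_mul (mul_le_mul_of_nonneg_right (by linarith) (by positivity)) hUc m0 (by positivity)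
    have a3 : 8 * A * (C1 * y) * A ^ c = 8 * A * C1 * A := by
      rw [← mul_assoc, mul_assoc _ y, z4]
    have a4 := mul_le_mul_of_nonneg_right a1 hpi.le
    nlinarith
  have S3 : ∑ p ∈ S, g p ≤ (12 * Real.pi + 8 * C1) * A * W :=
    le_of_mul_le_mul_left (S2.trans (S1.trans X3)) hA0
  have s0 : 0 ≤ ∑ n ∈ S, ‖a n‖ ^ 2 := sum_nonneg fun p _ => by positivity
  have S4 := (MRHM_dual (μ.restrict U) S a).trans (mul_le_mul_of_nonneg_left S3 s0)
  change W ^ 2 ≤ _ at S4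
  rcases M0.eq_or_lt with h | h
  · rw [← h]; positivity
  · refine le_of_mul_le_mul_right ?_ h
    rw [← sq]
    refine S4.trans (le_of_eq ?_)
    ring

/-- A translated piece of the Cauchy measure. -/
lemma HMc_piece (T t : ℝ) (U : Set ℝ) {s : Set ℝ} (hs : MeasurableSet s) :
    (((cm T).restrict U).map (· + t)) s ≤ ∫⁻ v in s, ENNReal.ofReal (wt T (v - t)) := by
  have hm : Measurable fun u : ℝ => u + t := measurable_add_const t
  rw [Measure.map_apply hm hs]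
  refine (Measure.restrict_le_self (μ := cm T) (s := U) _).trans (le_of_eq ?_)
  rw [cm, withDensity_apply _ (hm hs), ← lintegral_indicator (hm hs), ← lintegral_indicator hs,
    ← lintegral_add_right_eq_self
      (fun v => s.indicator (fun v => ENNReal.ofReal (wt T (v - t))) v) t]
  refine lintegral_congr fun u => ?_
  by_cases h : u + t ∈ s
  · rw [Set.indicator_of_mem h, Set.indicator_of_mem (show u ∈ (fun u : ℝ => u + t) ⁻¹' s from h),
      add_sub_cancel_right]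
  · rw [Set.indicator_of_notMem h,
      Set.indicator_of_notMem (show u ∉ (fun u : ℝ => u + t) ⁻¹' s from h)]

theorem HMfam (K : ℕ) : ∃ c : ℝ, 0 < c ∧ ∃ C : ℝ, 1 ≤ C ∧ ∀ q σ V : ℕ, 1 ≤ q → 1 ≤ V →
    ∀ (I : Finset ℕ) (T D : ℝ) (t : ℕ → ℝ) (U : ℕ → Set ℝ), 0 < T → 1 ≤ D →
    (∀ i, MeasurableSet (U i)) → (∀ i ∈ I, ∀ u ∈ U i, |u + t i| ≤ (V : ℝ) ^ K) →
    (∀ v, ∑ i ∈ I, wt T (v - t i) ≤ D) → ∑ i ∈ I, (cm T).real (U i) ≤ (V : ℝ) ^ c →
    ∀ S : Finset ℕ, (∀ n ∈ S, q ≤ n ∧ n ≤ q * V ∧ n % q = σ) → ∀ a : ℕ → ℂ,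
      ∑ i ∈ I, MS T (U i) (fun u => DP S a (u + t i)) ≤ C * D * V * ∑ n ∈ S, ‖a n‖ ^ 2 := by
  obtain ⟨c, hc, C, hC, H⟩ := HMc K
  refine ⟨c, hc, C, hC, fun q σ V hq hV I T D t U _ hD hU hUK hw hc' S hS a => ?_⟩
  have D0 : 0 < D := by linarith
  have hm : ∀ i, Measurable fun u : ℝ => u + t i := fun i => measurable_add_const (t i)
  let ν : ℕ → Measure ℝ := fun i => ((cm T).restrict (U i)).map (· + t i)
  let d : NNReal := (Real.toNNReal D)⁻¹
  have hd : (d : ℝ) = D⁻¹ := by rw [NNReal.coe_inv, Real.coe_toNNReal D D0.le]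
  let μ : Measure ℝ := d • ∑ i ∈ I, ν i
  have hle : μ ≤ volume := by
    refine Measure.le_iff.2 fun s hs => ?_
    have a1 : (∑ i ∈ I, ν i) s ≤ ENNReal.ofReal D * volume s := by
      rw [Measure.finsetSum_apply]
      refine (sum_le_sum fun i _ => HMc_piece T (t i) (U i) hs).trans ?_
      rw [← lintegral_finsetSum (f := fun i v => ENNReal.ofReal (wt T (v - t i))) _ fun i _ =>
        ((measurable_wt T).comp (measurable_sub_const (t i))).ennreal_ofReal,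
        ← setLIntegral_const]
      refine lintegral_mono fun v => ?_
      rw [← ENNReal.ofReal_sum_of_nonneg fun i _ => wt_nonneg _ _]
      exact ENNReal.ofReal_le_ofReal (hw v)
    change (d : ENNReal) * (∑ i ∈ I, ν i) s ≤ _
    refine (mul_le_mul_right a1 _).trans (le_of_eq ?_)
    rw [← mul_assoc, ← ENNReal.ofReal_coe_nnreal, hd, ← ENNReal.ofReal_mul (by positivity),
      inv_mul_cancel₀ D0.ne', ENNReal.ofReal_one, one_mul]
  have hZ : MeasurableSet {v : ℝ | |v| ≤ (V : ℝ) ^ K} :=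
    measurableSet_le (by fun_prop) measurable_const
  have hr : μ.restrict {v : ℝ | |v| ≤ (V : ℝ) ^ K} = μ := by
    refine Measure.restrict_eq_self_of_ae_mem (mem_ae_iff.2 ?_)
    change (d : ENNReal) * (∑ i ∈ I, ν i) {v : ℝ | |v| ≤ (V : ℝ) ^ K}ᶜ = 0
    rw [Measure.finsetSum_apply, sum_eq_zero fun i hi => ?_, mul_zero]
    rw [Measure.map_apply (hm i) hZ.compl, Measure.restrict_apply (hm i hZ.compl)]
    have : (fun u : ℝ => u + t i) ⁻¹' {v : ℝ | |v| ≤ (V : ℝ) ^ K}ᶜ ∩ U i = ∅ :=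
      Set.eq_empty_of_forall_notMem fun u hu => hu.1 (hUK i hi u hu.2)
    rw [this, measure_empty]
  have hint : ∀ F : ℝ → ℂ, Trig F → ∫ v, ‖F v‖ ^ 2 ∂μ =
      D⁻¹ * ∑ i ∈ I, MS T (U i) fun u => F (u + t i) := by
    intro F hF
    rw [integral_smul_nnreal_measure, integral_finsetSum_measure fun i _ => hF.integrable_sq _,
      NNReal.smul_def, smul_eq_mul, hd]
    congr 1
    refine sum_congr rfl fun i _ => ?_
    exact integral_map (hm i).aemeasurable (hF.1.norm.pow 2).aestronglyMeasurable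
  have D1 : D⁻¹ ≤ 1 := inv_le_one_of_one_le₀ hD
  have hms : μ.real {v : ℝ | |v| ≤ (V : ℝ) ^ K} ≤ (V : ℝ) ^ c := by
    have a1 := hint (fun _ => 1) (Trig.const 1)
    simp only [norm_one, one_pow, integral_const, smul_eq_mul, mul_one, MS_one] at a1
    refine (measureReal_mono (Set.subset_univ _)).trans (a1.le.trans (le_trans ?_ hc'))
    exact mul_le_of_le_one_left (sum_nonneg fun i _ => measureReal_nonneg) D1
  have a2 := H q σ V hq hV μ hle _ hZ (fun u hu => hu) hms S hS a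
  rw [hr, hint _ (Trig.DP S a), inv_mul_le_iff₀ D0] at a2
  exact a2.trans_eq (by ring)

end Pool.Agent.Work.MP_51e72e_nt.AV
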