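import Pool.Agent.Work.MP_51e72e_nt.AV.MinA
import Pool.Agent.Lib.MR.Moment
import Pool.Agent.Lib.MR.PrimeHM

/-! Moments of Dirichlet polynomials on a piece of a residue class. -/

set_option autoImplicit false
open Finset Filter MeasureTheory Pool.Agent.Lib.MR Pool.Agent.Lib.LargeSieve
open Pool.Agent.Work.MP_678620_nt

namespace Pool.Agent.Work.MP_51e72e_nt.AV

lemma Mom_expand {S : Finset ℕ} (h0 : ∀ a ∈ S, a ≠ 0) (b : ℕ → ℂ) (j : ℕ) :
    (fun u => DP S b u ^ j) = fun u => ∑ x ∈ Fintype.piFinset fun _ : Fin j => S,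
      (∏ i, b (x i)) * nit (∏ i, x i) u := by
  funext u
  have e2 : DP S b u ^ j = ∏ _i : Fin j, ∑ p ∈ S, b p * nit p u := by
    rw [prod_const, card_univ, Fintype.card_fin]; rfl
  rw [e2, prod_univ_sum]
  refine sum_congr rfl fun p hp => ?_
  rw [Moment_nit_prod _ _ fun i _ => h0 _ (Fintype.mem_piFinset.1 hp i), prod_mul_distrib]

/-- The majorant principle. -/
lemma Mom_major {S S0 : Finset ℕ} (hS : S ⊆ S0) (h0 : ∀ a ∈ S0, a ≠ 0) {b : ℕ → ℂ}
    (hb : ∀ a, ‖b a‖ ≤ 1) (j : ℕ) {T : ℝ} (hT : 0 < T) :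
    MS T Set.univ (fun u => DP S b u ^ j) ≤
      MS T Set.univ (fun u => DP S0 (fun _ => 1) u ^ j) := by
  set b' : ℕ → ℂ := fun a => if a ∈ S then b a else 0 with hb'
  have hb1 : ∀ a, ‖b' a‖ ≤ 1 := fun a => by
    simp only [hb']
    split_ifs
    · exact hb a
    · simp
  have e : DP S b = DP S0 b' := by
    funext u
    simp only [DP, hb', ite_mul, zero_mul]
    rw [← sum_filter, filter_mem_eq_inter, inter_eq_right.2 hS]
  rw [e, Mom_expand h0, Mom_expand h0, MS_eq _ (fun x : Fin j → ℕ => ∏ i, x i) _ hT,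
    MS_eq _ (fun x : Fin j → ℕ => ∏ i, x i) _ hT]
  refine mul_le_mul_of_nonneg_left (sum_le_sum fun x _ => sum_le_sum fun y _ =>
    mul_le_mul_of_nonneg_right ?_ (Real.exp_pos _).le) (mul_pos Real.pi_pos hT).le
  have hc : ∀ x : Fin j → ℕ, ‖∏ i, b' (x i)‖ ≤ 1 := fun x => by
    rw [norm_prod]
    exact prod_le_one (fun _ _ => norm_nonneg _) fun _ _ => hb1 _
  refine ((Complex.re_le_norm _).trans ?_).trans_eq (b := 1) (by simp)
  rw [norm_mul, Complex.norm_conj]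
  exact mul_le_one₀ (hc x) (norm_nonneg _) (hc y)

lemma Mom_mass {T : ℝ} (hT : 0 < T) : (cm T).real Set.univ = Real.pi * T := by
  have h := integral_cm_exp hT 0
  simp only [mul_zero, Complex.ofReal_zero, Complex.exp_zero, integral_const, abs_zero, neg_zero,
    Real.exp_zero, mul_one, Complex.real_smul] at h
  exact_mod_cast h

/-- The sum over a piece of a residue class as an exponential sum. -/
lemma Mom_norm {q ρ k0 k1 : ℕ} (hq : 1 ≤ q) (u : ℝ) :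
    ‖DP ((Ioc k0 k1).image fun k => q * k + ρ) (fun _ => 1) u‖ =
      ‖∑ m ∈ Ioc k0 k1,
        Complex.exp (Complex.I * ((u * Real.log (m + (ρ : ℝ) / q) : ℝ) : ℂ))‖ := by
  have hq0 : (0 : ℝ) < q := by exact_mod_cast hq
  rw [DP, sum_image fun a _ b _ h => Nat.eq_of_mul_eq_mul_left hq (Nat.add_right_cancel h),
    ← one_mul ‖∑ m ∈ Ioc k0 k1,
        Complex.exp (Complex.I * ((u * Real.log (m + (ρ : ℝ) / q) : ℝ) : ℂ))‖,
    ← norm_nit q u, ← norm_mul, mul_sum]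
  congr 1
  refine sum_congr rfl fun m hm => ?_
  have hm0 : (0 : ℝ) < m := by exact_mod_cast (Nat.zero_le k0).trans_lt (mem_Ioc.1 hm).1
  have e : ((q * m + ρ : ℕ) : ℝ) = q * (m + (ρ : ℝ) / q) := by
    push_cast
    field_simp
  rw [one_mul, nit, nit, ← Complex.exp_add, e, Real.log_mul hq0.ne' (by positivity)]
  congr 1
  push_cast
  ring

lemma Mom_point (K : ℕ) : ∃ c : ℝ, 0 < c ∧ c ≤ 1 ∧ ∃ C : ℝ, 0 ≤ C ∧ ∀ (q ρ k0 k1 : ℕ) (U : ℝ),
    1 ≤ U → 1 ≤ q → ρ ≤ q → k0 ≤ k1 → (k1 : ℝ) ≤ U → ∀ u : ℝ, |u| ≤ U ^ K →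
      ‖DP ((Ioc k0 k1).image fun k => q * k + ρ) (fun _ => 1) u‖ ≤
        4 * U / ‖(1 + Complex.I * u : ℂ)‖ + C * U ^ (1 - c) := by
  obtain ⟨c, hc, C, h⟩ := exp_sum_log K
  refine ⟨min c 1, lt_min hc one_pos, min_le_right _ _, 2 * |C|, by positivity, ?_⟩
  intro q ρ k0 k1 U hU hq hρ hk hk1 u hu
  have hq0 : (0 : ℝ) < q := by exact_mod_cast hq
  have b0 : (0 : ℝ) ≤ (ρ : ℝ) / q := by positivity
  have b1 : (ρ : ℝ) / q ≤ 1 := (div_le_one hq0).2 (by exact_mod_cast hρ)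
  rw [Mom_norm hq]
  set β : ℝ := (ρ : ℝ) / q
  have hn := PrimeHM.one_le_norm u
  have key : ∀ y : ℕ, (y : ℝ) ≤ U → ‖∑ m ∈ Ioc 0 y,
      Complex.exp (Complex.I * ((u * Real.log (m + β) : ℝ) : ℂ))‖ ≤
        2 * U / ‖(1 + Complex.I * u : ℂ)‖ + |C| * U ^ (1 - min c 1) := by
    intro y hy
    have h1 := h U hU β b0 b1 u hu y hy
    have h2 : ‖((y + β : ℝ) : ℂ) * Complex.exp (Complex.I * ((u * Real.log (y + β) : ℝ) : ℂ))
        / (1 + Complex.I * u)‖ ≤ 2 * U / ‖(1 + Complex.I * u : ℂ)‖ := by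
      rw [norm_div, norm_mul, Complex.norm_exp_I_mul_ofReal, mul_one, Complex.norm_real,
        Real.norm_of_nonneg (by positivity)]
      exact div_le_div_of_nonneg_right (by linarith) (norm_nonneg _)
    have h3 : C * U ^ (1 - c) ≤ |C| * U ^ (1 - min c 1) :=
      mul_le_mul (le_abs_self C) (Real.rpow_le_rpow_of_exponent_le hU
        (by linarith [min_le_left c 1])) (by positivity) (abs_nonneg C)
    have h4 := norm_le_norm_sub_add (∑ m ∈ Icc 1 y,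
      Complex.exp (Complex.I * ((u * Real.log (m + β) : ℝ) : ℂ)))
      (((y + β : ℝ) : ℂ) * Complex.exp (Complex.I * ((u * Real.log (y + β) : ℝ) : ℂ))
        / (1 + Complex.I * u))
    have e : Ioc 0 y = Icc 1 y := rfl
    rw [e]
    linarith
  have e := sum_Ioc_consecutive
    (fun m : ℕ => Complex.exp (Complex.I * ((u * Real.log (m + β) : ℝ) : ℂ))) (Nat.zero_le k0) hk
  rw [eq_sub_of_add_eq' e]
  have k0U : (k0 : ℝ) ≤ U := le_trans (by exact_mod_cast hk) hk1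
  refine (norm_sub_le _ _).trans ((add_le_add (key k1 hk1) (key k0 k0U)).trans_eq ?_)
  ring

lemma Mom_pow {z m x y : ℝ} (hz : 0 ≤ z) (hx : 0 ≤ x) (hy : 0 ≤ y) (h1 : z ≤ m) (h2 : z ≤ x + y)
    (i : ℕ) : (z ^ (i + 1)) ^ 2 ≤ m ^ (2 * i) * (4 * x ^ 2) + (2 * y) ^ (2 * (i + 1)) := by
  have hm : 0 ≤ m := hz.trans h1
  rcases le_total x y with h | h
  · have h3 : (z ^ (i + 1)) ^ 2 ≤ (2 * y) ^ (2 * (i + 1)) := by
      rw [← pow_mul, mul_comm (i + 1)]
      exact pow_le_pow_left₀ hz (by linarith) _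
    have h4 : 0 ≤ m ^ (2 * i) * (4 * x ^ 2) := by positivity
    linarith
  · have h3 : (z ^ (i + 1)) ^ 2 ≤ m ^ (2 * i) * (4 * x ^ 2) := by
      rw [show (z ^ (i + 1)) ^ 2 = z ^ (2 * i) * z ^ 2 by ring]
      exact mul_le_mul (pow_le_pow_left₀ hz h1 _) (by nlinarith) (by positivity) (by positivity)
    have h4 : 0 ≤ (2 * y) ^ (2 * (i + 1)) := by positivity
    linarith

/-- The mean square from the pointwise bounds. -/
lemma Mom_int {F : ℝ → ℂ} (hF : Trig F) {T Y m U y : ℝ} (hT : 0 < T) (hY : 0 < Y) (hU : 0 ≤ U)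
    (hy : 0 ≤ y) (h1 : ∀ u, ‖F u‖ ≤ m)
    (h2 : ∀ u : ℝ, |u| ≤ Y → ‖F u‖ ≤ U / ‖(1 + Complex.I * u : ℂ)‖ + y) (i : ℕ) :
    MS T Set.univ (fun u => F u ^ (i + 1)) ≤ m ^ (2 * i) * (4 * U ^ 2) * Real.pi +
      (2 * y) ^ (2 * (i + 1)) * (Real.pi * T) + (m ^ (i + 1)) ^ 2 * (2 * T ^ 2 / Y) := by
  have hm : 0 ≤ m := (norm_nonneg _).trans (h1 0)
  have hG := hF.pow (i + 1)
  have e : (Set.univ : Set ℝ) = {u | |u| ≤ Y} ∪ {u | Y < |u|} := by
    ext u
    simp [le_or_gt]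
  have m1 : MeasurableSet {u : ℝ | |u| ≤ Y} := measurableSet_le (by fun_prop) measurable_const
  have m2 : MeasurableSet {u : ℝ | Y < |u|} := measurableSet_lt measurable_const (by fun_prop)
  have p1 : MS T {u | |u| ≤ Y} (fun u => F u ^ (i + 1)) ≤
      m ^ (2 * i) * (4 * U ^ 2) * Real.pi + (2 * y) ^ (2 * (i + 1)) * (Real.pi * T) := by
    have s := PrimeHM.schur (cm T) (cm_le_volume T) (α := m ^ (2 * i) * (4 * U ^ 2))
      (β := (2 * y) ^ (2 * (i + 1))) (by positivity) 0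
    rw [Mom_mass hT] at s
    refine le_trans ?_ s
    have i1 : Integrable (fun v : ℝ => m ^ (2 * i) * (4 * U ^ 2) * (1 + (0 - v) ^ 2)⁻¹ +
        (2 * y) ^ (2 * (i + 1))) (cm T) :=
      (((integrable_inv_one_add_sq.comp_sub_left 0).mono_measure
        (cm_le_volume T)).const_mul _).add (integrable_const _)
    refine le_trans ?_ (setIntegral_le_integral (s := {u | |u| ≤ Y}) i1
      (Eventually.of_forall fun v => by positivity))
    refine setIntegral_mono_on (hG.integrable_sq _).integrableOn i1.integrableOn m1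
      fun u hu => ?_
    have h3 := Mom_pow (norm_nonneg _) (by positivity) hy (h1 u) (h2 u hu) i
    rw [div_pow, PrimeHM.norm_sq] at h3
    rw [norm_pow]
    refine h3.trans_eq ?_
    rw [zero_sub, neg_sq]
    ring
  have p2 : MS T {u | Y < |u|} (fun u => F u ^ (i + 1)) ≤ (m ^ (i + 1)) ^ 2 * (2 * T ^ 2 / Y) :=
    (MS_le_const hG T m2 fun u _ => by
      rw [norm_pow]; exact pow_le_pow_left₀ (norm_nonneg _) (h1 u) _).trans
      (mul_le_mul_of_nonneg_left (cm_tail T hY) (by positivity))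
  rw [e]
  exact (MS_union_le hG T _ _).trans (add_le_add p1 p2)

theorem mom {κ : ℝ} (hκ : 0 < κ) : ∃ c : ℝ, 0 < c ∧ c ≤ 1 ∧ ∃ j : ℕ, 1 ≤ j ∧ ∃ C : ℝ, 1 ≤ C ∧
    ∀ (N q ρ lo hi : ℕ) (U M T : ℝ), 1 ≤ N → 1 ≤ q → q ≤ lo → (N : ℝ) ^ κ ≤ U →
    (hi : ℝ) ≤ q * U → U ^ (1 - c) ≤ M → ((hi : ℝ) - lo) / q + 1 ≤ M → 0 < T →
    T ≤ (N : ℝ) ^ 2 → ∀ S : Finset ℕ, (∀ a ∈ S, lo < a ∧ a ≤ hi ∧ a % q = ρ) →
    ∀ b : ℕ → ℂ, (∀ a, ‖b a‖ ≤ 1) →
      MS T Set.univ (fun u => DP S b u ^ j) ≤ C * M ^ (2 * j) * (1 + U / M) ^ 2 := by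
  obtain ⟨K, hK⟩ := exists_nat_ge (4 / κ)
  obtain ⟨c, hc, hc1, C, hC, h⟩ := Mom_point K
  obtain ⟨i, hi'⟩ := exists_nat_ge (2 / (κ * c))
  have hπ := Real.pi_pos
  refine ⟨c / 2, by linarith, by linarith, i + 1, by omega,
    2 ^ (2 * i) * 64 * Real.pi + (2 * C) ^ (2 * (i + 1)) * Real.pi + 2 ^ (2 * (i + 1)) * 2 + 1,
    le_add_of_nonneg_left (by positivity), ?_⟩
  intro N q ρ lo hi U M T hN hq hlo hU hhi hM hM' hT hTN S hS b hb
  have N1 : (1 : ℝ) ≤ N := by exact_mod_cast hN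
  have U1 : 1 ≤ U := (Real.one_le_rpow N1 hκ.le).trans hU
  have M1 : 1 ≤ M := (Real.one_le_rpow U1 (by linarith)).trans hM
  have hq0 : (0 : ℝ) < q := by exact_mod_cast hq
  rcases S.eq_empty_or_nonempty with rfl | ⟨a0, ha0⟩
  · simp only [MS, DP, sum_empty, zero_pow (Nat.succ_ne_zero i), norm_zero, ne_eq,
      OfNat.ofNat_ne_zero, not_false_eq_true, zero_pow, integral_zero]
    positivity
  obtain ⟨a1, a2, a3⟩ := hS a0 ha0
  have hρ : ρ < q := a3 ▸ Nat.mod_lt _ hq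
  have hlo1 : 1 ≤ lo / q := (Nat.le_div_iff_mul_le hq).2 (by omega)
  have hk : lo / q ≤ hi / q := Nat.div_le_div_right (by omega)
  have hk1 : ((hi / q : ℕ) : ℝ) ≤ hi / q := Nat.cast_div_le
  have hk2 : (hi : ℝ) / q ≤ U := by rw [div_le_iff₀ hq0]; linarith
  have hk0 : (lo : ℝ) / q ≤ ((lo / q : ℕ) : ℝ) + 1 := by
    rw [div_le_iff₀ hq0, mul_comm]
    exact_mod_cast (Nat.lt_mul_div_succ lo hq).le
  set S0 : Finset ℕ := (Ioc (lo / q - 1) (hi / q)).image fun k => q * k + ρ with hS0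
  have hsub : S ⊆ S0 := fun a ha => by
    obtain ⟨b1, b2, b3⟩ := hS a ha
    have c1 : lo / q ≤ a / q := Nat.div_le_div_right b1.le
    have c2 : a / q ≤ hi / q := Nat.div_le_div_right b2
    exact mem_image.2 ⟨a / q, mem_Ioc.2 ⟨by omega, c2⟩, b3 ▸ Nat.div_add_mod a q⟩
  have hne : ∀ a ∈ S0, a ≠ 0 := fun a ha => by
    obtain ⟨k, hk', rfl⟩ := mem_image.1 ha
    have : 0 < q * k := Nat.mul_pos hq ((Nat.zero_le _).trans_lt (mem_Ioc.1 hk').1)
    omega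
  have hcard : (S0.card : ℝ) ≤ 2 * M := by
    have c1 : S0.card + lo / q ≤ hi / q + 1 := by
      have := card_image_le (s := Ioc (lo / q - 1) (hi / q)) (f := fun k => q * k + ρ)
      rw [Nat.card_Ioc, ← hS0] at this
      omega
    have c2 : (S0.card : ℝ) + (lo / q : ℕ) ≤ (hi / q : ℕ) + 1 := by exact_mod_cast c1
    rw [sub_div] at hM'
    linarith
  refine (Mom_major hsub hne hb _ hT).trans ((Mom_int (Trig.DP _ _) hT (Y := U ^ K) (m := 2 * M)
    (U := 4 * U) (y := C * U ^ (1 - c)) (by positivity) (by positivity) (by positivity)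
    (fun u => (norm_DP_le_card _ (by simp) u).trans hcard)
    (fun u hu => h q ρ _ _ U U1 hq hρ.le (by omega) (hk1.trans hk2) u hu) i).trans ?_)
  have pw : ∀ x r : ℝ, 0 ≤ x → r ≤ κ * x → (N : ℝ) ^ r ≤ U ^ x := fun x r hx hr =>
    (Real.rpow_le_rpow_of_exponent_le N1 hr).trans (by
      rw [Real.rpow_mul (by linarith)]
      exact Real.rpow_le_rpow (by positivity) hU hx)
  have t3 : 2 * T ^ 2 / U ^ K ≤ 2 := by
    have h1 := pw K 4 (Nat.cast_nonneg K) (by rw [div_le_iff₀ hκ] at hK; linarith)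
    rw [Real.rpow_natCast, show (4 : ℝ) = ((4 : ℕ) : ℝ) by norm_num, Real.rpow_natCast] at h1
    rw [div_le_iff₀ (by positivity)]
    have h2 : T ^ 2 ≤ ((N : ℝ) ^ 2) ^ 2 := pow_le_pow_left₀ hT.le hTN 2
    nlinarith
  have t2 : (U ^ (1 - c)) ^ (2 * (i + 1)) * T ≤ M ^ (2 * (i + 1)) := by
    have h1 := pw (c * (i + 1)) 2 (by positivity) (by
      rw [div_le_iff₀ (by positivity)] at hi'
      nlinarith [mul_pos hκ hc])
    rw [show (2 : ℝ) = ((2 : ℕ) : ℝ) by norm_num, Real.rpow_natCast] at h1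
    refine (mul_le_mul_of_nonneg_left (hTN.trans h1) (by positivity)).trans
      (le_trans (le_of_eq ?_) (pow_le_pow_left₀ (by positivity) hM _))
    rw [← Real.rpow_natCast, ← Real.rpow_natCast, ← Real.rpow_mul (by linarith),
      ← Real.rpow_mul (by linarith), ← Real.rpow_add (by linarith)]
    congr 1
    push_cast
    ring
  have M0 : 0 < M := by linarith
  have r0 : 0 ≤ U / M := by positivity
  have t1 : M ^ (2 * i) * U ^ 2 ≤ M ^ (2 * (i + 1)) * (1 + U / M) ^ 2 := by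
    have e : M ^ (2 * i) * U ^ 2 = M ^ (2 * (i + 1)) * (U / M) ^ 2 := by
      field_simp
      ring
    rw [e]
    exact mul_le_mul_of_nonneg_left (pow_le_pow_left₀ r0 (by linarith) 2) (by positivity)
  have t0 : M ^ (2 * (i + 1)) ≤ M ^ (2 * (i + 1)) * (1 + U / M) ^ 2 :=
    le_mul_of_one_le_right (by positivity) (one_le_pow₀ (by linarith))
  have t4 : 0 ≤ M ^ (2 * (i + 1)) * (1 + U / M) ^ 2 := by positivity
  rw [mul_assoc _ (M ^ (2 * (i + 1)))]
  generalize M ^ (2 * (i + 1)) * (1 + U / M) ^ 2 = W at *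
  have s1 : (2 * M) ^ (2 * i) * (4 * (4 * U) ^ 2) * Real.pi ≤ 2 ^ (2 * i) * 64 * Real.pi * W :=
    le_trans (le_of_eq (by rw [mul_pow]; ring))
      (mul_le_mul_of_nonneg_left t1 (by positivity))
  have s2 : (2 * (C * U ^ (1 - c))) ^ (2 * (i + 1)) * (Real.pi * T) ≤
      (2 * C) ^ (2 * (i + 1)) * Real.pi * W :=
    le_trans (le_of_eq (by rw [← mul_assoc 2 C, mul_pow (2 * C)]; ring))
      (mul_le_mul_of_nonneg_left (t2.trans t0) (by positivity))
  have s3 : ((2 * M) ^ (i + 1)) ^ 2 * (2 * T ^ 2 / U ^ K) ≤ 2 ^ (2 * (i + 1)) * 2 * W :=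
    (mul_le_mul_of_nonneg_left t3 (by positivity)).trans
      (le_trans (le_of_eq (by rw [← pow_mul, mul_comm (i + 1), mul_pow]; ring))
        (mul_le_mul_of_nonneg_left t0 (by positivity)))
  linarith

end Pool.Agent.Work.MP_51e72e_nt.AV
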