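import Pool.Agent.Work.MP_51e72e_nt.AV.MinA
import Pool.Agent.Work.MP_51e72e_nt.AV.Mom

-- merged part: Pool.Agent.Work.MP_51e72e_nt.AV.MajA
section
/-! Major arcs: from a window to the exponential kernel. -/

set_option autoImplicit false
open Finset Filter MeasureTheory Pool.Agent.Lib.MR Pool.Agent.Lib.LargeSieve
open Pool.Agent.Work.MP_678620_nt

namespace Pool.Agent.Work.MP_51e72e_nt.AV

/-- The normalising factor. -/
noncomputable def nu (τ : ℝ) (D : ℕ) : ℝ :=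
  (∑ d ∈ Icc (-(D : ℤ)) D, Real.exp (-(τ * |(d : ℝ)|)))⁻¹

theorem nu_le {τ : ℝ} {D : ℕ} (hτ : 0 < τ) (h : 1 ≤ τ * D) : 0 ≤ nu τ D ∧ nu τ D ≤ 3 * τ := by
  refine ⟨inv_nonneg.2 (sum_nonneg fun _ _ => (Real.exp_pos _).le), ?_⟩
  have k1 : (⌊τ⁻¹⌋₊ : ℝ) ≤ τ⁻¹ := Nat.floor_le (inv_pos.2 hτ).le
  have k2 : τ⁻¹ < (⌊τ⁻¹⌋₊ : ℝ) + 1 := Nat.lt_floor_add_one _
  generalize ⌊τ⁻¹⌋₊ = k at k1 k2
  have k3 : τ * k ≤ 1 := by
    have := mul_le_mul_of_nonneg_left k1 hτ.le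
    rwa [mul_inv_cancel₀ hτ.ne'] at this
  have k4 : (k : ℤ) ≤ D := by
    have : (k : ℝ) ≤ D := le_of_mul_le_mul_left (k3.trans h) hτ
    exact_mod_cast this
  have k5 : (3 : ℝ)⁻¹ ≤ Real.exp (-1) := by
    rw [Real.exp_neg]
    exact inv_anti₀ (Real.exp_pos _) (Real.exp_one_lt_d9.le.trans (by norm_num))
  have k6 : ∑ _d ∈ Icc (0 : ℤ) k, (3 : ℝ)⁻¹ ≤
      ∑ d ∈ Icc (-(D : ℤ)) D, Real.exp (-(τ * |(d : ℝ)|)) := by
    refine le_trans (sum_le_sum fun d hd => ?_) (sum_le_sum_of_subset_of_nonneg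
      (Icc_subset_Icc (by omega) k4) fun _ _ _ => (Real.exp_pos _).le)
    obtain ⟨d0, d1⟩ := mem_Icc.1 hd
    have e0 : (0 : ℝ) ≤ d := by exact_mod_cast d0
    have e1 : (d : ℝ) ≤ k := by exact_mod_cast d1
    refine k5.trans (Real.exp_le_exp.2 ?_)
    rw [abs_of_nonneg e0]
    linarith only [k3, e1, hτ, mul_le_mul_of_nonneg_left e1 hτ.le]
  rw [sum_const, Int.card_Icc, nsmul_eq_mul,
    show ((k : ℤ) + 1 - 0).toNat = k + 1 by omega] at k6
  push_cast at k6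
  rw [nu]
  refine inv_le_of_inv_le₀ (by positivity) (le_trans ?_ k6)
  rw [mul_inv]
  linarith only [k2]

theorem MajA_range {E : Type*} [AddCommMonoid E] (φ : ℤ → E) (a : ℤ) (L : ℕ) :
    ∑ j ∈ Ioc a (a + L), φ j = ∑ i ∈ range L, φ (a + 1 + i) := by
  rw [Int.Ioc_eq_finset_map, sum_map, add_sub_cancel_left, Int.toNat_natCast]
  rfl

theorem MajA_step (f : ℤ → ℂ) {g β : ℝ} (a : ℤ) (L : ℕ)
    (hf : ∀ j, a < j → j ≤ a + L + 1 → ‖f j‖ ≤ g) :
    ‖∑ j ∈ Ioc a (a + L), f (j + 1) * ee (-(j * β)) - ∑ j ∈ Ioc a (a + L), f j * ee (-(j * β))‖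
      ≤ g * (2 + L * (2 * Real.pi * |β|)) := by
  have tel : ∑ j ∈ Ioc a (a + L), (f (j + 1) * ee (-((j + 1 : ℤ) * β)) - f j * ee (-(j * β))) =
      f (a + 1 + L) * ee (-((a + 1 + L : ℤ) * β)) - f (a + 1) * ee (-((a + 1 : ℤ) * β)) := by
    have := sum_range_sub (fun i : ℕ => f (a + 1 + i) * ee (-((a + 1 + i : ℤ) * β))) L
    simp only [Nat.cast_add, Nat.cast_one, ← add_assoc, Nat.cast_zero, add_zero] at this
    rw [MajA_range, this]
  have e : ∑ j ∈ Ioc a (a + L), f (j + 1) * ee (-(j * β)) -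
      ∑ j ∈ Ioc a (a + L), f j * ee (-(j * β)) =
      (f (a + 1 + L) * ee (-((a + 1 + L : ℤ) * β)) - f (a + 1) * ee (-((a + 1 : ℤ) * β))) +
        ∑ j ∈ Ioc a (a + L), f (j + 1) * ee (-((j + 1 : ℤ) * β)) * (ee β - 1) := by
    rw [← tel, ← sum_sub_distrib, ← sum_add_distrib]
    refine sum_congr rfl fun j _ => ?_
    have : ee (-(j * β)) = ee (-((j + 1 : ℤ) * β)) * ee β := by
      rw [← ee_add]; congr 1; push_cast; ring
    rw [this]; ring
  have b1 : ‖ee β - 1‖ ≤ 2 * Real.pi * |β| := by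
    refine Real.norm_exp_I_mul_ofReal_sub_one_le.trans_eq ?_
    rw [Real.norm_eq_abs, abs_mul, abs_of_pos Real.two_pi_pos]
  have b2 : ‖∑ j ∈ Ioc a (a + L), f (j + 1) * ee (-((j + 1 : ℤ) * β)) * (ee β - 1)‖ ≤
      L * (g * (2 * Real.pi * |β|)) := by
    refine (norm_sum_le _ _).trans ((sum_le_card_nsmul _ _ (g * (2 * Real.pi * |β|))
      fun j hj => ?_).trans_eq ?_)
    · obtain ⟨j0, j1⟩ := mem_Ioc.1 hj
      have := hf (j + 1) (by omega) (by omega)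
      rw [norm_mul, norm_mul, norm_ee, mul_one]
      exact mul_le_mul this b1 (norm_nonneg _) ((norm_nonneg _).trans this)
    · rw [Int.card_Ioc, add_sub_cancel_left, Int.toNat_natCast, nsmul_eq_mul]
  have b3 := norm_sub_le (f (a + 1 + L) * ee (-((a + 1 + L : ℤ) * β)))
    (f (a + 1) * ee (-((a + 1 : ℤ) * β)))
  rw [norm_mul, norm_mul, norm_ee, norm_ee, mul_one, mul_one] at b3
  have b4 := hf (a + 1 + L) (by omega) (by omega)
  have b5 := hf (a + 1) (by omega) (by omega)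
  rw [e]
  refine (norm_add_le _ _).trans ?_
  linarith only [b2, b3, b4, b5]

theorem MajA_walk (u : ℤ → ℂ) {c : ℝ} {D : ℤ} (h : ∀ d, -D ≤ d → d < D → ‖u (d + 1) - u d‖ ≤ c)
    (d : ℤ) : -D ≤ d → d ≤ D → ‖u d - u 0‖ ≤ c * |(d : ℝ)| := by
  induction d using Int.induction_on with
  | zero => intro _ _; simp
  | succ i ih =>
    intro h1 h2
    have a1 := ih (by omega) (by omega)
    have a2 := h i (by omega) (by omega)
    have a3 := norm_sub_le_norm_sub_add_norm_sub (u (i + 1)) (u i) (u 0)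
    have i0 : (0 : ℝ) ≤ i := Nat.cast_nonneg i
    push_cast at a1 ⊢
    rw [abs_of_nonneg i0] at a1
    rw [abs_of_nonneg (by linarith)]
    linarith
  | pred i ih =>
    intro h1 h2
    have a1 := ih (by omega) (by omega)
    have a2 := h (-i - 1) (by omega) (by omega)
    have a3 := norm_sub_le_norm_sub_add_norm_sub (u (-i - 1)) (u (-i)) (u 0)
    have i0 : (0 : ℝ) ≤ i := Nat.cast_nonneg i
    rw [sub_add_cancel, norm_sub_rev] at a2
    push_cast at a1 ⊢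
    rw [abs_of_nonpos (by linarith)] at a1
    rw [abs_of_nonpos (by linarith)]
    linarith

theorem MajA_log {m x₀ η a t : ℝ} (hm : 0 < m) (h1 : m ≤ x₀) (h2 : x₀ ≤ m * (1 + η))
    (h3 : 2 * a ≤ η * m) (h4 : η ≤ 1 / 2) (ht : |t| ≤ a) :
    |x₀ * (Real.log (m + t) - Real.log m) - t| ≤ 2 * η * a := by
  obtain ⟨t1, t2⟩ := abs_le.1 ht
  have a0 : 0 ≤ a := (abs_nonneg t).trans ht
  have η0 : 0 ≤ η := by
    by_contra hc
    linarith only [h1, h2, hc, hm, mul_neg_of_neg_of_pos (not_le.1 hc) hm]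
  have a1 : 4 * a ≤ m := by linarith only [h3, h4, hm, mul_le_mul_of_nonneg_right h4 hm.le]
  have p0 : 0 < m + t := by linarith only [hm, t1, a1]
  have u1 : m * (Real.log (m + t) - Real.log m) ≤ t := by
    have := Real.log_le_sub_one_of_pos (div_pos p0 hm)
    rw [Real.log_div p0.ne' hm.ne'] at this
    refine (mul_le_mul_of_nonneg_left this hm.le).trans_eq ?_
    field_simp
    ring
  have u2 : t ≤ (m + t) * (Real.log (m + t) - Real.log m) := by
    have := Real.log_le_sub_one_of_pos (div_pos hm p0)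
    rw [Real.log_div hm.ne' p0.ne'] at this
    have h := mul_le_mul_of_nonneg_left this p0.le
    have e : (m + t) * (m / (m + t) - 1) = -t := by
      field_simp
      ring
    linarith only [h, e]
  generalize Real.log (m + t) - Real.log m = L at u1 u2
  have ηa := mul_nonneg η0 a0
  rcases le_total 0 L with hL | hL
  · have v1 : x₀ * L ≤ m * (1 + η) * L := mul_le_mul_of_nonneg_right h2 hL
    have v2 : η * (m * L) ≤ η * a := mul_le_mul_of_nonneg_left (u1.trans t2) η0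
    have v3 : m * L ≤ x₀ * L := mul_le_mul_of_nonneg_right h1 hL
    have v4 : t * L ≤ η * m * L := mul_le_mul_of_nonneg_right (by linarith only [h1, h2, h3, t2]) hL
    exact abs_le.2 ⟨by linarith only [u2, ηa, v2, v3, v4], by linarith only [u1, ηa, v1, v2]⟩
  · have v1 : x₀ * L ≤ m * L := mul_le_mul_of_nonpos_right h1 hL
    have v2 : (m + t) * L ≤ 3 / 4 * m * L := mul_le_mul_of_nonpos_right (by linarith only [t1, a1]) hL
    have v3 : (m + t + 3 / 2 * (η * m)) * L ≤ x₀ * L :=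
      mul_le_mul_of_nonpos_right (by linarith only [h2, h3, t1]) hL
    have v4 : η * (-(4 / 3 * a)) ≤ η * (m * L) := mul_le_mul_of_nonneg_left (by linarith only [t1, u2, v2]) η0
    exact abs_le.2 ⟨by linarith only [u2, v3, v4], by linarith only [u1, ηa, v1]⟩

theorem MajA_sum {τ : ℝ} (D : ℕ) :
    nu τ D * ∑ d ∈ Icc (-(D : ℤ)) D, Real.exp (-(τ * |(d : ℝ)|)) = 1 :=
  inv_mul_cancel₀ (sum_pos (fun _ _ => Real.exp_pos _) ⟨0, mem_Icc.2 ⟨by omega, by omega⟩⟩).ne'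

/-- One value of `j`. -/
theorem MajA_one {D Y : ℕ} {τ e g : ℝ} {c : ℤ} (G : ℤ → ℂ) (p : ℤ → ℝ) (hτ : 0 < τ)
    (h5 : 1 ≤ τ * D) (he : e ≤ 1 / 2) (hc : 1 ≤ c - D) (hc' : c + D ≤ Y)
    (hp : ∀ d : ℤ, -(D : ℤ) ≤ d → d ≤ D → |p (c + d) - τ * d| ≤ e)
    (hm : ∀ n n' : ℤ, 1 ≤ n → n ≤ n' → p n ≤ p n') (hG : ∀ n : ℤ, 1 ≤ n → n ≤ Y → ‖G n‖ ≤ g) :
    ‖(nu τ D : ℂ) * (∑ d ∈ Icc (-(D : ℤ)) D, G (c + d) * (Real.exp (-(τ * |(d : ℝ)|)) : ℝ) -
      ∑ n ∈ Icc 1 Y, G n * (Real.exp (-|p n|) : ℝ))‖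
      ≤ g * (2 * e + 3 * τ * Y * Real.exp (-(τ * D / 2))) := by
  obtain ⟨n0, n1⟩ := nu_le hτ h5
  have g0 : 0 ≤ g := (norm_nonneg _).trans (hG 1 le_rfl (by omega))
  have s1 : ∑ n ∈ Icc 1 Y, G n * (Real.exp (-|p n|) : ℝ) =
      ∑ n ∈ Icc (1 : ℤ) Y, G n * (Real.exp (-|p n|) : ℝ) := by
    refine sum_bij (fun n _ => (n : ℤ)) (fun n hn => ?_) (fun _ _ _ _ h => Int.natCast_inj.1 h)
      (fun n hn => ⟨n.toNat, ?_, ?_⟩) fun _ _ => rfl
    · rw [mem_Icc] at hn ⊢; omega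
    · rw [mem_Icc] at hn ⊢; omega
    · rw [mem_Icc] at hn; omega
  have s2 : ∑ n ∈ Icc (c - D) (c + D), G n * (Real.exp (-|p n|) : ℝ) =
      ∑ d ∈ Icc (-(D : ℤ)) D, G (c + d) * (Real.exp (-|p (c + d)|) : ℝ) := by
    rw [sub_eq_add_neg, ← map_add_left_Icc, sum_map]
    rfl
  have s3 : Icc (c - D) (c + D) ⊆ Icc (1 : ℤ) Y := Icc_subset_Icc hc hc'
  have b1 : ‖∑ d ∈ Icc (-(D : ℤ)) D, (G (c + d) * (Real.exp (-(τ * |(d : ℝ)|)) : ℝ) -
      G (c + d) * (Real.exp (-|p (c + d)|) : ℝ))‖ ≤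
      g * (2 * e) * ∑ d ∈ Icc (-(D : ℤ)) D, Real.exp (-(τ * |(d : ℝ)|)) := by
    rw [mul_sum]
    refine (norm_sum_le _ _).trans (sum_le_sum fun d hd => ?_)
    obtain ⟨d0, d1⟩ := mem_Icc.1 hd
    have a1 : abs (τ * |(d : ℝ)| - |p (c + d)|) ≤ e := by
      have := abs_abs_sub_abs_le_abs_sub (τ * d) (p (c + d))
      rw [abs_mul, abs_of_pos hτ, abs_sub_comm (τ * d)] at this
      exact this.trans (hp d d0 d1)
    have a2 := Real.abs_exp_sub_one_le (a1.trans (by linarith only [he]))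
    have a3 : Real.exp (-|p (c + d)|) - Real.exp (-(τ * |(d : ℝ)|)) =
        (Real.exp (τ * |(d : ℝ)| - |p (c + d)|) - 1) * Real.exp (-(τ * |(d : ℝ)|)) := by
      rw [sub_mul, ← Real.exp_add, one_mul]
      congr 2
      ring
    rw [← mul_sub, norm_mul, ← Complex.ofReal_sub, Complex.norm_real, Real.norm_eq_abs,
      abs_sub_comm, a3, abs_mul, Real.abs_exp, mul_assoc]
    exact mul_le_mul (hG _ (by omega) (by omega))
      (mul_le_mul_of_nonneg_right (by linarith only [a1, a2]) (Real.exp_pos _).le) (by positivity) g0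
  have b2 : ‖∑ n ∈ Icc (1 : ℤ) Y \ Icc (c - D) (c + D), G n * (Real.exp (-|p n|) : ℝ)‖ ≤
      Y * (g * Real.exp (-(τ * D / 2))) := by
    refine (norm_sum_le _ _).trans ((sum_le_card_nsmul _ _ (g * Real.exp (-(τ * D / 2)))
      fun n hn => ?_).trans ?_)
    · obtain ⟨m1, m2⟩ := mem_sdiff.1 hn
      rw [mem_Icc] at m1 m2
      rw [norm_mul, Complex.norm_real, Real.norm_eq_abs, Real.abs_exp]
      refine mul_le_mul (hG n m1.1 m1.2) (Real.exp_le_exp.2 (neg_le_neg ?_))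
        (Real.exp_pos _).le g0
      rcases le_total n c with hn' | hn'
      · have a1 := abs_le.1 (hp (-D) le_rfl (by omega))
        have a2 := hm n (c + -D) m1.1 (by omega)
        push_cast at a1
        exact le_abs.2 (Or.inr (by linarith only [h5, he, a2, a1, a1.2]))
      · have a1 := abs_le.1 (hp D (by omega) le_rfl)
        have a2 := hm (c + D) n (by omega) (by omega)
        push_cast at a1
        exact le_abs.2 (Or.inl (by linarith only [h5, he, a2, a1, a1.1]))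
    · rw [nsmul_eq_mul]
      refine mul_le_mul_of_nonneg_right ?_ (by positivity)
      have := card_le_card (sdiff_subset (s := Icc (1 : ℤ) Y) (t := Icc (c - D) (c + D)))
      rw [Int.card_Icc] at this
      exact_mod_cast this.trans (by omega)
  rw [s1, ← sum_sdiff s3, s2, add_comm, ← sub_sub, ← sum_sub_distrib, norm_mul, Complex.norm_real,
    Real.norm_eq_abs, abs_of_nonneg n0]
  refine (mul_le_mul_of_nonneg_left ((norm_sub_le _ _).trans (add_le_add b1 b2)) n0).trans ?_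
  have b3 : nu τ D * (Y * (g * Real.exp (-(τ * D / 2)))) ≤
      3 * τ * (Y * (g * Real.exp (-(τ * D / 2)))) :=
    mul_le_mul_of_nonneg_right n1 (by positivity)
  rw [mul_add, mul_left_comm, MajA_sum]
  linarith only [b3]

theorem majA {m H D Y : ℕ} {x₀ η T β g : ℝ} {j₁ : ℤ} (G : ℤ → ℂ) (hT : 0 < T) (hH : 1 ≤ H)
    (h1 : (m : ℝ) ≤ x₀) (h2 : x₀ ≤ m * (1 + η)) (h3 : (8 : ℝ) * H ≤ η * m) (h4 : η ≤ 1 / 2)
    (hY : m + 4 * H ≤ Y) (hD : D ≤ H) (h5 : 1 ≤ T / x₀ * D) (h6 : 16 * (T / x₀) * η * H ≤ 1)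
    (hj : -(2 * (H : ℤ)) ≤ j₁) (hj' : j₁ ≤ 0) (hG : ∀ n : ℤ, 1 ≤ n → n ≤ Y → ‖G n‖ ≤ g) :
    ‖∑ j ∈ Ioc j₁ (j₁ + 3 * H), G (m + j) * ee (-(j * β)) -
      (nu (T / x₀) D : ℂ) * ∑ j ∈ Ioc j₁ (j₁ + 3 * H), ee (-(j * β)) * ∑ n ∈ Icc 1 Y,
        G n * ((Real.exp (-(T * |Real.log n - Real.log m - j / x₀|)) : ℝ) : ℂ)‖
      ≤ g * (D * (2 + 19 * (|β| * H)) + 3 * H * (16 * (T / x₀) * η * H +
        3 * (T / x₀) * Y * Real.exp (-(T / x₀ * D / 2)))) := by
  have H1 : (1 : ℝ) ≤ H := by exact_mod_cast hH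
  have m0 : (0 : ℝ) ≤ m := Nat.cast_nonneg m
  have m1 : (16 : ℝ) * H ≤ m := by linarith only [h3, h4, m0, mul_le_mul_of_nonneg_right h4 m0]
  have m2 : 16 * H ≤ m := by exact_mod_cast m1
  have m3 : (0 : ℝ) < m := by linarith only [H1, m1]
  have x0 : 0 < x₀ := by linarith only [h1, H1, m1]
  have hτ : 0 < T / x₀ := div_pos hT x0
  have g0 : 0 ≤ g := (norm_nonneg _).trans (hG 1 le_rfl (by omega))
  obtain ⟨n0, -⟩ := nu_le hτ h5
  have e3 : j₁ + 3 * (H : ℤ) = j₁ + (3 * H : ℕ) := by push_cast; rfl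
  have ha : ∀ d : ℤ, -(D : ℤ) ≤ d → d ≤ D →
      ‖∑ j ∈ Ioc j₁ (j₁ + 3 * H), G (m + j) * ee (-(j * β)) -
        ∑ j ∈ Ioc j₁ (j₁ + 3 * H), G (m + j + d) * ee (-(j * β))‖ ≤
        g * (D * (2 + 19 * (|β| * H))) := by
    intro d d0 d1
    have w := MajA_walk (fun d => ∑ j ∈ Ioc j₁ (j₁ + 3 * H), G (m + j + d) * ee (-(j * β)))
      (c := g * (2 + 19 * (|β| * H))) (D := D) (fun d d0 d1 => by
        have := MajA_step (fun j => G (m + j + d)) (g := g) (β := β) j₁ (3 * H)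
          fun j j0 j1 => hG _ (by omega) (by omega)
        simp only [show ∀ j : ℤ, (m : ℤ) + (j + 1) + d = m + j + (d + 1) from fun j => by ring]
          at this
        rw [e3]
        refine this.trans (mul_le_mul_of_nonneg_left ?_ g0)
        have := mul_le_mul_of_nonneg_right Real.pi_lt_d2.le
          (mul_nonneg (abs_nonneg β) (Nat.cast_nonneg (α := ℝ) H))
        push_cast
        linarith only [this, mul_nonneg (abs_nonneg β) (Nat.cast_nonneg (α := ℝ) H)]) d d0 d1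
    simp only [add_zero] at w
    have : |(d : ℝ)| ≤ D := abs_le.2 ⟨by exact_mod_cast d0, by exact_mod_cast d1⟩
    rw [norm_sub_rev]
    exact w.trans ((mul_le_mul_of_nonneg_left this (by positivity)).trans_eq (by ring))
  have hb : ∀ j ∈ Ioc j₁ (j₁ + 3 * H), ‖(nu (T / x₀) D : ℂ) *
      (∑ d ∈ Icc (-(D : ℤ)) D, G (m + j + d) * (Real.exp (-(T / x₀ * |(d : ℝ)|)) : ℝ) -
        ∑ n ∈ Icc 1 Y, G n * (Real.exp (-(T * |Real.log n - Real.log m - j / x₀|)) : ℝ))‖ ≤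
      g * (16 * (T / x₀) * η * H + 3 * (T / x₀) * Y * Real.exp (-(T / x₀ * D / 2))) := by
    intro j hj2
    obtain ⟨j0, j1⟩ := mem_Ioc.1 hj2
    have := MajA_one (D := D) (Y := Y) (e := 8 * (T / x₀) * η * H) (g := g) (c := m + j) G
      (fun n => T * (Real.log n - Real.log m - j / x₀)) hτ h5 (by linarith only [h6]) (by omega) (by omega)
      (fun d d0 d1 => ?_) (fun n n' a b => ?_) hG
    · simp only [abs_mul, abs_of_pos hT, Int.cast_natCast] at this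
      exact this.trans_eq (by ring)
    · have t1 : |(j : ℝ) + d| ≤ 4 * H := by
        have : |j + d| ≤ 4 * (H : ℤ) := abs_le.2 ⟨by omega, by omega⟩
        exact_mod_cast this
      have t2 := MajA_log m3 h1 h2 (by linarith only [h3]) h4 t1
      have e : T * (Real.log ((m + j + d : ℤ) : ℝ) - Real.log m - j / x₀) - T / x₀ * d =
          T / x₀ * (x₀ * (Real.log (m + (j + d)) - Real.log m) - (j + d)) := by
        push_cast
        rw [add_assoc]
        field_simp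
        ring
      rw [e, abs_mul, abs_of_pos hτ]
      exact (mul_le_mul_of_nonneg_left t2 hτ.le).trans_eq (by ring)
    · have a' : (1 : ℝ) ≤ n := by exact_mod_cast a
      have b' : (n : ℝ) ≤ n' := by exact_mod_cast b
      exact mul_le_mul_of_nonneg_left
        (by linarith only [a', b', Real.log_le_log (by linarith) b']) hT.le
  have one : (nu (T / x₀) D : ℂ) *
      ∑ d ∈ Icc (-(D : ℤ)) D, ((Real.exp (-(T / x₀ * |(d : ℝ)|)) : ℝ) : ℂ) = 1 := by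
    rw [← Complex.ofReal_sum, ← Complex.ofReal_mul, MajA_sum, Complex.ofReal_one]
  have key : ∀ (W I : Finset ℤ) (ν : ℂ) (w e B : ℤ → ℂ), ν * ∑ d ∈ I, w d = 1 →
      ∑ j ∈ W, G (m + j) * e j - ν * ∑ j ∈ W, e j * B j =
        ν * ∑ d ∈ I, w d * (∑ j ∈ W, G (m + j) * e j - ∑ j ∈ W, G (m + j + d) * e j) +
          ∑ j ∈ W, e j * (ν * (∑ d ∈ I, G (m + j + d) * w d - B j)) := by
    intro W I ν w e B h
    have a1 : ∑ d ∈ I, w d * ∑ j ∈ W, G (m + j + d) * e j =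
        ∑ j ∈ W, e j * ∑ d ∈ I, G (m + j + d) * w d := by
      simp only [mul_sum]
      rw [sum_comm]
      exact sum_congr rfl fun _ _ => sum_congr rfl fun _ _ => by ring
    have a2 : ∑ j ∈ W, e j * (ν * (∑ d ∈ I, G (m + j + d) * w d - B j)) =
        ν * (∑ j ∈ W, e j * ∑ d ∈ I, G (m + j + d) * w d - ∑ j ∈ W, e j * B j) := by
      rw [← sum_sub_distrib, mul_sum]
      exact sum_congr rfl fun _ _ => by ring
    simp only [mul_sub (w _), sum_sub_distrib]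
    rw [a1, a2, ← sum_mul]
    linear_combination (-∑ j ∈ W, G (m + j) * e j) * h
  rw [key _ _ _ _ _ _ one, mul_add]
  refine (norm_add_le _ _).trans (add_le_add ?_ ?_)
  · rw [norm_mul, Complex.norm_real, Real.norm_eq_abs, abs_of_nonneg n0]
    refine (mul_le_mul_of_nonneg_left ((norm_sum_le _ _).trans (sum_le_sum (g := fun d : ℤ =>
      Real.exp (-(T / x₀ * |(d : ℝ)|)) * (g * (D * (2 + 19 * (|β| * H))))) fun d hd => ?_))
      n0).trans_eq ?_
    · rw [norm_mul, Complex.norm_real, Real.norm_eq_abs, Real.abs_exp]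
      exact mul_le_mul_of_nonneg_left (ha d (mem_Icc.1 hd).1 (mem_Icc.1 hd).2) (Real.exp_pos _).le
    · rw [← sum_mul, ← mul_assoc, MajA_sum, one_mul]
  · refine (norm_sum_le _ _).trans ((sum_le_card_nsmul _ _ _ fun j hj2 => ?_).trans_eq
      (b := (Ioc j₁ (j₁ + 3 * H)).card • (g * (16 * (T / x₀) * η * H +
        3 * (T / x₀) * Y * Real.exp (-(T / x₀ * D / 2))))) ?_)
    · rw [norm_mul, norm_ee, one_mul]
      exact hb j hj2
    · rw [e3, Int.card_Ioc, add_sub_cancel_left, Int.toNat_natCast, nsmul_eq_mul]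
      push_cast
      ring

end Pool.Agent.Work.MP_51e72e_nt.AV
end

-- merged part: Pool.Agent.Work.MP_51e72e_nt.AV.MajB
section
/-! Major arcs: the integral of three Dirichlet polynomials. -/

set_option autoImplicit false
open Finset Filter MeasureTheory Pool.Agent.Lib.MR Pool.Agent.Lib.LargeSieve
open Pool.Agent.Work.MP_678620_nt

namespace Pool.Agent.Work.MP_51e72e_nt.AV

theorem mellin (A S : Finset ℕ) (hA : ∀ a ∈ A, 1 ≤ a) (hS : ∀ n ∈ S, 1 ≤ n) (Y : ℕ)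
    (b g G : ℕ → ℂ) {T : ℝ} (hT : 0 < T) (s : ℝ) :
    ‖∑ a ∈ A, ∑ n ∈ S, b a * g n * ∑ m ∈ Icc 1 Y,
        G m * ((Real.exp (-(T * |Real.log m - Real.log (a * n : ℕ) - s|)) : ℝ) : ℂ)‖
      ≤ (Real.pi * T)⁻¹ * ∫ u, ‖DP (Icc 1 Y) G u‖ * ‖DP A (fun a => (starRingEnd ℂ) (b a)) u‖ *
          ‖DP S (fun n => (starRingEnd ℂ) (g n)) u‖ ∂(cm T) := by
  have hE : ∀ x : ℝ, Trig fun u => Complex.exp (Complex.I * ((u * x : ℝ) : ℂ)) := fun x =>
    ⟨by fun_prop, 1, fun u => by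
      beta_reduce; rw [mul_comm, Complex.norm_exp_ofReal_mul_I]⟩
  have hp : 0 < Real.pi * T := mul_pos Real.pi_pos hT
  have h1 : ∫ u, ∑ a ∈ A, ∑ n ∈ S, b a * g n * ∑ m ∈ Icc 1 Y, G m *
      Complex.exp (Complex.I * ((u * (Real.log m - Real.log (a * n : ℕ) - s) : ℝ) : ℂ)) ∂(cm T) =
      ((Real.pi * T : ℝ) : ℂ) * ∑ a ∈ A, ∑ n ∈ S, b a * g n * ∑ m ∈ Icc 1 Y,
        G m * ((Real.exp (-(T * |Real.log m - Real.log (a * n : ℕ) - s|)) : ℝ) : ℂ) := by
    rw [integral_finsetSum _ fun a _ => (Trig.sum fun n _ => (Trig.const _).mul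
      (Trig.sum fun m _ => (Trig.const _).mul (hE _))).integrable _, mul_sum]
    refine sum_congr rfl fun a _ => ?_
    rw [integral_finsetSum _ fun n _ => ((Trig.const _).mul
      (Trig.sum fun m _ => (Trig.const _).mul (hE _))).integrable _, mul_sum]
    refine sum_congr rfl fun n _ => ?_
    rw [integral_const_mul, integral_finsetSum _ fun m _ =>
      ((Trig.const _).mul (hE _)).integrable _, mul_left_comm, mul_sum _ _ ((_ : ℝ) : ℂ)]
    refine congrArg _ (sum_congr rfl fun m _ => ?_)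
    rw [integral_const_mul, integral_cm_exp hT, Complex.ofReal_mul (Real.pi * T), mul_left_comm]
  rw [le_inv_mul_iff₀ hp, ← abs_of_pos hp, ← Real.norm_eq_abs, ← Complex.norm_real, ← norm_mul,
    ← h1]
  refine (norm_integral_le_integral_norm _).trans (le_of_eq (integral_congr_ae
    (Eventually.of_forall fun u => ?_)))
  have e : ∑ a ∈ A, ∑ n ∈ S, b a * g n * ∑ m ∈ Icc 1 Y, G m *
      Complex.exp (Complex.I * ((u * (Real.log m - Real.log (a * n : ℕ) - s) : ℝ) : ℂ)) =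
      DP (Icc 1 Y) G u * (starRingEnd ℂ) (DP A (fun a => (starRingEnd ℂ) (b a)) u) *
        (starRingEnd ℂ) (DP S (fun n => (starRingEnd ℂ) (g n)) u) *
        Complex.exp (Complex.I * ((u * (-s) : ℝ) : ℂ)) := by
    simp only [DP, map_sum, map_mul, conj_nit, Complex.conj_conj]
    rw [mul_assoc (∑ m ∈ Icc 1 Y, _), sum_mul_sum A S, mul_right_comm, mul_sum]
    refine sum_congr rfl fun a ha => ?_
    rw [mul_sum]
    refine sum_congr rfl fun n hn => ?_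
    rw [mul_mul_mul_comm (b a), ← nit_mul (Nat.one_le_iff_ne_zero.1 (hA a ha))
      (Nat.one_le_iff_ne_zero.1 (hS n hn)), mul_left_comm, sum_mul, sum_mul]
    refine congrArg _ (sum_congr rfl fun m _ => ?_)
    rw [mul_assoc, mul_assoc, nit, nit, ← Complex.exp_add, ← Complex.exp_add]
    congr 2
    push_cast
    ring
  beta_reduce
  rw [e, norm_mul, norm_mul, norm_mul, mul_comm Complex.I, Complex.norm_exp_ofReal_mul_I, mul_one,
    Complex.norm_conj, Complex.norm_conj]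

lemma MajB_split {P Q R : ℝ → ℂ} (hP : Trig P) (hQ : Trig Q) (hR : Trig R) (T : ℝ)
    {U W : Set ℝ} (hU : MeasurableSet U) (hW : MeasurableSet W) {a b c e : ℝ}
    (h : ∀ u, ‖P u‖ * ‖Q u‖ * ‖R u‖ ≤ a * ‖P u‖ ^ 2 + b * ‖R u‖ ^ 2 +
      U.indicator (fun u => c * ‖P u‖ ^ 2) u + W.indicator (fun _ => e) u) :
    ∫ u, ‖P u‖ * ‖Q u‖ * ‖R u‖ ∂(cm T) ≤ a * MS T Set.univ P + b * MS T Set.univ R +
      c * MS T U P + e * (cm T).real W := by
  have i0 : Integrable (fun u => ‖P u‖ * ‖Q u‖ * ‖R u‖) (cm T) := by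
    simpa only [norm_mul] using (((hP.mul hQ).mul hR).integrable (cm T)).norm
  have i1 := (hP.integrable_sq (cm T)).const_mul a
  have i2 := (hR.integrable_sq (cm T)).const_mul b
  have i3 := ((hP.integrable_sq (cm T)).const_mul c).indicator hU
  have i4 := (integrable_const (μ := cm T) e).indicator hW
  refine (integral_mono i0 (((i1.fun_add i2).fun_add i3).fun_add i4) h).trans (le_of_eq ?_)
  rw [integral_add ((i1.fun_add i2).fun_add i3) i4, integral_add (i1.fun_add i2) i3,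
    integral_add i1 i2, integral_indicator hU, integral_indicator hW, integral_const_mul,
    integral_const_mul, integral_const_mul, setIntegral_const, smul_eq_mul, mul_comm _ e]
  simp only [MS, Measure.restrict_univ]

lemma MajB_pt {p q r H y l : ℝ} (hp : 0 ≤ p) (hr : 0 ≤ r) (hy : 0 < y) (hl : 1 ≤ l)
    (hq : q ≤ H) : (q ≤ H / (y * l) → p * q * r ≤ 1 / (y * l) * p ^ 2 + H ^ 2 / y * r ^ 2) ∧
      p * q * r ≤ H ^ 2 / y * r ^ 2 + y * p ^ 2 := by
  have k : ∀ z : ℝ, 0 < z → p * (H / z) * r ≤ 1 / z * p ^ 2 + H ^ 2 / z * r ^ 2 := fun z hz => by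
    rw [← sub_nonneg, show 1 / z * p ^ 2 + H ^ 2 / z * r ^ 2 - p * (H / z) * r =
      ((p - H * r) ^ 2 + p ^ 2 + (H * r) ^ 2) / (2 * z) by field_simp; ring]
    positivity
  refine ⟨fun h => ?_, ?_⟩
  · refine le_trans (by gcongr) ((k _ (by positivity)).trans ?_)
    gcongr
    exact le_mul_of_one_le_right hy.le hl
  · refine le_trans (b := p * H * r) (by gcongr) ?_
    rw [← sub_nonneg, show H ^ 2 / y * r ^ 2 + y * p ^ 2 - p * H * r =
      ((y * p - H * r) ^ 2 + (y * p) ^ 2 + (H * r) ^ 2) / (2 * y) by field_simp; ring]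
    positivity

theorem tri3 {ε : ℝ} (hε : 0 < ε) (B : ℕ) : ∃ A' : ℕ, ∀ᶠ N : ℕ in atTop, ∀ (H q : ℕ) (T : ℝ),
    (N : ℝ) ^ ε ≤ H → H ≤ N → 1 ≤ q → (q : ℝ) ≤ Real.log N ^ B → 0 < T →
    T ≤ N * Real.log N ^ B → ∀ G : ℤ → ℂ,
    (∀ m : ℤ, 1 ≤ m → m ≤ 3 * H * N → ‖G m‖ ≤ 3 * Real.log N) → KeyP N (H * N) (1 / 2) A' G →
    ∀ χ : ℕ → ℂ, (∀ n, ‖χ n‖ ≤ 1) → ∀ A S : Finset ℕ, A ⊆ Ioc 1 H → S ⊆ Icc 1 N →
    ∀ b g : ℕ → ℂ, (∀ a, ‖b a‖ ≤ 1) → (∀ n, ‖g n‖ ≤ 1) →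
      ∫ u, ‖DP (Icc 1 (3 * H * N)) (fun m => G m * χ (m % q)) u‖ * ‖DP A b u‖ * ‖DP S g u‖
        ∂(cm T) ≤ (H : ℝ) ^ 2 * N ^ 2 / Real.log N ^ B := by
  obtain ⟨c, c0, c1, j, j1, C, C1, hm⟩ := mom hε
  refine ⟨5 * B + 2, ?_⟩
  have ev : ∀ (K : ℕ) {θ : ℝ}, 0 < θ → ∀ᶠ N : ℕ in atTop, Real.log N ^ K ≤ (N : ℝ) ^ θ :=
    fun K θ hθ => by
      have := tendsto_natCast_atTop_atTop (R := ℝ).eventually
        ((isLittleO_log_rpow_rpow_atTop K hθ).bound one_pos)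
      filter_upwards [this] with N h
      rw [one_mul, Real.rpow_natCast, Real.norm_of_nonneg (by positivity : (0 : ℝ) ≤ (N : ℝ) ^ θ)] at h
      exact (le_abs_self _).trans h
  filter_upwards [TB_tend.eventually_ge_atTop 1000, ev B hε, ev (3 * B + 2) one_pos,
    TB_ev_exp (4 * C) ((2 * B + 3) * (2 * j)) (c := 1 - 1 / 2) (by norm_num),
    eventually_ge_atTop 1] with N hl x1 x2 x3 N1 H q T hH hHN q1 hq T0 hT G hG hK χ hχ A S hA hS
    b g hb hg
  have e1 : ∀ i k : ℕ, Real.log N ^ (i * B + k) = (Real.log N ^ B) ^ i * Real.log N ^ k :=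
    fun i k => by ring
  rw [Real.rpow_one, e1] at x2
  rw [pow_mul, e1] at x3
  simp only [KeyP, e1] at hK
  have fr : ∀ U : Set ℝ, MeasurableSet U → (∀ u ∈ U, |u| ≤ (N : ℝ) ^ 3) →
      (cm T).real U ≤ 4 * C * ((Real.log N ^ B) ^ 2 * Real.log N ^ 3) ^ (2 * j) →
      Fr N (1 / 2) T U := fun U h1 h2 h3 => ⟨h1, h2, h3.trans x3⟩
  clear x3 e1
  generalize Real.log N = l at *
  have l1 : 1 ≤ l := le_trans (by norm_num) hl
  have m1 : 1 ≤ l ^ B := one_le_pow₀ l1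
  generalize l ^ B = m at *
  have mH : m ≤ H := x1.trans hH
  have H1 : (1 : ℝ) ≤ H := m1.trans mH
  have n1 : (1 : ℝ) ≤ N := by exact_mod_cast N1
  have HN : (H : ℝ) ≤ N := by exact_mod_cast hHN
  have pi4 := Real.pi_le_four
  have bA : ∀ u, ‖DP A b u‖ ≤ H := fun u => (norm_DP_le_card A hb u).trans (by
    exact_mod_cast (card_le_card hA).trans (by simp))
  have cS : (S.card : ℝ) ≤ N := by exact_mod_cast (card_le_card hS).trans (by simp)
  have bG : ∀ n ∈ Icc 1 (3 * H * N), ‖G n * χ (n % q)‖ ≤ 3 * l := fun n hn => by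
    rw [norm_mul]
    exact (mul_le_of_le_one_right (norm_nonneg _) (hχ _)).trans
      (hG n (by exact_mod_cast (mem_Icc.1 hn).1) (by exact_mod_cast (mem_Icc.1 hn).2))
  have tP := Trig.DP (Icc 1 (3 * H * N)) fun m => G m * χ (m % q)
  have mU : MeasurableSet ({u | H / (m ^ 2 * l * l ^ 2) < ‖DP A b u‖} ∩
      {u : ℝ | |u| ≤ (N : ℝ) ^ 3}) :=
    (isOpen_lt continuous_const (Trig.DP A b).1.norm).measurableSet.inter
      (isClosed_le continuous_abs continuous_const).measurableSet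
  have mW : MeasurableSet {u : ℝ | (N : ℝ) ^ 3 < |u|} :=
    (isOpen_lt continuous_const continuous_abs).measurableSet
  have s1 : MS T Set.univ (DP (Icc 1 (3 * H * N)) fun m => G m * χ (m % q)) ≤
      4 * (7 * (H * N)) * (3 * H * N * (3 * l) ^ 2) := by
    refine (mean_value (Subset.refl _) _ T0).trans ?_
    gcongr
    · push_cast
      linarith only [hT, mH, mul_le_mul_of_nonneg_left mH (Nat.cast_nonneg (α := ℝ) N)]
    · refine (sum_le_card_nsmul _ _ ((3 * l) ^ 2) fun n hn =>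
        pow_le_pow_left₀ (norm_nonneg _) (bG n hn) 2).trans (le_of_eq ?_)
      simp
  have s2 : MS T Set.univ (DP S g) ≤ 4 * (3 * (m * N)) * N := by
    refine (mean_value hS _ T0).trans ?_
    gcongr
    · linarith only [hT, m1, mul_le_mul_of_nonneg_left m1 (Nat.cast_nonneg (α := ℝ) N)]
    · refine (sum_le_card_nsmul _ _ 1 fun n _ => pow_le_one₀ (norm_nonneg _) (hg n)).trans ?_
      rwa [nsmul_eq_mul, mul_one]
  have s3 := shift_cls (N := H * N) (c := G) q1 mU (fun a y hy => hK q a y q1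
    (hq.trans (by
      calc m = m ^ 1 * 1 := by ring
        _ ≤ m ^ 5 * l ^ 2 := by gcongr; exacts [by norm_num, one_le_pow₀ l1])) hy T _
    (fr _ mU (fun u hu => hu.2) (by
      have k := hm N 1 0 1 H H H T N1 le_rfl le_rfl hH (by simp)
        (by simpa using Real.rpow_le_rpow_of_exponent_le H1 (show 1 - c ≤ 1 by linarith only [c0]))
        (by simp) T0 (hT.trans (by linarith only [hH, x1, HN, mul_nonneg_of_nonpos_of_nonpos (Mathlib.Tactic.Linarith.sub_nonpos_of_le (Mathlib.Tactic.Linarith.natCast_nonneg ℝ N)) (Mathlib.Tactic.Linarith.sub_nonpos_of_le hH), mul_nonneg_of_nonpos_of_nonpos (Mathlib.Tactic.Linarith.sub_nonpos_of_le (Mathlib.Tactic.Linarith.natCast_nonneg ℝ N)) (Mathlib.Tactic.Linarith.sub_nonpos_of_le x1), mul_nonneg_of_nonpos_of_nonpos (Mathlib.Tactic.Linarith.sub_nonpos_of_le (Mathlib.Tactic.Linarith.natCast_nonneg ℝ N)) (Mathlib.Tactic.Linarith.sub_nonpos_of_le HN)])) A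
        (fun a ha => ⟨(mem_Ioc.1 (hA ha)).1, (mem_Ioc.1 (hA ha)).2, Nat.mod_one a⟩) b hb
      rw [← MS_one]
      refine (MS_le_of_le (Trig.const 1) ((Trig.DP A b).pow j) T mU
        (c := (m ^ 2 * l ^ 3 / H) ^ j) fun u hu => ?_).trans ?_
      · rw [norm_one, norm_pow, ← mul_pow]
        refine one_le_pow₀ ?_
        have h3 : H / (m ^ 2 * l * l ^ 2) < ‖DP A b u‖ := hu.1
        rw [div_lt_iff₀ (by positivity)] at h3
        rw [div_mul_eq_mul_div, one_le_div (by positivity)]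
        linarith only [h3]
      · refine (mul_le_mul_of_nonneg_left
          ((MS_mono ((Trig.DP A b).pow j) T (Set.subset_univ _)).trans k) (sq_nonneg _)).trans
          (le_of_eq ?_)
        rw [div_self (by positivity), ← pow_mul, mul_comm j 2, div_pow]
        field_simp
        ring))) hχ (Nat.zero_le (3 * H * N)) (by linarith only [mul_nonneg_of_nonpos_of_nonpos (Mathlib.Tactic.Linarith.sub_nonpos_of_le (Mathlib.Tactic.Linarith.natCast_nonneg ℤ N)) (Mathlib.Tactic.Linarith.sub_nonpos_of_le (Mathlib.Tactic.Linarith.natCast_nonneg ℤ H))])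
  rw [show Ioc 0 (3 * H * N) = Icc 1 (3 * H * N) from rfl] at s3
  have s4 := cm_tail T (Y := (N : ℝ) ^ 3) (by positivity)
  refine (MajB_split tP (Trig.DP A b) (Trig.DP S g) T mU mW (a := 1 / (m ^ 2 * l * l ^ 2))
    (b := H ^ 2 / (m ^ 2 * l)) (c := m ^ 2 * l) (e := 3 * H * N * (3 * l) * H * N)
    fun u => ?_).trans ?_
  · obtain ⟨k1, k2⟩ := MajB_pt (norm_nonneg (DP (Icc 1 (3 * H * N))
      (fun m => G m * χ (m % q)) u)) (norm_nonneg (DP S g u)) (y := m ^ 2 * l) (by positivity)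
      (one_le_pow₀ l1 (n := 2)) (bA u)
    have z1 := Set.indicator_apply_nonneg (s := {u | H / (m ^ 2 * l * l ^ 2) < ‖DP A b u‖} ∩
      {u : ℝ | |u| ≤ (N : ℝ) ^ 3}) (a := u) (f := fun u => m ^ 2 * l *
        ‖DP (Icc 1 (3 * H * N)) (fun m => G m * χ (m % q)) u‖ ^ 2) fun _ => by positivity
    have z2 := Set.indicator_apply_nonneg (s := {u : ℝ | (N : ℝ) ^ 3 < |u|}) (a := u)
      (f := fun _ => 3 * H * N * (3 * l) * H * N) fun _ => by positivity
    have z3 : 0 ≤ 1 / (m ^ 2 * l * l ^ 2) *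
      ‖DP (Icc 1 (3 * H * N)) (fun m => G m * χ (m % q)) u‖ ^ 2 := by positivity
    have z4 : 0 ≤ H ^ 2 / (m ^ 2 * l) * ‖DP S g u‖ ^ 2 := by positivity
    rcases le_or_gt ‖DP A b u‖ (H / (m ^ 2 * l * l ^ 2)) with h | h
    · linarith only [z1, z2, k1, h, k1 h]
    rcases le_or_gt |u| ((N : ℝ) ^ 3) with h' | h'
    · rw [Set.indicator_of_mem (show u ∈ {u | H / (m ^ 2 * l * l ^ 2) < ‖DP A b u‖} ∩
        {u : ℝ | |u| ≤ (N : ℝ) ^ 3} from ⟨h, h'⟩)]
      linarith only [k2, z2, z3]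
    · rw [Set.indicator_of_mem (show u ∈ {u : ℝ | (N : ℝ) ^ 3 < |u|} from h')]
      have : ‖DP (Icc 1 (3 * H * N)) (fun m => G m * χ (m % q)) u‖ * ‖DP A b u‖ * ‖DP S g u‖ ≤
          3 * H * N * (3 * l) * H * N := by
        gcongr
        · refine (norm_DP_le _ _ u).trans ((sum_le_card_nsmul _ _ _ bG).trans (le_of_eq ?_))
          simp
        · exact bA u
        · exact (norm_DP_le_card S hg u).trans cS
      linarith only [z1, z3, z4, this]
  · calc _ ≤ 1 / (m ^ 2 * l * l ^ 2) * (4 * (7 * (H * N)) * (3 * H * N * (3 * l) ^ 2)) +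
          H ^ 2 / (m ^ 2 * l) * (4 * (3 * (m * N)) * N) +
          m ^ 2 * l * (4 * m ^ 2 * (((H * N : ℕ) : ℝ) ^ 2 / (m ^ 5 * l ^ 2))) +
          3 * H * N * (3 * l) * H * N * (2 * (N * m) ^ 2 / (N ^ 2 * (m ^ 3 * l ^ 2))) := by
          gcongr
          · refine s3.trans ?_
            gcongr
          · refine s4.trans ?_
            rw [pow_succ (N : ℝ) 2]
            gcongr
      _ = H ^ 2 * N ^ 2 / m * ((756 / m + 34) / l) := by
          push_cast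
          field_simp
          ring
      _ ≤ _ := mul_le_of_le_one_right (by positivity) ((div_le_one (by positivity)).2 (by
          linarith only [hl, m1, div_le_self (by norm_num : (0 : ℝ) ≤ 756) m1]))

end Pool.Agent.Work.MP_51e72e_nt.AV
end

-- merged part: Pool.Agent.Work.MP_51e72e_nt.AV.Major
section
/-! Major arcs. -/

set_option autoImplicit false
open Finset Filter MeasureTheory Pool.Agent.Lib.MR Pool.Agent.Lib.LargeSieve
open Pool.Agent.Work.MP_678620_nt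

namespace Pool.Agent.Work.MP_51e72e_nt.AV

lemma Major_mod {q : ℕ} (hq : 1 ≤ q) (a : ℕ) (c : ℤ) :
    ee (a * ((c : ℝ) / q)) = ee ((a % q : ℕ) * ((c : ℝ) / q)) := by
  have h0 : (q : ℝ) ≠ 0 := by positivity
  have e : (a : ℝ) = q * (a / q : ℕ) + (a % q : ℕ) := by exact_mod_cast (Nat.div_add_mod a q).symm
  rw [← ee_add_int ((a % q : ℕ) * _) ((a / q : ℕ) * c)]
  refine congrArg ee ?_
  rw [Int.cast_mul, Int.cast_natCast]
  generalize a / q = u, a % q = v at e ⊢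
  rw [e]
  field_simp
  ring

lemma Major_ev {ε : ℝ} (hε : 0 < ε) (n : ℕ) :
    ∀ᶠ N : ℕ in atTop, Real.log N ^ n ≤ (N : ℝ) ^ ε := by
  have h := (isLittleO_log_rpow_rpow_atTop (n : ℝ) hε).bound one_pos
  filter_upwards [tendsto_natCast_atTop_atTop.eventually h] with N h
  rw [one_mul, Real.rpow_natCast, Real.norm_of_nonneg (by positivity : 0 ≤ (N : ℝ) ^ ε)] at h
  exact (le_abs_self _).trans h

lemma Major_main {q : ℕ} (hq : 1 ≤ q) (r : ℤ) {T W ν : ℝ} (hT : 0 < T) (hν : 0 ≤ ν) (β x₀ : ℝ)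
    (J : Finset ℤ) {A S : Finset ℕ} (hA : ∀ a ∈ A, 1 ≤ a) (hS : ∀ n ∈ S, 1 ≤ n) (Y : ℕ)
    (b g G : ℕ → ℂ) (hg : ∀ n, ‖g n‖ ≤ 1)
    (hW : ∀ A' ⊆ A, ∀ g' : ℕ → ℂ, (∀ n, ‖g' n‖ ≤ 1) → ∫ u, ‖DP (Icc 1 Y) G u‖ *
      ‖DP A' (fun a => (starRingEnd ℂ) (b a)) u‖ * ‖DP S g' u‖ ∂(cm T) ≤ W) :
    ‖∑ a ∈ A, ∑ n ∈ S, b a * g n * ee (a * (((n * r : ℤ) : ℝ) / q)) * ((ν : ℂ) * ∑ j ∈ J,
      ee (-(j * β)) * ∑ m ∈ Icc 1 Y, G m *
        ((Real.exp (-(T * |Real.log m - Real.log (a * n : ℕ) - j / x₀|)) : ℝ) : ℂ))‖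
      ≤ ν * (J.card * (q * ((Real.pi * T)⁻¹ * W))) := by
  have e : ∀ X : ℕ → ℕ → ℂ, ∑ ρ ∈ range q, ∑ a ∈ A.filter (· % q = ρ), ∑ n ∈ S,
      b a * (g n * ee (ρ * (((n * r : ℤ) : ℝ) / q))) * X a n =
      ∑ a ∈ A, ∑ n ∈ S, b a * g n * ee (a * (((n * r : ℤ) : ℝ) / q)) * X a n := by
    intro X
    rw [← sum_fiberwise_of_maps_to (s := A) (t := range q) (g := (· % q))
      fun a _ => mem_range.2 (Nat.mod_lt a hq)]
    refine sum_congr rfl fun ρ _ => sum_congr rfl fun a ha => sum_congr rfl fun n _ => ?_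
    rw [Major_mod hq a, (mem_filter.1 ha).2, ← mul_assoc]
  have e' : ∀ X : ℕ → ℕ → ℤ → ℂ, ∑ a ∈ A, ∑ n ∈ S, b a * g n * ee (a * (((n * r : ℤ) : ℝ) / q)) *
      ((ν : ℂ) * ∑ j ∈ J, ee (-(j * β)) * X a n j) = ν * ∑ j ∈ J, ee (-(j * β)) *
      ∑ ρ ∈ range q, ∑ a ∈ A.filter (· % q = ρ), ∑ n ∈ S,
        b a * (g n * ee (ρ * (((n * r : ℤ) : ℝ) / q))) * X a n j := by
    intro X
    simp only [e]
    simp only [mul_sum]
    rw [sum_comm_cycle]
    exact sum_congr rfl fun _ _ => sum_congr rfl fun _ _ => sum_congr rfl fun _ _ => by ring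
  rw [e', norm_mul, Complex.norm_real, Real.norm_of_nonneg hν, ← nsmul_eq_mul]
  refine mul_le_mul_of_nonneg_left ((norm_sum_le _ _).trans
    (sum_le_card_nsmul _ _ _ fun j _ => ?_)) hν
  rw [norm_mul, norm_ee, one_mul, ← nsmul_eq_mul]
  refine (norm_sum_le _ _).trans ((sum_le_card_nsmul _ _ _ fun ρ _ => ?_).trans_eq
    (by rw [card_range]))
  refine (mellin _ S (fun a ha => hA a (mem_filter.1 ha).1) hS Y b _ G hT _).trans
    (mul_le_mul_of_nonneg_left (hW _ (filter_subset _ _) _ fun n => ?_) (by positivity))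
  rw [Complex.norm_conj, norm_mul, norm_ee, mul_one]
  exact hg n

lemma Major_err {lam H N τ η β D g : ℝ} (hl : 1000 ≤ lam) (hH : 0 ≤ H) (hN0 : 0 ≤ N)
    (hN : N ≤ Real.exp lam) (hg : g ≤ 3 * lam) (hτ0 : 0 ≤ τ) (hτ : τ * H ≤ lam ^ 45)
    (hτD : lam ^ 3 / 8 ≤ τ * D) (hη0 : 0 ≤ η) (hη : η * lam ^ 79 ≤ 6) (hD0 : 0 ≤ D)
    (hD : D * lam ^ 40 ≤ H) (hβ : |β| * H ≤ lam ^ 8) : 16 * τ * η * H ≤ 1 ∧
    g * (D * (2 + 19 * (|β| * H)) + 3 * H * (16 * τ * η * H +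
      3 * τ * (3 * H * N) * Real.exp (-(τ * D / 2)))) ≤ H / lam ^ 30 / 2 := by
  have l0 : 0 < lam := by linarith only [hl]
  have l1 : 1 ≤ lam := by linarith only [hl]
  have l2 : 2000 ≤ lam ^ 2 := by linarith only [hl, mul_nonneg_of_nonpos_of_nonpos (Mathlib.Tactic.Linarith.sub_nonpos_of_le hl) (Mathlib.Tactic.Linarith.sub_nonpos_of_le hl)]
  have w0 : 0 < lam ^ 32 := by positivity
  have h1 : D * (2 + 19 * (|β| * H)) ≤ 21 * H / lam ^ 32 := by
    rw [le_div_iff₀ w0]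
    have := one_le_pow₀ (n := 8) l1
    calc _ ≤ D * (21 * lam ^ 8) * lam ^ 32 := by gcongr; linarith only [hβ, this]
      _ = 21 * (D * lam ^ 40) := by ring
      _ ≤ _ := by linarith only [hD]
  have h2 : 16 * τ * η * H ≤ 1 / lam ^ 32 := by
    rw [le_div_iff₀ w0]
    refine le_of_mul_le_mul_right ?_ (pow_pos l0 47)
    calc _ = 16 * (τ * H) * (η * lam ^ 79) := by ring
      _ ≤ 16 * lam ^ 45 * 6 := by gcongr
      _ = 96 * lam ^ 45 := by ring
      _ ≤ lam ^ 2 * lam ^ 45 := by gcongr; linarith only [l2]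
      _ = _ := by ring
  have h3 : τ * H * N * Real.exp (-(τ * D / 2)) ≤ 1 / lam ^ 32 := by
    rw [le_div_iff₀ w0]
    have e1 : lam ≤ Real.exp lam := by linarith only [Real.add_one_le_exp lam]
    calc _ ≤ lam ^ 45 * Real.exp lam * Real.exp (-(lam ^ 3 / 8 / 2)) * lam ^ 32 := by gcongr
      _ = lam ^ 77 * Real.exp lam * Real.exp (-(lam ^ 3 / 8 / 2)) := by ring
      _ ≤ Real.exp lam ^ 77 * Real.exp lam * Real.exp (-(lam ^ 3 / 8 / 2)) := by gcongr
      _ ≤ 1 := by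
        rw [← Real.exp_nat_mul, ← Real.exp_add, ← Real.exp_add, Real.exp_le_one_iff]
        push_cast
        linarith only [l2, hl, mul_nonneg_of_nonpos_of_nonpos (Mathlib.Tactic.Linarith.sub_nonpos_of_le (sq_nonneg lam)) (Mathlib.Tactic.Linarith.sub_nonpos_of_le hl), mul_nonneg_of_nonpos_of_nonpos (Mathlib.Tactic.Linarith.sub_nonpos_of_le hl) (Mathlib.Tactic.Linarith.sub_nonpos_of_le hl)]
  refine ⟨h2.trans ((div_le_one w0).2 (one_le_pow₀ l1)), ?_⟩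
  calc _ = g * (D * (2 + 19 * (|β| * H)) + 3 * H * (16 * τ * η * H +
        9 * (τ * H * N * Real.exp (-(τ * D / 2))))) := by ring
    _ ≤ 3 * lam * (21 * H / lam ^ 32 + 3 * H * (1 / lam ^ 32 + 9 * (1 / lam ^ 32))) := by gcongr
    _ = H / lam ^ 30 * (153 / lam) := by field_simp; ring
    _ ≤ H / lam ^ 30 * (1 / 2) := by
      refine mul_le_mul_of_nonneg_left ?_ (by positivity)
      rw [div_le_iff₀ l0]
      linarith only [hl]
    _ = _ := by ring

lemma Major_blk {lam θ x₀ η : ℝ} {H N q : ℕ} {r j₁ : ℤ} (hl : 1000 ≤ lam) (hH : lam ^ 100 ≤ H)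
    (hHN : H ≤ N) (hN : Real.log N ≤ lam) (hq : 1 ≤ q) (hq' : (q : ℝ) ≤ lam ^ 8)
    (hθ : |θ - (r : ℝ) / q| ≤ lam ^ 8 / H) {G : ℤ → ℂ}
    (hG : ∀ m : ℤ, 1 ≤ m → m ≤ 3 * H * N → ‖G m‖ ≤ 3 * Real.log N) {A S : Finset ℕ}
    (hA : Rg lam H A) (hS : Rg lam N S) (hη : 3 ≤ η * lam ^ 79) (hη' : η * lam ^ 79 ≤ 6)
    (hx : ∀ a ∈ A, ∀ n ∈ S, ((a * n : ℕ) : ℝ) ≤ x₀ ∧ x₀ ≤ (a * n : ℕ) * (1 + η) ∧ x₀ ≤ 4 * H * N)
    {b g : ℕ → ℂ} (hb : ∀ a, ‖b a‖ ≤ 1) (hg : ∀ n, ‖g n‖ ≤ 1) (hj : -(2 * (H : ℤ)) ≤ j₁)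
    (hj' : j₁ ≤ 0) (hW : ∀ A' ⊆ A, ∀ g' : ℕ → ℂ, (∀ n, ‖g' n‖ ≤ 1) →
      ∫ u, ‖DP (Icc 1 (3 * H * N)) (fun m => G m * ee (-((m % q : ℕ) * ((r : ℝ) / q)))) u‖ *
      ‖DP A' (fun a => (starRingEnd ℂ) (b a)) u‖ * ‖DP S g' u‖ ∂(cm (N * lam ^ 43)) ≤
        (H : ℝ) ^ 2 * N ^ 2 / lam ^ 201) :
    ‖∑ a ∈ A, ∑ n ∈ S, b a * g n * ∑ j ∈ Ioc j₁ (j₁ + 3 * H), G ((a * n : ℕ) + j) * ee (-(j * θ))‖
      ≤ A.card * S.card * (H / lam ^ 30 / 2) + 3 * ((H : ℝ) ^ 2 * N / lam ^ 191) := by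
  have l0 : 0 < lam := by linarith only [hl]
  have l1 : 1 ≤ lam := by linarith only [hl]
  rcases A.eq_empty_or_nonempty with rfl | ⟨a0, ha0⟩
  · simp only [sum_empty, norm_zero]; positivity
  rcases S.eq_empty_or_nonempty with rfl | ⟨n0, hn0⟩
  · simp only [sum_empty, sum_const_zero, norm_zero]; positivity
  have pw : ∀ {i k : ℕ}, i < k → 1000 * lam ^ i ≤ lam ^ k := fun {i k} h =>
    (mul_le_mul_of_nonneg_right hl (by positivity)).trans
      (by rw [← pow_succ']; exact pow_le_pow_right₀ l1 h)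
  have hHN' : (H : ℝ) ≤ N := by exact_mod_cast hHN
  have H0 : (0 : ℝ) < H := lt_of_lt_of_le (by positivity) hH
  have N0 : (0 : ℝ) < N := by linarith only [hHN', H0]
  have lo : ∀ a ∈ A, ∀ n ∈ S, (H : ℝ) * N ≤ lam ^ 2 * (a * n : ℕ) := fun a ha n hn =>
    (mul_le_mul (hA.lo a ha) (hS.lo n hn) N0.le (H0.le.trans (hA.lo a ha))).trans_eq
      (by push_cast; ring)
  obtain ⟨x1, -, x3⟩ := hx a0 ha0 n0 hn0
  have x2 : (H : ℝ) * N ≤ lam ^ 2 * x₀ := (lo a0 ha0 n0 hn0).trans (by gcongr)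
  have x0 : 0 < x₀ := pos_of_mul_pos_right ((mul_pos H0 N0).trans_le x2) (by positivity)
  have T0 : 0 < N * lam ^ 43 := by positivity
  have hD : (⌊H / lam ^ 40⌋₊ : ℝ) * lam ^ 40 ≤ H :=
    (le_div_iff₀ (by positivity)).1 (Nat.floor_le (by positivity))
  have hD' : (H : ℝ) ≤ 2 * (⌊H / lam ^ 40⌋₊ * lam ^ 40) := by
    have h1 := (div_lt_iff₀ (by positivity)).1 (Nat.lt_floor_add_one (H / lam ^ 40))
    have h2 := pw (show 40 < 100 by norm_num)
    have := pow_pos l0 40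
    linarith only [hH, hD, h1, h2]
  generalize ⌊H / lam ^ 40⌋₊ = D at hD hD'
  have hτ : N * lam ^ 43 / x₀ * H ≤ lam ^ 45 := by
    rw [div_mul_eq_mul_div, div_le_iff₀ x0]
    calc _ = lam ^ 43 * (H * N) := by ring
      _ ≤ lam ^ 43 * (lam ^ 2 * x₀) := by gcongr
      _ = _ := by ring
  have hτD : lam ^ 3 / 8 ≤ N * lam ^ 43 / x₀ * D := by
    rw [div_mul_eq_mul_div, le_div_iff₀ x0]
    calc _ ≤ lam ^ 3 / 8 * (4 * (2 * (D * lam ^ 40)) * N) := by
          refine mul_le_mul_of_nonneg_left (x3.trans ?_) (by positivity)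
          gcongr
      _ = _ := by ring
  have h5 : 1 ≤ N * lam ^ 43 / x₀ * D := by
    have := pw (show 0 < 3 by norm_num)
    rw [pow_zero] at this
    linarith only [hτD, this]
  have η0 : 0 ≤ η := (pos_of_mul_pos_right (by linarith only [hη]) (pow_pos l0 79).le).le
  obtain ⟨h6, hE⟩ := Major_err hl H0.le N0.le ((Real.log_le_iff_le_exp N0).1 hN)
    (g := 3 * Real.log N) (by linarith only [hN]) (by positivity) hτ hτD η0 hη' (Nat.cast_nonneg D) hD
    ((le_div_iff₀ H0).1 hθ)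
  obtain ⟨ν0, ν1⟩ := nu_le (D := D) (div_pos T0 x0) h5
  have key := Major_main hq r T0 ν0 (θ - r / q) x₀ (Ioc j₁ (j₁ + 3 * H)) hA.pos hS.pos (3 * H * N)
    b g _ hg hW
  have fin : nu (N * lam ^ 43 / x₀) D * ((Ioc j₁ (j₁ + 3 * H)).card * (q * ((Real.pi *
      (N * lam ^ 43))⁻¹ * ((H : ℝ) ^ 2 * N ^ 2 / lam ^ 201)))) ≤ 3 * (H ^ 2 * N / lam ^ 191) := by
    have c : ((Ioc j₁ (j₁ + 3 * H)).card : ℝ) = 3 * H := by
      rw [Int.card_Ioc, add_sub_cancel_left]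
      exact_mod_cast congrArg Nat.cast (Int.toNat_natCast (3 * H))
    have := Real.pi_gt_three
    calc _ ≤ 3 * (N * lam ^ 43 / x₀) * (3 * H * (lam ^ 8 * ((3 * (N * lam ^ 43))⁻¹ *
          ((H : ℝ) ^ 2 * N ^ 2 / lam ^ 201)))) := by rw [c]; gcongr
      _ = 3 * (H ^ 2 * N / lam ^ 191) * (H * N / (lam ^ 2 * x₀)) := by field_simp
      _ ≤ _ := mul_le_of_le_one_right (by positivity) ((div_le_one (by positivity)).2 x2)
  refine (norm_le_norm_sub_add _ _).trans (add_le_add ?_ (key.trans fin))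
  rw [← sum_sub_distrib, mul_assoc (A.card : ℝ)]
  refine (norm_sum_le _ _).trans ((sum_le_card_nsmul _ _ _ fun a ha => ?_).trans_eq
    (nsmul_eq_mul _ _))
  rw [← sum_sub_distrib]
  refine (norm_sum_le _ _).trans ((sum_le_card_nsmul _ _ _ fun n hn => ?_).trans_eq
    (nsmul_eq_mul _ _))
  obtain ⟨y1, y2, -⟩ := hx a ha n hn
  have N2 : 4 ≤ N := by
    have := pw (show 0 < 100 by norm_num)
    rw [pow_zero] at this
    exact_mod_cast (show (4 : ℝ) ≤ N by linarith only [hH, hHN', this])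
  have M := majA (β := θ - r / q) (Y := 3 * H * N) (g := 3 * Real.log N)
    (fun m => G m * ee (-(m * ((r : ℝ) / q)))) T0 (by exact_mod_cast H0) y1 y2 ?_ ?_ ?_ ?_ h5 h6
    hj hj' fun m h1 h2 => by
      rw [norm_mul, norm_ee, mul_one]
      exact hG m h1 (by exact_mod_cast h2)
  · have e1 : ∑ j ∈ Ioc j₁ (j₁ + 3 * H), G ((a * n : ℕ) + j) * ee (-(j * θ)) =
        ee (a * (((n * r : ℤ) : ℝ) / q)) * ∑ j ∈ Ioc j₁ (j₁ + 3 * H), G ((a * n : ℕ) + j) *
          ee (-((((a * n : ℕ) + j : ℤ) : ℝ) * ((r : ℝ) / q))) * ee (-(j * (θ - r / q))) := by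
      rw [mul_sum]
      refine sum_congr rfl fun j _ => ?_
      rw [mul_assoc, mul_left_comm, ← ee_add, ← ee_add]
      refine congrArg (fun x => _ * ee x) ?_
      push_cast
      ring
    have e2 : ∀ m : ℕ, ee (-((m % q : ℕ) * ((r : ℝ) / q))) = ee (-(((m : ℤ) : ℝ) * (r / q))) :=
      fun m => by rw [← conj_ee, ← conj_ee, ← Major_mod hq, Int.cast_natCast]
    simp only [e2]
    rw [e1, ← mul_assoc, ← mul_sub, norm_mul, norm_mul, norm_ee, mul_one, norm_mul]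
    refine (mul_le_of_le_one_left (norm_nonneg _)
      (mul_le_one₀ (hb a) (norm_nonneg _) (hg n))).trans (M.trans (le_of_eq_of_le ?_ hE))
    push_cast
    ring
  · refine le_of_mul_le_mul_right ?_ (pow_pos l0 81)
    have := pw (show 81 < 100 by norm_num)
    have := pow_pos l0 81
    calc _ = H * (8 * lam ^ 81) := by ring
      _ ≤ H * (3 * N) := by gcongr ?_ * ?_; linarith
      _ = 3 * (H * N) := by ring
      _ ≤ η * lam ^ 79 * (lam ^ 2 * (a * n : ℕ)) :=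
        mul_le_mul hη (lo a ha n hn) (by positivity) (by positivity)
      _ = _ := by ring
  · have := pw (show 0 < 79 by norm_num)
    rw [pow_zero] at this
    linarith only [hη', η0, this, mul_nonneg_of_nonpos_of_nonpos (Mathlib.Tactic.Linarith.sub_nonpos_of_le η0) (Mathlib.Tactic.Linarith.sub_nonpos_of_le this)]
  · have := Nat.mul_le_mul (hA.hi a ha) (hS.hi n hn)
    nlinarith only [this, N2]
  · have := mul_le_mul_of_nonneg_left (one_le_pow₀ (n := 40) l1) (Nat.cast_nonneg (α := ℝ) D)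
    exact_mod_cast (show (D : ℝ) ≤ H by linarith only [hD, this])

theorem major {ε : ℝ} (hε : 0 < ε) (B : ℕ) : ∃ A' : ℕ, ∀ᶠ N : ℕ in atTop,
    ∀ (H : ℕ) (lam θ : ℝ), Par ε B N H lam → Major lam H θ → ∀ G : ℤ → ℂ,
    (∀ m : ℤ, 1 ≤ m → m ≤ 3 * H * N → ‖G m‖ ≤ 3 * Real.log N) → KeyP N (H * N) (1 / 2) A' G →
    ∀ A S : Finset ℕ, Rg lam H A → Rg lam N S → ∀ b g : ℕ → ℂ, (∀ a, ‖b a‖ ≤ 1) →
    (∀ n, ‖g n‖ ≤ 1) → ∀ j₁ : ℤ, -(2 * (H : ℤ)) ≤ j₁ → j₁ ≤ 0 →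
      ‖∑ a ∈ A, ∑ n ∈ S, b a * g n *
          ∑ j ∈ Ioc j₁ (j₁ + 3 * H), G ((a * n : ℕ) + j) * ee (-(j * θ))‖
        ≤ (H : ℝ) ^ 2 * N / lam ^ 30 := by
  obtain ⟨A', hA'⟩ := tri3 hε (201 * B)
  refine ⟨A', ?_⟩
  filter_upwards [hA', Major_ev hε (B * 100), TB_tend.eventually_ge_atTop 1000] with N h3 hev hL
  rintro H lam θ hP ⟨q, r, hq, hq', hθ⟩ G hG hK A S hA hS b g hb hg j₁ hj hj'
  have hl := hL.trans hP.lam_lo
  have l0 : 0 < lam := by linarith only [hl]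
  have l1 : 1 ≤ lam := by linarith only [hl]
  have hH : lam ^ 100 ≤ H := by
    rw [pow_mul] at hev
    exact (pow_le_pow_left₀ l0.le hP.lam_hi _).trans (hev.trans hP.H_lo)
  have h201 : lam ^ 201 ≤ Real.log N ^ (201 * B) := by
    rw [pow_mul']
    exact pow_le_pow_left₀ l0.le hP.lam_hi _
  have k1 : lam ^ 80 ≤ ⌈lam ^ 80⌉₊ := Nat.le_ceil _
  have k2 : (⌈lam ^ 80⌉₊ : ℝ) ≤ 2 * lam ^ 80 := by
    have := Nat.ceil_lt_add_one (pow_pos l0 80).le
    have := one_le_pow₀ (n := 80) l1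
    linarith
  generalize ⌈lam ^ 80⌉₊ = K at k1 k2
  have K0 : (0 : ℝ) < K := lt_of_lt_of_le (by positivity) k1
  have K1 : 1 ≤ K := by exact_mod_cast K0
  have pw : ∀ {i k : ℕ}, i < k → 1000 * lam ^ i ≤ lam ^ k := fun {i k} h =>
    (mul_le_mul_of_nonneg_right hl (by positivity)).trans
      (by rw [← pow_succ']; exact pow_le_pow_right₀ l1 h)
  have p1 := pw (show 1 < 80 by norm_num)
  have p2 := pw (show 80 < 100 by norm_num)
  rw [pow_one] at p1
  have KH : K ≤ H := by exact_mod_cast (show (K : ℝ) ≤ H by linarith only [hl, hH, k2, p1, p2])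
  have N0 : (0 : ℝ) < N := by exact_mod_cast K1.trans (KH.trans hP.H_hi)
  have eη : 6 * lam / K * lam ^ 79 = 6 * lam ^ 80 / K := by ring
  have blk : ∀ i j, ‖∑ a ∈ Blk A H K i, ∑ n ∈ Blk S N K j, b a * g n *
      ∑ j ∈ Ioc j₁ (j₁ + 3 * H), G ((a * n : ℕ) + j) * ee (-(j * θ))‖ ≤ (Blk A H K i).card *
      (Blk S N K j).card * (H / lam ^ 30 / 2) + 3 * ((H : ℝ) ^ 2 * N / lam ^ 191) := fun i j =>
    Major_blk hl hH hP.H_hi hP.lam_lo hq hq' hθ hG (hA.mono (filter_subset _ _))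
      (hS.mono (filter_subset _ _)) (η := 6 * lam / K) (by rw [eη, le_div_iff₀ K0]; linarith only [k2])
      (by rw [eη, div_le_iff₀ K0]; linarith only [k1])
      (fun a ha n hn => xb_bounds hA hS (by linarith only [hl, k1, p1]) K1 KH hP.H_hi ha hn) hb hg hj hj'
      fun A'' hs g' hg' => (h3 H q _ hP.H_lo hP.H_hi hq
        (hq'.trans ((pow_le_pow_right₀ l1 (by norm_num)).trans h201)) (by positivity)
        (mul_le_mul_of_nonneg_left ((pow_le_pow_right₀ l1 (by norm_num)).trans h201) N0.le) G hG hK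
        (fun s => ee (-(s * ((r : ℝ) / q)))) (fun _ => (norm_ee _).le) A'' _ (fun a ha => by
          have ha := filter_subset _ _ (hs ha)
          refine mem_Ioc.2 ⟨(hA.pos a ha).lt_of_ne fun e => ?_, hA.hi a ha⟩
          have := hA.lo a ha
          rw [← e, Nat.cast_one] at this
          linarith only [hl, hH, p1, p2, this]) (hS.mono (filter_subset _ _)).sub _ g'
        (fun a => (Complex.norm_conj _).trans_le (hb a)) hg').trans
        (div_le_div_of_nonneg_left (by positivity) (by positivity) h201)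
  have cd : ∀ {T : Finset ℕ} {M : ℕ}, Rg lam M T →
      ∑ i ∈ range K, ((Blk T M K i).card : ℝ) ≤ M := fun {T M} hT => by
    have := sum_Blk K1 hT.hi fun _ => 1
    simp only [sum_const, smul_eq_mul, mul_one] at this
    exact_mod_cast this ▸ hT.card
  have e : ∀ f : ℕ → ℕ → ℂ, ∑ a ∈ A, ∑ n ∈ S, f a n = ∑ i ∈ range K, ∑ j ∈ range K,
      ∑ a ∈ Blk A H K i, ∑ n ∈ Blk S N K j, f a n := fun f => by
    rw [sum_Blk K1 hA.hi]
    exact sum_congr rfl fun i _ => (sum_congr rfl fun a _ => sum_Blk K1 hS.hi _).trans sum_comm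
  rw [e]
  refine (norm_sum_le_of_le _ fun i _ => norm_sum_le_of_le _ fun j _ => blk i j).trans ?_
  simp only [sum_add_distrib, ← sum_mul, ← mul_sum, sum_const, card_range, nsmul_eq_mul]
  have c1 := cd hA
  have c2 := cd hS
  calc _ ≤ (H : ℝ) * N * (H / lam ^ 30 / 2) +
        2 * lam ^ 80 * (2 * lam ^ 80) * 3 * ((H : ℝ) ^ 2 * N / lam ^ 191) := by gcongr
    _ = H ^ 2 * N / lam ^ 30 * (1 / 2 + 12 / lam) := by field_simp; ring
    _ ≤ _ := by
      refine mul_le_of_le_one_right (by positivity) ?_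
      have : 12 / lam ≤ 1 / 2 := by rw [div_le_iff₀ l0]; linarith only [hl]
      linarith only [this]

end Pool.Agent.Work.MP_51e72e_nt.AV
end
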