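import Pool.Agent.Work.MP_678620_nt.MRKey
import Pool.Agent.Work.MP_678620_nt.MRShort
import Pool.Agent.Work.MP_678620_nt.MRShift
import Pool.Agent.Work.MP_678620_nt.TBAsy
import Pool.Agent.Work.MP_678620_nt.TBConv
import Pool.Agent.Lib.LargeSieve.Arith

-- merged part: Pool.Agent.Work.MP_51e72e_nt.AV.Defs
section
/-! Linear systems of small height on average: definitions. -/

set_option autoImplicit false
open Finset Filter MeasureTheory Pool.Agent.Lib.MR Pool.Agent.Lib.LargeSieve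
open Pool.Agent.Work.MP_678620_nt

namespace Pool.Agent.Work.MP_51e72e_nt.AV

noncomputable section

/-- A bilinear sum over a short window. -/
def Sh (A S : Finset ℕ) (f : ℕ → ℕ → ℂ) (H x : ℕ) : ℂ :=
  ∑ a ∈ A, ∑ n ∈ S, if x < a * n ∧ a * n ≤ x + H then f a n else 0

/-- A bilinear Dirichlet polynomial. -/
def BD (A S : Finset ℕ) (f : ℕ → ℕ → ℂ) (u : ℝ) : ℂ := ∑ a ∈ A, ∑ n ∈ S, f a n * nit (a * n) u

/-- The elements of `A` lie between `M / lam` and `M`. -/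
structure Rg (lam : ℝ) (M : ℕ) (A : Finset ℕ) : Prop where
  pos : ∀ a ∈ A, 1 ≤ a
  hi : ∀ a ∈ A, a ≤ M
  lo : ∀ a ∈ A, (M : ℝ) ≤ lam * a

/-- The full range. -/
def Ra (lam : ℝ) (M : ℕ) : Finset ℕ := (Icc 1 M).filter fun a : ℕ => (M : ℝ) ≤ lam * a

/-- Major arcs. -/
def Major (lam : ℝ) (H : ℕ) (θ : ℝ) : Prop :=
  ∃ (q : ℕ) (r : ℤ), 1 ≤ q ∧ (q : ℝ) ≤ lam ^ 8 ∧ |θ - (r : ℝ) / q| ≤ lam ^ 8 / H

/-- The parameters. -/
structure Par (ε : ℝ) (B N H : ℕ) (lam : ℝ) : Prop where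
  H_lo : (N : ℝ) ^ ε ≤ H
  H_hi : H ≤ N
  lam_lo : Real.log N ≤ lam
  lam_hi : lam ≤ Real.log N ^ B

/-- Length of the blocks. -/
def bl (M K : ℕ) : ℕ := M / K + 1

/-- A block. -/
def Blk (A : Finset ℕ) (M K i : ℕ) : Finset ℕ := A.filter fun a => a / bl M K = i

/-- The base point of a pair of blocks. -/
def xb (H N K i j : ℕ) : ℝ := (((i + 1) * bl H K * ((j + 1) * bl N K) : ℕ) : ℝ)

/-- The logarithm on the primes above `z`. -/
def L1 (z : ℝ) (m : ℤ) : ℝ := if m.toNat.Prime ∧ z < m then Real.log m else 0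

/-- The model. -/
def F1 (z : ℝ) (m : ℤ) : ℝ := if Rou z m.toNat ∧ z < m then (Vz z)⁻¹ else 0

def G1 (z : ℝ) (m : ℤ) : ℝ := L1 z m - F1 z m

/-- The value of a linear form. -/
def ev (f : ℤ × ℤ) (n : ℕ) : ℤ := f.1 * n + f.2

/-- The box of coefficients without the small leading coefficients. -/
def Box (lam : ℝ) (H : ℕ) : Finset (ℤ × ℤ) :=
  ((Icc (1 : ℤ) H).filter fun a : ℤ => (H : ℝ) ≤ lam * a) ×ˢ Icc (-(H : ℤ)) H

/-- Tuples of forms. -/
def Tup (k : ℕ) (lam : ℝ) (H : ℕ) : Finset (Fin k → ℤ × ℤ) := Fintype.piFinset fun _ => Box lam H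

/-- The number of roots. -/
def omF (F : Finset (ℤ × ℤ)) (p : ℕ) : ℕ :=
  ((range p).filter fun n : ℕ => (p : ℤ) ∣ ∏ f ∈ F, ev f n).card

/-- The local factor. -/
def loc (F : Finset (ℤ × ℤ)) (p : ℕ) : ℝ := (1 - (omF F p : ℝ) / p) / (1 - 1 / (p : ℝ)) ^ F.card

/-- The truncated singular product. -/
def EP (F : Finset (ℤ × ℤ)) (y : ℕ) : ℝ := ∏ p ∈ (range (y + 1)).filter Nat.Prime, loc F p

/-- The singular product. -/
def CF (F : Finset (ℤ × ℤ)) : ℝ := limUnder atTop (EP F)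

/-- Primitive forms with positive leading coefficient. -/
def Prim (F : Finset (ℤ × ℤ)) : Prop := ∀ f ∈ F, 1 ≤ f.1 ∧ IsCoprime f.1 f.2

/-- Systems of controlled size. -/
structure Sy (k N : ℕ) (lam : ℝ) (F : Finset (ℤ × ℤ)) : Prop where
  prim : Prim F
  card : F.card ≤ k
  a_le : ∀ f ∈ F, f.1 ≤ N
  b_le : ∀ f ∈ F, |f.2| ≤ N
  b_a : ∀ f ∈ F, |(f.2 : ℝ)| ≤ lam * f.1

/-- The normalised count of the problem. -/
def cnt (F : Finset (ℤ × ℤ)) (N : ℕ) : ℝ :=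
  (((Icc 1 N).filter fun n : ℕ => ∀ f ∈ F, (ev f n).natAbs.Prime).card : ℝ) *
    (∏ f ∈ F, Real.log |((ev f N : ℤ) : ℝ)|) / N

end

lemma rg_Ra (lam : ℝ) (M : ℕ) : Rg lam M (Ra lam M) :=
  ⟨fun _ h => (mem_Icc.1 (mem_filter.1 h).1).1, fun _ h => (mem_Icc.1 (mem_filter.1 h).1).2,
    fun _ h => (mem_filter.1 h).2⟩

lemma Rg.sub {lam : ℝ} {M : ℕ} {A : Finset ℕ} (h : Rg lam M A) : A ⊆ Icc 1 M :=
  fun a ha => mem_Icc.2 ⟨h.pos a ha, h.hi a ha⟩

lemma Rg.card {lam : ℝ} {M : ℕ} {A : Finset ℕ} (h : Rg lam M A) : A.card ≤ M := by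
  simpa using card_le_card h.sub

lemma Rg.mono {lam : ℝ} {M : ℕ} {A A' : Finset ℕ} (h : Rg lam M A) (h' : A' ⊆ A) : Rg lam M A' :=
  ⟨fun a ha => h.pos a (h' ha), fun a ha => h.hi a (h' ha), fun a ha => h.lo a (h' ha)⟩

lemma trig_BD (A S : Finset ℕ) (f : ℕ → ℕ → ℂ) : Trig (BD A S f) :=
  Trig.sum fun _ _ => Trig.sum fun _ _ => (Trig.const _).mul (Trig.nit _)

lemma norm_ee (x : ℝ) : ‖ee x‖ = 1 := by
  rw [ee, mul_comm, Complex.norm_exp_ofReal_mul_I]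

lemma lt_mul_bl (M : ℕ) {K : ℕ} (hK : 1 ≤ K) : M < K * bl M K := Nat.lt_mul_div_succ M hK

lemma bl_pos (M K : ℕ) : 0 < bl M K := Nat.succ_pos _

lemma le_bl (M : ℕ) {K : ℕ} (hK : 1 ≤ K) : (M : ℝ) / K ≤ bl M K := by
  rw [div_le_iff₀ (by exact_mod_cast hK), mul_comm]
  exact_mod_cast (lt_mul_bl M hK).le

lemma bl_le {M K : ℕ} (hK : 1 ≤ K) (h : K ≤ M) : (bl M K : ℝ) ≤ 2 * M / K := by
  have h0 : (0 : ℝ) < K := by exact_mod_cast hK
  have h1 : ((M / K : ℕ) : ℝ) ≤ M / K := Nat.cast_div_le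
  have h2 : (1 : ℝ) ≤ M / K := by rw [le_div_iff₀ h0, one_mul]; exact_mod_cast h
  rw [bl, mul_div_assoc]
  push_cast
  linarith only [h1, h2]

lemma div_bl_lt {M K a : ℕ} (hK : 1 ≤ K) (h : a ≤ M) : a / bl M K < K := by
  rw [Nat.div_lt_iff_lt_mul (bl_pos M K)]
  exact h.trans_lt (lt_mul_bl M hK)

/-- Splitting a sum into blocks. -/
lemma sum_Blk {E : Type*} [AddCommMonoid E] {A : Finset ℕ} {M K : ℕ} (hK : 1 ≤ K)
    (h : ∀ a ∈ A, a ≤ M) (φ : ℕ → E) :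
    ∑ a ∈ A, φ a = ∑ i ∈ range K, ∑ a ∈ Blk A M K i, φ a :=
  (sum_fiberwise_of_maps_to (fun a ha => mem_range.2 (div_bl_lt hK (h a ha))) φ).symm

/-- The base point is close to the products. -/
lemma xb_bounds {lam : ℝ} {H N K i j a n : ℕ} {A S : Finset ℕ} (hA : Rg lam H A)
    (hS : Rg lam N S) (hK : 2 * lam ≤ K) (hK1 : 1 ≤ K) (hKH : K ≤ H) (hHN : H ≤ N)
    (ha : a ∈ Blk A H K i) (hn : n ∈ Blk S N K j) :
    ((a * n : ℕ) : ℝ) ≤ xb H N K i j ∧ xb H N K i j ≤ (a * n : ℕ) * (1 + 6 * lam / K) ∧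
      xb H N K i j ≤ 4 * H * N := by
  obtain ⟨ha1, rfl⟩ := mem_filter.1 ha
  obtain ⟨hn1, rfl⟩ := mem_filter.1 hn
  have h0 : (0 : ℝ) < K := by exact_mod_cast hK1
  have key : ∀ {M b : ℕ} {T : Finset ℕ}, Rg lam M T → K ≤ M → b ∈ T →
      (b : ℝ) ≤ ((b / bl M K + 1) * bl M K : ℕ) ∧
        (((b / bl M K + 1) * bl M K : ℕ) : ℝ) ≤ b * (1 + 2 * lam / K) ∧
        (((b / bl M K + 1) * bl M K : ℕ) : ℝ) ≤ 2 * M := by
    intro M b T hT hM hb
    have e1 : b ≤ (b / bl M K + 1) * bl M K := by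
      rw [mul_comm]; exact (Nat.lt_mul_div_succ b (bl_pos M K)).le
    have e2 : (b / bl M K + 1) * bl M K ≤ b + bl M K := by
      rw [add_mul, one_mul]; exact Nat.add_le_add_right (Nat.div_mul_le_self _ _) _
    have e3 : (b / bl M K + 1) * bl M K ≤ K * bl M K :=
      Nat.mul_le_mul_right _ (div_bl_lt hK1 (hT.hi b hb))
    have e4 := bl_le hK1 hM
    have e5 := hT.lo b hb
    refine ⟨by exact_mod_cast e1,
      le_trans (b := (b : ℝ) + bl M K) (by exact_mod_cast e2) ?_,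
      le_trans (b := (K : ℝ) * bl M K) (by exact_mod_cast e3) ?_⟩
    · have : 2 * (M : ℝ) / K ≤ b * (2 * lam / K) := by
        rw [← mul_div_assoc]
        exact div_le_div_of_nonneg_right (by linarith only [e5]) h0.le
      linarith only [e4, this]
    · rw [le_div_iff₀ h0] at e4
      linarith only [e4]
  obtain ⟨p1, p2, p3⟩ := key hA hKH ha1
  obtain ⟨q1, q2, q3⟩ := key hS (hKH.trans hHN) hn1
  have y1 : 2 * lam / K ≤ 1 := (div_le_one h0).2 hK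
  have a0 : (0 : ℝ) ≤ a := Nat.cast_nonneg a
  have n0 : (0 : ℝ) ≤ n := Nat.cast_nonneg n
  have y0 : 0 ≤ 2 * lam / K := by
    have := hA.lo a ha1
    have a1 : (1 : ℝ) ≤ a := by exact_mod_cast hA.pos a ha1
    have : 0 ≤ lam := by
      by_contra hc
      have : lam * a < 0 := mul_neg_of_neg_of_pos (not_le.1 hc) (by linarith only [a1])
      linarith [Nat.cast_nonneg (α := ℝ) H]
    positivity
  rw [xb, Nat.cast_mul, Nat.cast_mul ((a / bl H K + 1) * bl H K)]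
  refine ⟨mul_le_mul p1 q1 n0 (Nat.cast_nonneg _), ?_, ?_⟩
  · refine (mul_le_mul p2 q2 (Nat.cast_nonneg _) (by positivity)).trans ?_
    have e : 6 * lam / K = 3 * (2 * lam / K) := by ring
    rw [e]
    generalize 2 * lam / K = y at *
    have : (1 + y) * (1 + y) ≤ 1 + 3 * y := by linarith only [y1, y0, mul_nonneg_of_nonpos_of_nonpos (Mathlib.Tactic.Linarith.sub_nonpos_of_le y1) (Mathlib.Tactic.Linarith.sub_nonpos_of_le y0)]
    linarith only [this, a0, n0, mul_nonneg a0 n0, mul_nonneg_of_nonpos_of_nonpos (Mathlib.Tactic.Linarith.sub_nonpos_of_le this) (Mathlib.Tactic.Linarith.sub_nonpos_of_le (mul_nonneg a0 n0))]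
  · exact (mul_le_mul p3 q3 (Nat.cast_nonneg _) (by positivity)).trans_eq (by ring)

end Pool.Agent.Work.MP_51e72e_nt.AV
end

-- merged part: Pool.Agent.Work.MP_51e72e_nt.AV.MinA
section
/-! Minor arcs: localisation to blocks. -/

set_option autoImplicit false
open Finset Filter MeasureTheory Pool.Agent.Lib.MR Pool.Agent.Lib.LargeSieve
open Pool.Agent.Work.MP_678620_nt

namespace Pool.Agent.Work.MP_51e72e_nt.AV

lemma MinA_card {T : Finset ℕ} {D : ℝ} (hD : 0 ≤ D)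
    (h : ∀ n ∈ T, ∀ n' ∈ T, (n : ℝ) ≤ n' + D) : (T.card : ℝ) ≤ D + 1 := by
  rcases T.eq_empty_or_nonempty with rfl | hT
  · simp only [card_empty, Nat.cast_zero]
    linarith
  have h1 : T ⊆ Icc (T.min' hT) (T.max' hT) := fun n hn =>
    mem_Icc.2 ⟨T.min'_le n hn, T.le_max' n hn⟩
  have h2 := card_le_card h1
  rw [Nat.card_Icc] at h2
  have h3 := h _ (T.max'_mem hT) _ (T.min'_mem hT)
  have h4 : T.card + T.min' hT ≤ T.max' hT + 1 := by
    have := T.min'_le _ (T.max'_mem hT)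
    omega
  have h5 : (T.card : ℝ) + T.min' hT ≤ T.max' hT + 1 := by exact_mod_cast h4
  linarith only [hT, h3, h5]

theorem Sh_card {lam : ℝ} {H : ℕ} {A S : Finset ℕ} (hl : 1 ≤ lam) (hA : Rg lam H A) (x : ℕ) :
    ∑ a ∈ A, ∑ n ∈ S, (if x < a * n ∧ a * n ≤ x + H then (1 : ℝ) else 0) ≤ 2 * lam * A.card := by
  rw [mul_comm (2 * lam), ← nsmul_eq_mul]
  refine sum_le_card_nsmul _ _ _ fun a ha => ?_
  rw [sum_boole]
  refine (MinA_card (D := lam) (by linarith) fun n hn n' hn' => ?_).trans (by linarith)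
  have h1 : ((a * n : ℕ) : ℝ) ≤ (x + H : ℕ) := by exact_mod_cast (mem_filter.1 hn).2.2
  have h2 : (x : ℝ) < (a * n' : ℕ) := by exact_mod_cast (mem_filter.1 hn').2.1
  have h3 := hA.lo a ha
  have h4 : (0 : ℝ) < a := by exact_mod_cast hA.pos a ha
  push_cast at h1 h2
  refine le_of_mul_le_mul_left ?_ h4
  linarith only [h3, h1, h2]

theorem Sh_zero {lam : ℝ} {H N : ℕ} {A S : Finset ℕ} (hl : 1 ≤ lam) (hN : 2 * lam ^ 2 ≤ N)
    (hA : Rg lam H A) (hS : Rg lam N S) (f : ℕ → ℕ → ℂ) {x : ℕ}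
    (hx : (x : ℝ) < H * N / (2 * lam ^ 2)) : Sh A S f H x = 0 := by
  refine sum_eq_zero fun a ha => sum_eq_zero fun n hn => if_neg fun h => ?_
  have h1 : ((a * n : ℕ) : ℝ) ≤ (x + H : ℕ) := by exact_mod_cast h.2
  push_cast at h1
  have h2 := hA.lo a ha
  have h3 := hS.lo n hn
  have h0 : (0 : ℝ) < 2 * lam ^ 2 := by positivity
  rw [lt_div_iff₀ h0] at hx
  have hH : (0 : ℝ) ≤ H := Nat.cast_nonneg H
  have h4 : (H : ℝ) * N ≤ (lam * a) * (lam * n) :=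
    mul_le_mul h2 h3 (Nat.cast_nonneg N) (hH.trans h2)
  have h5 : (H : ℝ) * (2 * lam ^ 2) ≤ H * N := mul_le_mul_of_nonneg_left hN hH
  have h6 : (a * n : ℝ) * (2 * lam ^ 2) ≤ (x + H) * (2 * lam ^ 2) :=
    mul_le_mul_of_nonneg_right h1 h0.le
  linarith only [hx, h4, h5, h6]

lemma MinA_log {m₁ m₂ y η D : ℝ} (h₂ : 0 < m₂) (h : m₂ ≤ m₁) (hy : m₁ ≤ y)
    (hy' : y ≤ m₂ * (1 + η)) (hη : 0 ≤ η) (hD : m₁ - m₂ ≤ D) :
    |(m₁ - m₂) - y * (Real.log m₁ - Real.log m₂)| ≤ D * η := by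
  have h₁ : 0 < m₁ := h₂.trans_le h
  have e1 : Real.log m₁ - Real.log m₂ ≤ m₁ / m₂ - 1 := by
    rw [← Real.log_div h₁.ne' h₂.ne']
    exact Real.log_le_sub_one_of_pos (div_pos h₁ h₂)
  have e2 : Real.log m₂ - Real.log m₁ ≤ m₂ / m₁ - 1 := by
    rw [← Real.log_div h₂.ne' h₁.ne']
    exact Real.log_le_sub_one_of_pos (div_pos h₂ h₁)
  have e0 : 0 ≤ Real.log m₁ - Real.log m₂ := sub_nonneg.2 (Real.log_le_log h₂ h)
  have e3 : m₂ * (Real.log m₁ - Real.log m₂) ≤ m₁ - m₂ := by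
    have := mul_le_mul_of_nonneg_left e1 h₂.le
    rwa [mul_sub m₂ (m₁ / m₂), mul_div_cancel₀ _ h₂.ne', mul_one] at this
  have e4 : m₁ - m₂ ≤ m₁ * (Real.log m₁ - Real.log m₂) := by
    have := mul_le_mul_of_nonneg_left e2 h₁.le
    rw [mul_sub m₁ (m₂ / m₁), mul_div_cancel₀ _ h₁.ne', mul_one] at this
    linarith only [this]
  generalize Real.log m₁ - Real.log m₂ = L at *
  have e5 : m₁ * L ≤ y * L := mul_le_mul_of_nonneg_right hy e0
  have e6 : y * L ≤ m₂ * (1 + η) * L := mul_le_mul_of_nonneg_right hy' e0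
  have e7 : m₂ * L * η ≤ D * η := mul_le_mul_of_nonneg_right (e3.trans hD) hη
  have e8 : 0 ≤ D * η := mul_nonneg (by linarith) hη
  rw [abs_le]
  constructor <;> linarith only [e3, e6, e7, e4, e5]

lemma MinA_log' {m₁ m₂ y η D : ℝ} (h₁ : 0 < m₁) (h₂ : 0 < m₂) (hy₁ : m₁ ≤ y) (hy₂ : m₂ ≤ y)
    (hy₁' : y ≤ m₁ * (1 + η)) (hy₂' : y ≤ m₂ * (1 + η)) (hη : 0 ≤ η) (hD : m₁ - m₂ ≤ D)
    (hD' : m₂ - m₁ ≤ D) : |(m₁ - m₂) - y * (Real.log m₁ - Real.log m₂)| ≤ D * η := by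
  rcases le_total m₂ m₁ with h | h
  · exact MinA_log h₂ h hy₁ hy₂' hη hD
  · rw [← abs_neg]
    refine le_of_eq_of_le ?_ (MinA_log h₁ h hy₂ hy₁' hη hD')
    congr 1
    ring

lemma MinA_blk {lam β : ℝ} {H N K i j : ℕ} {A S : Finset ℕ} (hl : 1 ≤ lam) (hA : Rg lam H A)
    (hS : Rg lam N S) (hK : 2 * lam ≤ K) (hK1 : 1 ≤ K) (hKH : K ≤ H) (hHN : H ≤ N)
    (f : ℕ → ℕ → ℂ) (hf : ∀ a n, ‖f a n‖ ≤ 1) (x : ℕ) :
    ‖Sh (Blk A H K i) (Blk S N K j) (fun a n => f a n * ee ((a * n : ℕ) * β)) H x‖ ≤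
      ‖Sh (Blk A H K i) (Blk S N K j)
          (fun a n => f a n * nit (a * n) (2 * Real.pi * β * xb H N K i j)) H x‖ +
        2 * Real.pi * |β| * (H * (6 * lam / K)) * ∑ a ∈ Blk A H K i, ∑ n ∈ Blk S N K j,
          (if x < a * n ∧ a * n ≤ x + H then (1 : ℝ) else 0) := by
  have hη : 0 ≤ 6 * lam / K := by positivity
  have hc : 0 ≤ 2 * Real.pi * |β| * (H * (6 * lam / K)) := by positivity
  by_cases hex : ∃ a ∈ Blk A H K i, ∃ n ∈ Blk S N K j, x < a * n ∧ a * n ≤ x + H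
  swap
  · have : Sh (Blk A H K i) (Blk S N K j) (fun a n => f a n * ee ((a * n : ℕ) * β)) H x = 0 :=
      sum_eq_zero fun a ha => sum_eq_zero fun n hn => if_neg fun h => hex ⟨a, ha, n, hn, h⟩
    rw [this, norm_zero]
    refine add_nonneg (norm_nonneg _) (mul_nonneg hc ?_)
    exact sum_nonneg fun a _ => sum_nonneg fun n _ => by split_ifs <;> norm_num
  obtain ⟨a₁, ha₁, n₁, hn₁, hw₁⟩ := hex
  set y := xb H N K i j with hy
  set c : ℝ := 2 * Real.pi * β * ((a₁ * n₁ : ℕ) - y * Real.log (a₁ * n₁ : ℕ)) with hcd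
  have hω : ‖Complex.exp (Complex.I * c)‖ = 1 := by
    rw [mul_comm, Complex.norm_exp_ofReal_mul_I]
  have pos : ∀ a ∈ Blk A H K i, ∀ n ∈ Blk S N K j, (0 : ℝ) < (a * n : ℕ) := fun a ha n hn => by
    have h1 := hA.pos a (mem_filter.1 ha).1
    have h2 := hS.pos n (mem_filter.1 hn).1
    exact_mod_cast Nat.mul_pos h1 h2
  have key : ‖Sh (Blk A H K i) (Blk S N K j) (fun a n => f a n * ee ((a * n : ℕ) * β)) H x -
      Complex.exp (Complex.I * c) * Sh (Blk A H K i) (Blk S N K j)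
        (fun a n => f a n * nit (a * n) (2 * Real.pi * β * y)) H x‖ ≤
      2 * Real.pi * |β| * (H * (6 * lam / K)) * ∑ a ∈ Blk A H K i, ∑ n ∈ Blk S N K j,
          (if x < a * n ∧ a * n ≤ x + H then (1 : ℝ) else 0) := by
    simp only [Sh, mul_sum, ← sum_sub_distrib]
    refine norm_sum_le_of_le _ fun a ha => norm_sum_le_of_le _ fun n hn => ?_
    split_ifs with hw
    · have e : f a n * ee ((a * n : ℕ) * β) -
          Complex.exp (Complex.I * c) * (f a n * nit (a * n) (2 * Real.pi * β * y)) =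
          f a n * (Complex.exp (Complex.I * ((2 * Real.pi * ((a * n : ℕ) * β) : ℝ) : ℂ)) -
            Complex.exp (Complex.I *
              ((c + 2 * Real.pi * β * y * Real.log (a * n : ℕ) : ℝ) : ℂ))) := by
        rw [ee, nit, Complex.ofReal_add, mul_add, Complex.exp_add]
        ring
      rw [e, norm_mul, mul_one]
      refine (mul_le_of_le_one_left (norm_nonneg _) (hf a n)).trans ((shift_exp _ _).trans ?_)
      obtain ⟨b1, b2, -⟩ := xb_bounds hA hS hK hK1 hKH hHN ha hn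
      obtain ⟨b3, b4, -⟩ := xb_bounds hA hS hK hK1 hKH hHN ha₁ hn₁
      have w1 : (x : ℝ) < (a * n : ℕ) := by exact_mod_cast hw.1
      have w2 : ((a * n : ℕ) : ℝ) ≤ x + H := by exact_mod_cast hw.2
      have w3 : (x : ℝ) < (a₁ * n₁ : ℕ) := by exact_mod_cast hw₁.1
      have w4 : ((a₁ * n₁ : ℕ) : ℝ) ≤ x + H := by exact_mod_cast hw₁.2
      have h1 := MinA_log' (D := H) (pos a ha n hn) (pos a₁ ha₁ n₁ hn₁) b1 b3 b2 b4 hη
        (by linarith only [w2, w3]) (by linarith only [w1, w4])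
      have e2 : 2 * Real.pi * ((a * n : ℕ) * β) - (c + 2 * Real.pi * β * y * Real.log (a * n : ℕ)) =
          2 * Real.pi * β * ((((a * n : ℕ) : ℝ) - (a₁ * n₁ : ℕ)) -
            y * (Real.log (a * n : ℕ) - Real.log (a₁ * n₁ : ℕ))) := by
        rw [hcd]
        ring
      rw [e2, abs_mul, abs_mul, abs_of_pos Real.two_pi_pos]
      exact mul_le_mul_of_nonneg_left h1 (by positivity)
    · simp
  have h2 := norm_le_insert' (Sh (Blk A H K i) (Blk S N K j)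
    (fun a n => f a n * ee ((a * n : ℕ) * β)) H x) (Complex.exp (Complex.I * c) *
      Sh (Blk A H K i) (Blk S N K j) (fun a n => f a n * nit (a * n) (2 * Real.pi * β * y)) H x)
  rw [norm_mul, hω, one_mul] at h2
  linarith only [key, h2]

lemma MinA_pairs {lam : ℝ} {H N K i : ℕ} {A S : Finset ℕ} (hl : 1 ≤ lam) (hA : Rg lam H A)
    (hS : Rg lam N S) (hK1 : 1 ≤ K) (hKH : K ≤ H) (hHN : H ≤ N) (x : ℕ) :
    (((range K).filter fun j =>
      ∃ a ∈ Blk A H K i, ∃ n ∈ Blk S N K j, x < a * n ∧ a * n ≤ x + H).card : ℝ) ≤ 5 * lam := by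
  refine (MinA_card (D := 3 * lam + 1) (by linarith only [hl]) fun j hj j' hj' => ?_).trans (by linarith only [hl])
  obtain ⟨a, ha, n, hn, w1, w2⟩ := (mem_filter.1 hj).2
  obtain ⟨a', ha', n', hn', w3, w4⟩ := (mem_filter.1 hj').2
  obtain ⟨ha1, ha2⟩ := mem_filter.1 ha
  obtain ⟨ha1', ha2'⟩ := mem_filter.1 ha'
  obtain ⟨hn1, rfl⟩ := mem_filter.1 hn
  obtain ⟨hn1', rfl⟩ := mem_filter.1 hn'
  have k0 : (0 : ℝ) < K := by exact_mod_cast hK1
  have e1 : a' ≤ a + bl H K := by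
    have h1 := Nat.lt_mul_div_succ a' (bl_pos H K)
    have h2 := Nat.mul_div_le a (bl H K)
    rw [ha2'] at h1
    rw [ha2] at h2
    rw [mul_add, mul_one] at h1
    omega
  have e2 : ((n / bl N K : ℕ) : ℝ) * bl N K ≤ n := by exact_mod_cast Nat.div_mul_le_self n _
  have e3 : (n' : ℝ) ≤ bl N K * ((n' / bl N K : ℕ) + 1) := by
    exact_mod_cast (Nat.lt_mul_div_succ n' (bl_pos N K)).le
  have e4 : (a' : ℝ) ≤ a + bl H K := by exact_mod_cast e1
  have e5 := bl_le hK1 hKH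
  have e6 := le_bl N hK1
  have e7 : (a : ℝ) * n ≤ x + H := by exact_mod_cast w2
  have e8 : (x : ℝ) < a' * n' := by exact_mod_cast w3
  have e9 : (n' : ℝ) ≤ N := by exact_mod_cast hS.hi n' hn1'
  have a0 : (0 : ℝ) < a := by exact_mod_cast hA.pos a ha1
  have b0 : (0 : ℝ) < bl N K := by exact_mod_cast bl_pos N K
  have n0 : (0 : ℝ) ≤ n' := Nat.cast_nonneg _
  have l1 := hA.lo a ha1
  have kn : (K : ℝ) ≤ N := by exact_mod_cast hKH.trans hHN
  have b1 : (1 : ℝ) ≤ bl N K := by exact_mod_cast bl_pos N K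
  have h0 : (0 : ℝ) ≤ H := Nat.cast_nonneg _
  have f1 : (bl H K : ℝ) * n' ≤ 2 * H * bl N K := by
    calc (bl H K : ℝ) * n' ≤ 2 * H / K * N := mul_le_mul e5 e9 n0 (by positivity)
      _ = 2 * H * (N / K) := by ring
      _ ≤ 2 * H * bl N K := mul_le_mul_of_nonneg_left e6 (by positivity)
  have f2 : (a : ℝ) * (n - n') ≤ 3 * H * bl N K := by
    have := mul_le_mul_of_nonneg_right e4 n0
    have := mul_le_mul_of_nonneg_left b1 h0
    nlinarith
  have f3 : (n : ℝ) - n' ≤ 3 * lam * bl N K := by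
    refine le_of_mul_le_mul_left (f2.trans ?_) a0
    have := mul_le_mul_of_nonneg_right l1 b0.le
    linarith only [this]
  refine le_of_mul_le_mul_right ?_ b0
  linarith only [e2, e3, f3]

theorem minA {lam β : ℝ} {H N K : ℕ} {A S : Finset ℕ} (hl : 1 ≤ lam) (hA : Rg lam H A)
    (hS : Rg lam N S) (hK : 2 * lam ≤ K) (hKH : K ≤ H) (hHN : H ≤ N) (f : ℕ → ℕ → ℂ)
    (hf : ∀ a n, ‖f a n‖ ≤ 1) (x : ℕ) :
    ‖Sh A S (fun a n => f a n * ee ((a * n : ℕ) * β)) H x‖ ^ 2 ≤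
      10 * lam * K * ∑ i ∈ range K, ∑ j ∈ range K,
        ‖Sh (Blk A H K i) (Blk S N K j)
          (fun a n => f a n * nit (a * n) (2 * Real.pi * β * xb H N K i j)) H x‖ ^ 2
      + 2 * (24 * Real.pi * lam ^ 2 * H * (H * |β|) / K) ^ 2 := by
  have hK1 : 1 ≤ K := by
    have : (1 : ℝ) ≤ K := by linarith only [hl, hK]
    exact_mod_cast this
  have split : ∀ {E : Type} [AddCommMonoid E] (g : ℕ → ℕ → E), ∑ a ∈ A, ∑ n ∈ S, g a n =
      ∑ i ∈ range K, ∑ j ∈ range K, ∑ a ∈ Blk A H K i, ∑ n ∈ Blk S N K j, g a n := by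
    intro E _ g
    rw [sum_Blk hK1 hA.hi]
    refine sum_congr rfl fun i _ => ?_
    rw [sum_comm (s := range K)]
    exact sum_congr rfl fun a _ => sum_Blk hK1 hS.hi _
  set W : ℕ → ℕ → ℝ := fun i j => ‖Sh (Blk A H K i) (Blk S N K j)
    (fun a n => f a n * nit (a * n) (2 * Real.pi * β * xb H N K i j)) H x‖ with hW
  have h1 : ‖Sh A S (fun a n => f a n * ee ((a * n : ℕ) * β)) H x‖ ≤
      ∑ i ∈ range K, ∑ j ∈ range K, W i j + 24 * Real.pi * lam ^ 2 * H * (H * |β|) / K := by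
    have hc : 0 ≤ 2 * Real.pi * |β| * (H * (6 * lam / K)) := by positivity
    have h2 := (Sh_card (S := S) hl hA x).trans (mul_le_mul_of_nonneg_left
      (show (A.card : ℝ) ≤ H by exact_mod_cast hA.card) (by linarith only [hl]))
    have h3 := mul_le_mul_of_nonneg_left h2 hc
    rw [split, mul_sum] at h3
    rw [Sh, split]
    refine (norm_sum_le_of_le _ fun i _ => norm_sum_le_of_le _ fun j _ =>
      MinA_blk (i := i) (j := j) (β := β) hl hA hS hK hK1 hKH hHN f hf x).trans ?_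
    simp only [sum_add_distrib, ← mul_sum]
    rw [← mul_sum] at h3
    refine add_le_add le_rfl (h3.trans_eq ?_)
    ring
  have h2 : ∀ i, (∑ j ∈ range K, W i j) ^ 2 ≤ 5 * lam * ∑ j ∈ range K, W i j ^ 2 := by
    intro i
    have e := sum_subset (f := W i) (filter_subset (fun j =>
      ∃ a ∈ Blk A H K i, ∃ n ∈ Blk S N K j, x < a * n ∧ a * n ≤ x + H) (range K))
      (fun j hj hj' => by
        rw [hW]
        refine norm_eq_zero.2 (sum_eq_zero fun a ha => sum_eq_zero fun n hn => if_neg fun h => ?_)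
        exact hj' (mem_filter.2 ⟨hj, a, ha, n, hn, h⟩))
    rw [← e]
    refine sq_sum_le_card_mul_sum_sq.trans (mul_le_mul (MinA_pairs hl hA hS hK1 hKH hHN x)
      (sum_le_sum_of_subset_of_nonneg (filter_subset _ _) fun _ _ _ => sq_nonneg _)
      (sum_nonneg fun _ _ => sq_nonneg _) (by linarith only [hl]))
  have h3 : (∑ i ∈ range K, ∑ j ∈ range K, W i j) ^ 2 ≤
      5 * lam * K * ∑ i ∈ range K, ∑ j ∈ range K, W i j ^ 2 := by
    refine sq_sum_le_card_mul_sum_sq.trans ?_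
    rw [card_range]
    refine (mul_le_mul_of_nonneg_left (sum_le_sum fun i _ => h2 i) (Nat.cast_nonneg K)).trans_eq ?_
    rw [← mul_sum]
    ring
  have h4 := pow_le_pow_left₀ (norm_nonneg _) h1 2
  generalize ∑ i ∈ range K, ∑ j ∈ range K, W i j = u at *
  generalize 24 * Real.pi * lam ^ 2 * H * (H * |β|) / K = v at *
  linarith only [h3, h4, sq_nonneg (u - v), sq_nonneg (u - v)]

end Pool.Agent.Work.MP_51e72e_nt.AV
end
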