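import Pool.Agent.Work.MP_51e72e_nt.AV.Short
import Pool.Agent.Work.MP_51e72e_nt.AV.Mom
import Pool.Agent.Work.MP_51e72e_nt.AV.HMc

/-! Minor arcs: the mean square of the blocks. -/

set_option autoImplicit false
open Finset Filter MeasureTheory Pool.Agent.Lib.MR Pool.Agent.Lib.LargeSieve
open Pool.Agent.Work.MP_678620_nt

namespace Pool.Agent.Work.MP_51e72e_nt.AV

lemma MinB_card {x h q ρ : ℕ} (S : Finset ℕ)
    (hS : ∀ a ∈ S, x ≤ a ∧ a < x + h ∧ a % q = ρ) : (S.card : ℝ) ≤ (h : ℝ) / q + 1 := by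
  have h1 : S.card ≤ (range (h / q + 1)).card := by
    refine card_le_card_of_injOn (fun a => (a - x) / q) (fun a ha => ?_)
      (fun a ha b hb hab => ?_)
    · obtain ⟨p1, p2, -⟩ := hS a ha
      simp only [coe_range, Set.mem_Iio]
      exact Nat.lt_succ_of_le (Nat.div_le_div_right (by omega))
    · obtain ⟨p1, -, p3⟩ := hS a ha
      obtain ⟨r1, -, r3⟩ := hS b hb
      have e : (a - x) % q = (b - x) % q := by
        have e1 : a ≡ b [MOD q] := p3.trans r3.symm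
        have e2 : (a - x) + x ≡ (b - x) + x [MOD q] := by
          rwa [Nat.sub_add_cancel p1, Nat.sub_add_cancel r1]
        exact Nat.ModEq.add_right_cancel' x e2
      have e3 := Nat.div_add_mod (a - x) q
      have e4 := Nat.div_add_mod (b - x) q
      simp only at hab
      rw [hab, e] at e3
      omega
  rw [card_range] at h1
  have h2 : ((h / q : ℕ) : ℝ) ≤ (h : ℝ) / q := Nat.cast_div_le
  have h3 : (S.card : ℝ) ≤ ((h / q + 1 : ℕ) : ℝ) := by exact_mod_cast h1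
  push_cast at h3
  linarith only [h2, h3]

lemma MinB_MS_le {ι : Type*} {s : Finset ι} {F : ℝ → ℂ} {G : ι → ℝ → ℂ} (hF : Trig F)
    (hG : ∀ σ, Trig (G σ)) (T : ℝ) {W : Set ℝ} (hW : MeasurableSet W) {c : ℝ}
    (h : ∀ u ∈ W, ‖F u‖ ^ 2 ≤ c * ∑ σ ∈ s, ‖G σ u‖ ^ 2) :
    MS T W F ≤ c * ∑ σ ∈ s, MS T W (G σ) := by
  unfold MS
  rw [← integral_finsetSum _ fun σ _ => (hG σ).integrable_sq _, ← integral_const_mul]
  exact setIntegral_mono_on (hF.integrable_sq _).integrableOn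
    ((integrable_finsetSum _ fun σ _ => (hG σ).integrable_sq _).const_mul _).integrableOn hW h

lemma MinB_meas {Φ : ℝ → ℝ} (hΦ : Continuous Φ) (a Y : ℝ) :
    MeasurableSet {u : ℝ | a < Φ u ∧ |u| ≤ Y} :=
  (measurableSet_lt measurable_const hΦ.measurable).inter
    (measurableSet_le continuous_abs.measurable measurable_const)

lemma MinB_split {ι : Type*} {s : Finset ι} {F : ℝ → ℂ} {G : ι → ℝ → ℂ} (hF : Trig F)
    (hG : ∀ σ, Trig (G σ)) {Φ : ℝ → ℝ} (hΦ : Continuous Φ) (T : ℝ) {q P a B Y : ℝ}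
    (hq : 0 ≤ q) (ha : 0 ≤ a) (hY : 0 < Y)
    (h : ∀ u, ‖F u‖ ^ 2 ≤ q * Φ u * ∑ σ ∈ s, ‖G σ u‖ ^ 2) (hP : ∀ u, Φ u ≤ P)
    (hB : ∀ u, ‖F u‖ ≤ B) :
    MS T Set.univ F ≤ q * a * ∑ σ ∈ s, MS T Set.univ (G σ) +
      q * P * ∑ σ ∈ s, MS T {u : ℝ | a < Φ u ∧ |u| ≤ Y} (G σ) + B ^ 2 * (2 * T ^ 2 / Y) := by
  have hsub : (Set.univ : Set ℝ) ⊆
      ({u : ℝ | Φ u ≤ a} ∪ {u : ℝ | a < Φ u ∧ |u| ≤ Y}) ∪ {u : ℝ | Y < |u|} := by
    intro u _
    simp only [Set.mem_union, Set.mem_ofPred_eq]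
    rcases le_or_gt (Φ u) a with h1 | h1
    · exact Or.inl (Or.inl h1)
    · rcases le_or_gt |u| Y with h2 | h2
      · exact Or.inl (Or.inr ⟨h1, h2⟩)
      · exact Or.inr h2
  have s0 : ∀ u, 0 ≤ ∑ σ ∈ s, ‖G σ u‖ ^ 2 := fun u => sum_nonneg fun _ _ => by positivity
  have m1 : MeasurableSet {u : ℝ | Φ u ≤ a} := measurableSet_le hΦ.measurable measurable_const
  have m3 : MeasurableSet {u : ℝ | Y < |u|} :=
    measurableSet_lt measurable_const continuous_abs.measurable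
  have b1 : MS T {u : ℝ | Φ u ≤ a} F ≤ q * a * ∑ σ ∈ s, MS T Set.univ (G σ) := by
    refine (MinB_MS_le (s := s) (c := q * a) hF hG T m1 fun u hu => (h u).trans ?_).trans ?_
    · exact mul_le_mul_of_nonneg_right (mul_le_mul_of_nonneg_left hu hq) (s0 u)
    · exact mul_le_mul_of_nonneg_left
        (sum_le_sum fun σ _ => MS_mono (hG σ) T (Set.subset_univ _)) (mul_nonneg hq ha)
  have b2 : MS T {u : ℝ | a < Φ u ∧ |u| ≤ Y} F ≤
      q * P * ∑ σ ∈ s, MS T {u : ℝ | a < Φ u ∧ |u| ≤ Y} (G σ) :=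
    MinB_MS_le hF hG T (MinB_meas hΦ a Y) fun u _ => (h u).trans
      (mul_le_mul_of_nonneg_right (mul_le_mul_of_nonneg_left (hP u) hq) (s0 u))
  have b3 : MS T {u : ℝ | Y < |u|} F ≤ B ^ 2 * (2 * T ^ 2 / Y) :=
    (MS_le_const hF T m3 fun u _ => hB u).trans
      (mul_le_mul_of_nonneg_left (cm_tail T hY) (sq_nonneg B))
  have b4 := MS_mono hF T hsub
  have b5 := MS_union_le hF T ({u : ℝ | Φ u ≤ a} ∪ {u : ℝ | a < Φ u ∧ |u| ≤ Y}) {u : ℝ | Y < |u|}
  have b6 := MS_union_le hF T {u : ℝ | Φ u ≤ a} {u : ℝ | a < Φ u ∧ |u| ≤ Y}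
  linarith only [b1, b2, b3, b4, b5, b6]

lemma MinB_cheb {q n : ℕ} {P : ℕ → ℝ → ℂ} (hP : ∀ ρ, Trig (P ρ)) (T : ℝ) {U : Set ℝ}
    (hU : MeasurableSet U) {a E : ℝ} (ha : 0 < a)
    (h : ∀ u ∈ U, a < ∑ ρ ∈ range q, ‖P ρ u‖ ^ 2)
    (hE : ∀ ρ ∈ range q, MS T Set.univ (fun u => P ρ u ^ (n + 1)) ≤ E) :
    (cm T).real U ≤ (q : ℝ) ^ (n + 1) * E / a ^ (n + 1) := by
  have a1 : 0 < a ^ (n + 1) := pow_pos ha _
  rw [← MS_one]
  refine (MinB_MS_le (s := range q) (c := (q : ℝ) ^ n / a ^ (n + 1))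
    (G := fun ρ u => P ρ u ^ (n + 1)) (Trig.const 1) (fun ρ => (hP ρ).pow _) T hU
    fun u hu => ?_).trans ?_
  · have h1 := pow_le_pow_left₀ ha.le (h u hu).le (n + 1)
    have h2 := pow_sum_le_card_mul_sum_pow (s := range q) (f := fun ρ => ‖P ρ u‖ ^ 2)
      (fun _ _ => by positivity) n
    rw [card_range] at h2
    have h3 : ∑ ρ ∈ range q, (‖P ρ u‖ ^ 2) ^ (n + 1) = ∑ ρ ∈ range q, ‖P ρ u ^ (n + 1)‖ ^ 2 :=
      sum_congr rfl fun ρ _ => by rw [norm_pow, ← pow_mul, ← pow_mul, mul_comm]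
    rw [norm_one, one_pow, div_mul_eq_mul_div, le_div_iff₀ a1, one_mul, ← h3]
    exact h1.trans h2
  · have h1 : ∑ ρ ∈ range q, MS T U (fun u => P ρ u ^ (n + 1)) ≤ q * E := by
      have := sum_le_card_nsmul (range q) (fun ρ => MS T U (fun u => P ρ u ^ (n + 1))) E
        fun ρ hρ => (MS_mono ((hP ρ).pow _) T (Set.subset_univ _)).trans (hE ρ hρ)
      simpa using this
    refine (mul_le_mul_of_nonneg_left h1 (by positivity)).trans_eq ?_
    rw [pow_succ (q : ℝ)]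
    ring

lemma MinB_DP_shift (S : Finset ℕ) (g : ℕ → ℂ) (t u : ℝ) :
    DP S (fun n => g n * nit n t) u = DP S g (u + t) := by
  unfold DP
  refine sum_congr rfl fun n _ => ?_
  rw [nit_add]
  ring

lemma MinB_classes (S : Finset ℕ) {q : ℕ} (hq : 1 ≤ q) :
    ∑ σ ∈ range q, ((S.filter fun n => n % q = σ).card : ℝ) = S.card := by
  have := card_eq_sum_card_fiberwise (s := S) (t := range q) (f := fun n => n % q)
    fun n _ => mem_coe.2 (mem_range.2 (Nat.mod_lt n hq))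
  rw [this]
  push_cast
  rfl

lemma MinB_sq_le (S : Finset ℕ) {g : ℕ → ℂ} (hg : ∀ n, ‖g n‖ ≤ 1) :
    ∑ n ∈ S, ‖g n‖ ^ 2 ≤ S.card := by
  have := sum_le_card_nsmul S (fun n => ‖g n‖ ^ 2) 1
    fun n _ => pow_le_one₀ (norm_nonneg _) (hg n)
  simpa using this

lemma MinB_tw {g : ℕ → ℂ} (hg : ∀ n, ‖g n‖ ≤ 1) (t : ℝ) (n : ℕ) : ‖g n * nit n t‖ ≤ 1 := by
  rw [norm_mul, norm_nit, mul_one]
  exact hg n

lemma MinB_blk {A : Finset ℕ} {M K i a : ℕ} (ha : a ∈ Blk A M K i) :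
    a ∈ A ∧ i * bl M K ≤ a ∧ a < i * bl M K + bl M K := by
  obtain ⟨h1, rfl⟩ := mem_filter.1 ha
  refine ⟨h1, Nat.div_mul_le_self _ _, ?_⟩
  have := Nat.lt_mul_div_succ a (bl_pos M K)
  rw [mul_comm, add_mul, one_mul] at this
  exact this

/-- The sum of squares over the classes of a block. -/
noncomputable def MinB_Phi (A : Finset ℕ) (q : ℕ) (b : ℕ → ℂ) (t u : ℝ) : ℝ :=
  ∑ ρ ∈ range q, ‖DP (A.filter fun a => a % q = ρ) (fun a => b a * nit a t) u‖ ^ 2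

lemma MinB_Phi_cont (A : Finset ℕ) (q : ℕ) (b : ℕ → ℂ) (t : ℝ) :
    Continuous (MinB_Phi A q b t) :=
  continuous_finsetSum _ fun _ _ => ((Trig.DP _ _).1.norm).pow 2

/-- One pair of blocks. -/
lemma MinB_pair {q : ℕ} (hq : 1 ≤ q) {r : ℤ} (hr : IsCoprime r q) {A S : Finset ℕ} {H N : ℕ}
    (hN : 1 ≤ N) (hA : A ⊆ Icc 1 H) (hS : S ⊆ Icc 1 N) {b g : ℕ → ℂ} (hb : ∀ a, ‖b a‖ ≤ 1)
    (hg : ∀ n, ‖g n‖ ≤ 1) {M a Y : ℝ} (ha : 0 ≤ a) (hY : 0 < Y)
    (hM : ∀ ρ, ((A.filter fun a => a % q = ρ).card : ℝ) ≤ M) (t : ℝ) :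
    MS N Set.univ (BD A S fun a n =>
        b a * g n * ee ((a * n : ℕ) * ((r : ℝ) / q)) * nit (a * n) t) ≤
      q * a * (3 * Real.pi * N * S.card) +
        q * (q * M ^ 2) * ∑ σ ∈ range q, MS N {u : ℝ | a < MinB_Phi A q b t u ∧ |u| ≤ Y}
          (fun u => DP (S.filter fun n => n % q = σ) g (u + t)) +
        ((H : ℝ) * N) ^ 2 * (2 * (N : ℝ) ^ 2 / Y) := by
  have hA1 : ∀ a ∈ A, 1 ≤ a := fun a ha => (mem_Icc.1 (hA ha)).1
  have hS1 : ∀ n ∈ S, 1 ≤ n := fun n hn => (mem_Icc.1 (hS hn)).1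
  have N0 : (0 : ℝ) < N := by exact_mod_cast hN
  have e : (BD A S fun a n => b a * g n * ee ((a * n : ℕ) * ((r : ℝ) / q)) * nit (a * n) t) =
      BD A S fun a n => (b a * nit a t) * (g n * nit n t) * ee ((a * n : ℕ) * ((r : ℝ) / q)) := by
    funext u
    unfold BD
    refine sum_congr rfl fun a ha => sum_congr rfl fun n hn => ?_
    beta_reduce
    rw [nit_mul (Nat.one_le_iff_ne_zero.1 (hA1 a ha)) (Nat.one_le_iff_ne_zero.1 (hS1 n hn)) t]
    ring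
  rw [e]
  have key := MinB_split (s := range q) (trig_BD A S fun a n =>
      (b a * nit a t) * (g n * nit n t) * ee ((a * n : ℕ) * ((r : ℝ) / q)))
    (G := fun σ => DP (S.filter fun n => n % q = σ) fun n => g n * nit n t)
    (fun _ => Trig.DP _ _) (MinB_Phi_cont A q b t) (N : ℝ) (q := q) (P := q * M ^ 2) (a := a)
    (B := (H : ℝ) * N) (Y := Y) (Nat.cast_nonneg q) ha hY
    (fun u => bil_class hq hr A S hA1 hS1 _ _ u) (fun u => ?_) (fun u => ?_)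
  · refine key.trans (add_le_add (add_le_add ?_ (le_of_eq ?_)) le_rfl)
    · refine mul_le_mul_of_nonneg_left ?_ (mul_nonneg (Nat.cast_nonneg q) ha)
      rw [← MinB_classes S hq, mul_sum]
      refine sum_le_sum fun σ _ => ?_
      refine (mean_value ((filter_subset _ _).trans hS) _ N0).trans ?_
      have := MinB_sq_le (S.filter fun n => n % q = σ) (MinB_tw hg t)
      refine (mul_le_mul_of_nonneg_left this (by positivity)).trans_eq ?_
      ring
    · congr 1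
      refine sum_congr rfl fun σ _ => ?_
      congr 1
      funext u
      exact MinB_DP_shift _ g t u
  · have := sum_le_card_nsmul (range q) (fun ρ =>
      ‖DP (A.filter fun a => a % q = ρ) (fun a => b a * nit a t) u‖ ^ 2) (M ^ 2)
      fun ρ _ => pow_le_pow_left₀ (norm_nonneg _)
        ((norm_DP_le_card _ (MinB_tw hb t) u).trans (hM ρ)) 2
    simpa [MinB_Phi] using this
  · have c1 : (A.card : ℝ) ≤ H := by
      have := card_le_card hA
      rw [Nat.card_Icc, Nat.add_sub_cancel] at this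
      exact_mod_cast this
    have c2 : (S.card : ℝ) ≤ N := by
      have := card_le_card hS
      rw [Nat.card_Icc, Nat.add_sub_cancel] at this
      exact_mod_cast this
    refine le_trans ?_ (mul_le_mul c1 c2 (Nat.cast_nonneg _) (Nat.cast_nonneg _))
    unfold BD
    refine (norm_sum_le _ _).trans ?_
    have := sum_le_card_nsmul A (fun a => ‖∑ n ∈ S, (b a * nit a t) * (g n * nit n t) *
        ee ((a * n : ℕ) * ((r : ℝ) / q)) * nit (a * n) u‖) (S.card : ℝ) fun a _ => by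
      refine (norm_sum_le _ _).trans ?_
      have := sum_le_card_nsmul S (fun n => ‖(b a * nit a t) * (g n * nit n t) *
          ee ((a * n : ℕ) * ((r : ℝ) / q)) * nit (a * n) u‖) 1 fun n _ => by
        rw [norm_mul, norm_mul, norm_mul, norm_nit, norm_ee, mul_one, mul_one]
        exact mul_le_one₀ (MinB_tw hb t a) (norm_nonneg _) (MinB_tw hg t n)
      simpa only [nsmul_eq_mul, mul_one] using this
    simpa only [nsmul_eq_mul] using this

/-- The measure of the bad set. -/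
lemma MinB_bad {κ c C : ℝ} {n : ℕ}
    (hm : ∀ (N q ρ lo hi : ℕ) (U M T : ℝ), 1 ≤ N → 1 ≤ q → q ≤ lo → (N : ℝ) ^ κ ≤ U →
      (hi : ℝ) ≤ q * U → U ^ (1 - c) ≤ M → ((hi : ℝ) - lo) / q + 1 ≤ M → 0 < T →
      T ≤ (N : ℝ) ^ 2 → ∀ S : Finset ℕ, (∀ a ∈ S, lo < a ∧ a ≤ hi ∧ a % q = ρ) →
      ∀ b : ℕ → ℂ, (∀ a, ‖b a‖ ≤ 1) →
        MS T Set.univ (fun u => DP S b u ^ (n + 1)) ≤ C * M ^ (2 * (n + 1)) * (1 + U / M) ^ 2)
    (hC : 0 ≤ C) {N H K q i : ℕ} {A : Finset ℕ} (hN : 1 ≤ N) (hq : 1 ≤ q) (hK : 1 ≤ K)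
    (hKH : K ≤ H) (hi : i < K) (hA : ∀ a ∈ A, q < a) (hU : (N : ℝ) ^ κ ≤ 2 * H / q)
    (hKU : 2 * (K : ℝ) ≤ (2 * H / q : ℝ) ^ c) {b : ℕ → ℂ} (hb : ∀ a, ‖b a‖ ≤ 1) {δ : ℝ}
    (hδ : 0 < δ) (t Y : ℝ) :
    (cm N).real {u : ℝ | δ * (q * ((bl H K : ℝ) / q + 1) ^ 2) < MinB_Phi (Blk A H K i) q b t u ∧
      |u| ≤ Y} ≤ 9 * C * (K : ℝ) ^ 2 / δ ^ (n + 1) := by
  have q0 : (0 : ℝ) < q := by exact_mod_cast hq
  have K1 : (1 : ℝ) ≤ K := by exact_mod_cast hK
  have K0 : (0 : ℝ) < K := by linarith only [K1]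
  have N1 : (1 : ℝ) ≤ N := by exact_mod_cast hN
  have H0 : (0 : ℝ) < H := by exact_mod_cast hK.trans hKH
  have b1 := le_bl H hK
  have b2 := bl_le hK hKH
  have b3 := bl_pos H K
  set M : ℝ := (bl H K : ℝ) / q + 1 with hM
  set U : ℝ := 2 * H / q with hUd
  have U0 : 0 < U := by positivity
  have M0 : 0 < M := by positivity
  have UM : U ≤ 2 * K * M := by
    have h1 : (H : ℝ) ≤ K * bl H K := by
      rw [div_le_iff₀ K0] at b1
      linarith only [b1]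
    have h2 : U ≤ 2 * K * ((bl H K : ℝ) / q) := by
      rw [hUd, ← mul_div_assoc]
      exact div_le_div_of_nonneg_right (by linarith only [h1]) q0.le
    linarith only [K1, h2]
  have UM2 : U ^ (1 - c) ≤ M := by
    have p0 : 0 < U ^ c := Real.rpow_pos_of_pos U0 c
    rw [Real.rpow_sub U0, Real.rpow_one, div_le_iff₀ p0]
    linarith only [UM, hKU, M0, mul_nonneg_of_nonpos_of_nonpos (Mathlib.Tactic.Linarith.sub_nonpos_of_le hKU) (le_of_lt (Mathlib.Tactic.Linarith.sub_neg_of_lt M0))]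
  have hE : ∀ ρ ∈ range q, MS N Set.univ (fun u => DP ((Blk A H K i).filter fun a => a % q = ρ)
      (fun a => b a * nit a t) u ^ (n + 1)) ≤ C * M ^ (2 * (n + 1)) * (9 * (K : ℝ) ^ 2) := by
    intro ρ _
    have c1 : (((i + 1) * bl H K - 1 : ℕ) : ℝ) = (i + 1) * bl H K - 1 := by
      rw [Nat.cast_sub (Nat.mul_pos (Nat.succ_pos i) b3)]
      push_cast
      ring
    have c2 : (i : ℝ) * bl H K - 1 ≤ ((max (i * bl H K - 1) q : ℕ) : ℝ) := by
      have : i * bl H K ≤ max (i * bl H K - 1) q + 1 := by omega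
      have h2 : ((i * bl H K : ℕ) : ℝ) ≤ ((max (i * bl H K - 1) q + 1 : ℕ) : ℝ) := by
        exact_mod_cast this
      rw [Nat.cast_mul, Nat.cast_add, Nat.cast_one] at h2
      linarith only [h2]
    refine (hm N q ρ (max (i * bl H K - 1) q) ((i + 1) * bl H K - 1) U M N hN hq (le_max_right _ _)
      hU ?_ UM2 ?_ (by linarith only [N1]) (by linarith only [N1, mul_nonneg_of_nonpos_of_nonpos (Mathlib.Tactic.Linarith.sub_nonpos_of_le (Mathlib.Tactic.Linarith.natCast_nonneg ℝ N)) (Mathlib.Tactic.Linarith.sub_nonpos_of_le N1)]) _ (fun a ha => ?_) _ (MinB_tw hb t)).trans ?_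
    · have h1 : (i : ℝ) + 1 ≤ K := by exact_mod_cast hi
      have h2 : (q : ℝ) * U = 2 * H := by rw [hUd]; field_simp
      rw [le_div_iff₀ K0] at b2
      rw [c1, h2]
      (refine le_of_not_gt fun h_nl => ?_; linarith only [h_nl, K1, b2, h1, Nat.cast_nonneg (α := ℝ) (bl H K), mul_nonneg_of_nonpos_of_nonpos (Mathlib.Tactic.Linarith.sub_nonpos_of_le (Mathlib.Tactic.Linarith.natCast_nonneg ℝ K)) (le_of_lt (Mathlib.Tactic.Linarith.sub_neg_of_lt h_nl)), mul_nonneg_of_nonpos_of_nonpos (Mathlib.Tactic.Linarith.sub_nonpos_of_le (Mathlib.Tactic.Linarith.natCast_nonneg ℝ H)) (Mathlib.Tactic.Linarith.sub_nonpos_of_le h1), mul_nonneg_of_nonpos_of_nonpos (Mathlib.Tactic.Linarith.sub_nonpos_of_le (Mathlib.Tactic.Linarith.natCast_nonneg ℝ i)) (Mathlib.Tactic.Linarith.sub_nonpos_of_le b2)])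
    · rw [hM, c1]
      exact add_le_add (div_le_div_of_nonneg_right (by linarith only [c2]) q0.le) le_rfl
    · obtain ⟨h1, h2⟩ := mem_filter.1 ha
      obtain ⟨h3, h4, h5⟩ := MinB_blk h1
      have h6 := hA a h3
      refine ⟨by omega, ?_, h2⟩
      rw [add_mul, one_mul]
      omega
    · refine mul_le_mul_of_nonneg_left ?_ (by positivity)
      have h1 : U / M ≤ 2 * K := by rwa [div_le_iff₀ M0]
      have h2 : 0 ≤ U / M := by positivity
      linarith only [K1, h1, h2, mul_nonneg_of_nonpos_of_nonpos (Mathlib.Tactic.Linarith.sub_nonpos_of_le (Mathlib.Tactic.Linarith.natCast_nonneg ℝ K)) (Mathlib.Tactic.Linarith.sub_nonpos_of_le K1), mul_nonneg_of_nonpos_of_nonpos (Mathlib.Tactic.Linarith.sub_nonpos_of_le (Mathlib.Tactic.Linarith.natCast_nonneg ℝ K)) (Mathlib.Tactic.Linarith.sub_nonpos_of_le h1), mul_nonneg_of_nonpos_of_nonpos (Mathlib.Tactic.Linarith.sub_nonpos_of_le h1) (Mathlib.Tactic.Linarith.sub_nonpos_of_le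 h2)]
  refine (MinB_cheb (q := q) (n := n)
    (P := fun ρ => DP ((Blk A H K i).filter fun a => a % q = ρ) fun a => b a * nit a t)
    (fun _ => Trig.DP _ _) N (MinB_meas (MinB_Phi_cont _ q b t) _ Y)
    (a := δ * (q * M ^ 2)) (by positivity) (fun u hu => hu.1) hE).trans_eq ?_
  rw [mul_pow, mul_pow, ← pow_mul]
  field_simp

lemma MinB_xb {H N K i j : ℕ} (hK : 1 ≤ K) (hKH : K ≤ H) (hHN : H ≤ N) (hi : i < K)
    (hj : j < K) : 0 ≤ xb H N K i j ∧ xb H N K i j ≤ 4 * (N : ℝ) ^ 2 := by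
  refine ⟨Nat.cast_nonneg _, ?_⟩
  have K0 : (0 : ℝ) < K := by exact_mod_cast hK
  have b1 := bl_le hK hKH
  have b2 := bl_le hK (hKH.trans hHN)
  rw [le_div_iff₀ K0] at b1 b2
  have h1 : (i : ℝ) + 1 ≤ K := by exact_mod_cast hi
  have h2 : (j : ℝ) + 1 ≤ K := by exact_mod_cast hj
  have h3 : (H : ℝ) ≤ N := by exact_mod_cast hHN
  have p1 : ((i : ℝ) + 1) * bl H K ≤ 2 * N := by
    linarith only [b1, h3, h1, Nat.cast_nonneg (α := ℝ) (bl H K), mul_nonneg_of_nonpos_of_nonpos (Mathlib.Tactic.Linarith.sub_nonpos_of_le (Mathlib.Tactic.Linarith.natCast_nonneg ℝ (bl H K))) (Mathlib.Tactic.Linarith.sub_nonpos_of_le h1)]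
  have p2 : ((j : ℝ) + 1) * bl N K ≤ 2 * N := by
    linarith only [b2, h2, Nat.cast_nonneg (α := ℝ) (bl N K), mul_nonneg_of_nonpos_of_nonpos (Mathlib.Tactic.Linarith.sub_nonpos_of_le (Mathlib.Tactic.Linarith.natCast_nonneg ℝ (bl N K))) (Mathlib.Tactic.Linarith.sub_nonpos_of_le h2)]
  rw [xb]
  push_cast
  exact (mul_le_mul p1 p2 (by positivity) (by positivity)).trans_eq (by ring)

lemma MinB_t {N β x u : ℝ} (N4 : 4 ≤ N) (hβ : |β| ≤ 1) (x0 : 0 ≤ x) (x1 : x ≤ 4 * N ^ 2)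
    (hu : |u| ≤ N ^ 6) : |u + 2 * Real.pi * β * x| ≤ N ^ 7 := by
  have h1 : |2 * Real.pi * β * x| ≤ 32 * N ^ 2 := by
    rw [abs_mul, abs_mul, abs_of_nonneg x0, abs_of_nonneg Real.two_pi_pos.le]
    have h2 : 2 * Real.pi * |β| ≤ 8 := by
      linarith only [hβ, Real.pi_le_four, Real.pi_pos, abs_nonneg β, mul_nonneg_of_nonpos_of_nonpos (Mathlib.Tactic.Linarith.sub_nonpos_of_le hβ) (le_of_lt (Mathlib.Tactic.Linarith.sub_neg_of_lt Real.pi_pos))]
    exact (mul_le_mul h2 x1 x0 (by norm_num)).trans_eq (by ring)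
  have h3 : (4 : ℝ) ^ 4 ≤ N ^ 4 := pow_le_pow_left₀ (by norm_num) N4 4
  have h4 : 32 * N ^ 2 ≤ N ^ 4 * N ^ 2 := mul_le_mul_of_nonneg_right (by linarith) (by positivity)
  have h5 : 4 * N ^ 6 ≤ N * N ^ 6 := mul_le_mul_of_nonneg_right N4 (by positivity)
  have h6 : (0 : ℝ) ≤ N ^ 6 := by positivity
  linarith only [x0, x1, hu, h1, h4, h5, show N ^ 4 * N ^ 2 = N ^ 6 by ring, show N * N ^ 6 = N ^ 7 by ring,
    abs_add_le u (2 * Real.pi * β * x)]

lemma MinB_fin {H N K q δ D C P s₁ s₂ : ℝ} (N0 : 0 < N) (K0 : 0 < K) (q0 : 0 < q) (KN : K ≤ N)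
    (hδ : 0 ≤ δ) (hD : 0 ≤ D) (hC : 0 ≤ C) (hP : q * (q * P) ≤ 16 * H ^ 2 / K ^ 2)
    (a0 : 0 ≤ s₁) (a1 : s₁ ≤ N) (b0 : 0 ≤ s₂) (b1 : s₂ ≤ C * D * (2 * N / q) * N) :
    K * (q * (δ * (q * P)) * (3 * Real.pi * N * s₁)) + q * (q * P) * s₂ +
        K * (K * ((H * N) ^ 2 * (2 * N ^ 2 / N ^ 6))) ≤
      (200 + 32 * C) * (H ^ 2 * N ^ 2 / K) * (δ + D / (K * q) + 1 / N) := by
  have p0 := Real.pi_pos
  set X : ℝ := H ^ 2 * N ^ 2 / K with hX
  have X0 : 0 ≤ X := by positivity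
  have f1 : K * (q * (δ * (q * P)) * (3 * Real.pi * N * s₁)) ≤ 192 * X * δ :=
    calc _ = (K * δ) * ((q * (q * P)) * (3 * Real.pi * N * s₁)) := by ring
      _ ≤ (K * δ) * ((16 * H ^ 2 / K ^ 2) * (3 * 4 * N * N)) := by
          gcongr
          exact Real.pi_le_four
      _ = _ := by rw [hX]; field_simp; ring
  have f2 : q * (q * P) * s₂ ≤ 32 * C * X * (D / (K * q)) :=
    (mul_le_mul hP b1 b0 (by positivity)).trans_eq (by rw [hX]; field_simp; ring)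
  have f3 : K * (K * ((H * N) ^ 2 * (2 * N ^ 2 / N ^ 6))) ≤ 2 * X * (1 / N) :=
    calc _ = 2 * X * (1 / N) * (K / N) ^ 3 := by rw [hX]; field_simp
      _ ≤ _ := mul_le_of_le_one_right (by positivity)
          (pow_le_one₀ (by positivity) ((div_le_one N0).2 KN))
  have g1 : 0 ≤ X * δ := by positivity
  have g2 : 0 ≤ X * (D / (K * q)) := by positivity
  have g3 : 0 ≤ X * (1 / N) := by positivity
  have g4 : 0 ≤ C * (X * δ) := by positivity
  have g5 : 0 ≤ C * (X * (1 / N)) := by positivity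
  linarith only [f1, f2, f3, g1, g2, g3, g4, g5]

theorem minB {κ : ℝ} (hκ : 0 < κ) : ∃ c : ℝ, 0 < c ∧ c ≤ κ ∧ ∃ j : ℕ, ∃ C : ℝ, 1 ≤ C ∧
    ∀ᶠ N : ℕ in atTop, ∀ (H K q : ℕ) (r : ℤ) (lam β δ D : ℝ) (A S : Finset ℕ) (b g : ℕ → ℂ),
    1 ≤ lam → H ≤ N → Rg lam H A → Rg lam N S → 1 ≤ q → IsCoprime r q →
    (N : ℝ) ^ κ * q * lam ≤ H → 2 * lam ≤ K → (K : ℝ) ≤ (N : ℝ) ^ c → 0 < δ → δ ≤ 1 →
    1 ≤ δ ^ j * (N : ℝ) ^ c → |β| ≤ 1 → 1 ≤ D →
    (∀ j', (Blk S N K j').Nonempty → ∀ v,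
      ∑ i ∈ range K, wt N (v - 2 * Real.pi * β * xb H N K i j') ≤ D) →
    (∀ a, ‖b a‖ ≤ 1) → (∀ n, ‖g n‖ ≤ 1) →
      ∑ i ∈ range K, ∑ j' ∈ range K, MS N Set.univ (BD (Blk A H K i) (Blk S N K j') fun a n =>
          b a * g n * ee ((a * n : ℕ) * ((r : ℝ) / q)) *
            nit (a * n) (2 * Real.pi * β * xb H N K i j'))
        ≤ C * ((H : ℝ) ^ 2 * N ^ 2 / K) * (δ + D / (K * q) + 1 / N) := by
  obtain ⟨c1, c10, -, j, hj, C1, hC1, hm⟩ := mom hκ
  obtain ⟨n, rfl⟩ : ∃ n, j = n + 1 := ⟨j - 1, by omega⟩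
  obtain ⟨c2, c20, C2, hC2, hH⟩ := HMfam ⌈7 / κ⌉₊
  set c : ℝ := min κ (min (κ * c1 / 2) (κ * c2 / 8)) with hc
  have c0 : 0 < c := lt_min hκ (lt_min (by positivity) (by positivity))
  have ca : c ≤ κ := min_le_left _ _
  have cb : c ≤ κ * c1 / 2 := (min_le_right _ _).trans (min_le_left _ _)
  have cc : c ≤ κ * c2 / 8 := (min_le_right _ _).trans (min_le_right _ _)
  refine ⟨c, c0, ca, n + 1, 200 + 32 * C2, by linarith only [hC2], ?_⟩
  have ev : ∀ {y : ℝ}, 0 < y → ∀ Z : ℝ, ∀ᶠ N : ℕ in atTop, Z ≤ (N : ℝ) ^ y := fun hy Z =>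
    ((tendsto_rpow_atTop hy).comp tendsto_natCast_atTop_atTop).eventually_ge_atTop Z
  filter_upwards [eventually_ge_atTop 4, ev (y := κ * c1 / 2) (by positivity) 2,
    ev (y := κ * c2 / 2) (by positivity) (9 * C1)] with N hN4 hE1 hE2
  intro H K q r lam β δ D A S b g hlam hHN hA hS hq hr hκH hK hKc hδ hδ1 hδj hβ hD hov hb hg
  have N4 : (4 : ℝ) ≤ N := by exact_mod_cast hN4
  have N1 : (1 : ℝ) ≤ N := by linarith only [N4]
  have N0 : (0 : ℝ) < N := by linarith only [N4]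
  have hN : 1 ≤ N := by omega
  have q1 : (1 : ℝ) ≤ q := by exact_mod_cast hq
  have q0 : (0 : ℝ) < q := by linarith only [q1]
  have K1 : (1 : ℝ) ≤ K := by linarith only [hlam, hK]
  have K0 : (0 : ℝ) < K := by linarith only [hlam, hK]
  have hK1 : 1 ≤ K := by exact_mod_cast K1
  have HN : (H : ℝ) ≤ N := by exact_mod_cast hHN
  have W1 : 1 < (N : ℝ) ^ κ := Real.one_lt_rpow (by linarith only [N4]) hκ
  have KW : (K : ℝ) ≤ (N : ℝ) ^ κ := hKc.trans (Real.rpow_le_rpow_of_exponent_le N1 ca)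
  have WqH : (N : ℝ) ^ κ * q ≤ H := le_trans (le_mul_of_one_le_right (by positivity) hlam) hκH
  have KqH : (K : ℝ) * q ≤ H := (mul_le_mul_of_nonneg_right KW q0.le).trans WqH
  have KH : (K : ℝ) ≤ H := le_trans (le_mul_of_one_le_right K0.le q1) KqH
  have hKH : K ≤ H := by exact_mod_cast KH
  have big : ∀ {M : ℕ} {T : Finset ℕ}, H ≤ M → Rg lam M T → ∀ a ∈ T, q < a := by
    intro M T hM hT a ha
    have h1 := hT.lo a ha
    have h2 : (H : ℝ) ≤ M := by exact_mod_cast hM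
    have h3 : (N : ℝ) ^ κ * q * lam ≤ a * lam := by linarith only [hκH, h1, h2]
    have h4 : (N : ℝ) ^ κ * q ≤ a := le_of_mul_le_mul_right h3 (by linarith only [hlam])
    have h5 : (q : ℝ) < a := by linarith only [q1, h4, hlam, hK, KW, mul_nonneg_of_nonpos_of_nonpos (Mathlib.Tactic.Linarith.sub_nonpos_of_le (Mathlib.Tactic.Linarith.natCast_nonneg ℝ q)) (Mathlib.Tactic.Linarith.sub_nonpos_of_le hlam), mul_nonneg_of_nonpos_of_nonpos (Mathlib.Tactic.Linarith.sub_nonpos_of_le (Mathlib.Tactic.Linarith.natCast_nonneg ℝ q)) (Mathlib.Tactic.Linarith.sub_nonpos_of_le hK), mul_nonneg_of_nonpos_of_nonpos (Mathlib.Tactic.Linarith.sub_nonpos_of_le (Mathlib.Tactic.Linarith.natCast_nonneg ℝ q)) (Mathlib.Tactic.Linarith.sub_nonpos_of_le KW)]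
    exact_mod_cast h5
  have hU : (N : ℝ) ^ κ ≤ 2 * H / q := by
    rw [le_div_iff₀ q0]
    linarith only [hlam, hK, WqH, KH]
  have hKU : 2 * (K : ℝ) ≤ (2 * H / q : ℝ) ^ c1 := by
    have h1 : (K : ℝ) ≤ (N : ℝ) ^ (κ * c1 / 2) :=
      hKc.trans (Real.rpow_le_rpow_of_exponent_le N1 cb)
    calc 2 * (K : ℝ) ≤ (N : ℝ) ^ (κ * c1 / 2) * (N : ℝ) ^ (κ * c1 / 2) :=
          mul_le_mul hE1 h1 K0.le (by positivity)
      _ = ((N : ℝ) ^ κ) ^ c1 := by
          rw [← Real.rpow_add N0, ← Real.rpow_mul N0.le, add_halves]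
      _ ≤ _ := Real.rpow_le_rpow (by positivity) hU c10.le
  set M : ℝ := (bl H K : ℝ) / q + 1 with hM
  have M0 : 0 < M := by positivity
  have qM : q * M ≤ 4 * H / K := by
    have h1 := bl_le hK1 hKH
    have h2 : (q : ℝ) ≤ H / K := by
      rw [le_div_iff₀ K0]
      linarith only [KqH]
    have h3 : q * M = bl H K + q := by rw [hM]; field_simp
    have h4 : 0 ≤ (H : ℝ) / K := by positivity
    rw [mul_div_assoc] at h1 ⊢
    linarith only [q1, h1, h2, h3]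
  have qM2 : (q : ℝ) * (q * M ^ 2) ≤ 16 * (H : ℝ) ^ 2 / (K : ℝ) ^ 2 :=
    calc (q : ℝ) * ((q : ℝ) * M ^ 2) = ((q : ℝ) * M) ^ 2 := by ring
      _ ≤ (4 * (H : ℝ) / K) ^ 2 := pow_le_pow_left₀ (by positivity) qM 2
      _ = _ := by ring
  set V : ℕ := N / q + 1 with hV
  have NV : N < q * V := Nat.lt_mul_div_succ N hq
  have V1 : (N : ℝ) ^ κ ≤ V := by
    have h1 : (N : ℝ) ≤ q * V := by exact_mod_cast NV.le
    have h2 : (N : ℝ) ^ κ * q ≤ V * q := by linarith only [HN, WqH, h1]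
    exact le_of_mul_le_mul_right h2 q0
  have V2 : (V : ℝ) ≤ 2 * N / q := by
    have h1 : q ≤ N := by
      have : (q : ℝ) ≤ N := by linarith only [N4, HN, KqH, hlam, hK, mul_nonneg_of_nonpos_of_nonpos (Mathlib.Tactic.Linarith.sub_nonpos_of_le (Mathlib.Tactic.Linarith.natCast_nonneg ℝ q)) (Mathlib.Tactic.Linarith.sub_nonpos_of_le hlam), mul_nonneg_of_nonpos_of_nonpos (Mathlib.Tactic.Linarith.sub_nonpos_of_le (Mathlib.Tactic.Linarith.natCast_nonneg ℝ q)) (Mathlib.Tactic.Linarith.sub_nonpos_of_le hK)]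
      exact_mod_cast this
    exact bl_le hq h1
  set t : ℕ → ℕ → ℝ := fun i j' => 2 * Real.pi * β * xb H N K i j' with ht
  set U : ℕ → ℕ → Set ℝ := fun i j' =>
    {u : ℝ | δ * (q * M ^ 2) < MinB_Phi (Blk A H K i) q b (t i j') u ∧ |u| ≤ (N : ℝ) ^ 6} with hUd
  have cardS : ∑ j' ∈ range K, ((Blk S N K j').card : ℝ) ≤ N := by
    have h1 := sum_Blk (E := ℝ) hK1 hS.hi (fun _ => 1)
    simp only [sum_const, nsmul_eq_mul, mul_one] at h1
    rw [← h1]
    exact_mod_cast hS.card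
  have hHM : ∀ j' ∈ range K, ∑ i ∈ range K, ∑ σ ∈ range q, MS N (U i j')
      (fun u => DP ((Blk S N K j').filter fun n => n % q = σ) g (u + t i j')) ≤
        C2 * D * V * (Blk S N K j').card := by
    intro j' hj'
    rcases (Blk S N K j').eq_empty_or_nonempty with he | hne
    · simp [he, DP, MS]
    rw [sum_comm, ← MinB_classes _ hq, mul_sum]
    refine sum_le_sum fun σ _ => ?_
    refine (hH q σ V hq (Nat.succ_pos _) (range K) N D (fun i => t i j') (fun i => U i j') N0 hD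
      (fun i => MinB_meas (MinB_Phi_cont _ q b _) _ _) (fun i hi u hu => ?_) (hov j' hne) ?_ _
      (fun m hm => ?_) g).trans
      (mul_le_mul_of_nonneg_left (MinB_sq_le _ hg) (by positivity))
    · obtain ⟨x0, x1⟩ := MinB_xb hK1 hKH hHN (mem_range.1 hi) (mem_range.1 hj')
      have h1 := MinB_t N4 hβ x0 x1 hu.2
      have h3 : (N : ℝ) ^ 7 ≤ (V : ℝ) ^ ⌈7 / κ⌉₊ := by
        refine le_trans ?_ (pow_le_pow_left₀ (by positivity) V1 _)
        rw [← Real.rpow_natCast, ← Real.rpow_natCast, ← Real.rpow_mul N0.le]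
        refine Real.rpow_le_rpow_of_exponent_le N1 ?_
        have h4 := Nat.le_ceil (7 / κ)
        rw [div_le_iff₀ hκ] at h4
        push_cast
        linarith only [h4]
      exact h1.trans h3
    · have h1 := sum_le_card_nsmul (range K) (fun i => (cm N).real (U i j'))
        (9 * C1 * (K : ℝ) ^ 2 / δ ^ (n + 1)) fun i hi =>
          MinB_bad hm (by linarith only [hC1]) hN hq hK1 hKH (mem_range.1 hi) (big le_rfl hA) hU hKU hb hδ
            (t i j') _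
      rw [card_range, nsmul_eq_mul] at h1
      refine h1.trans ?_
      have d0 : 0 < δ ^ (n + 1) := pow_pos hδ _
      have h2 : 1 / δ ^ (n + 1) ≤ (N : ℝ) ^ c := by
        rw [div_le_iff₀ d0]
        linarith only [hδj]
      have h3 : (N : ℝ) ^ c ≤ (N : ℝ) ^ (κ * c2 / 8) := Real.rpow_le_rpow_of_exponent_le N1 cc
      calc (K : ℝ) * (9 * C1 * (K : ℝ) ^ 2 / δ ^ (n + 1))
          = 9 * C1 * ((K : ℝ) ^ 3 * (1 / δ ^ (n + 1))) := by ring
        _ ≤ (N : ℝ) ^ (κ * c2 / 2) * (((N : ℝ) ^ (κ * c2 / 8)) ^ 3 * (N : ℝ) ^ (κ * c2 / 8)) :=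
          mul_le_mul hE2 (mul_le_mul (pow_le_pow_left₀ K0.le (hKc.trans h3) 3) (h2.trans h3)
            (by positivity) (by positivity)) (by positivity) (by positivity)
        _ = ((N : ℝ) ^ κ) ^ c2 := by
          rw [← pow_succ, ← Real.rpow_natCast, ← Real.rpow_mul N0.le, ← Real.rpow_add N0,
            ← Real.rpow_mul N0.le]
          congr 1
          push_cast
          ring
        _ ≤ _ := Real.rpow_le_rpow (by positivity) V1 c20.le
    · obtain ⟨h1, h2⟩ := mem_filter.1 hm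
      have h3 := (mem_filter.1 h1).1
      exact ⟨(big hHN hS m h3).le, (hS.hi m h3).trans NV.le, h2⟩
  have hpair : ∀ i ∈ range K, ∀ j' ∈ range K,
      MS N Set.univ (BD (Blk A H K i) (Blk S N K j') fun a n =>
        b a * g n * ee ((a * n : ℕ) * ((r : ℝ) / q)) * nit (a * n) (t i j')) ≤
      q * (δ * (q * M ^ 2)) * (3 * Real.pi * N * (Blk S N K j').card) +
        q * (q * M ^ 2) * ∑ σ ∈ range q, MS N (U i j')
          (fun u => DP ((Blk S N K j').filter fun n => n % q = σ) g (u + t i j')) +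
        ((H : ℝ) * N) ^ 2 * (2 * (N : ℝ) ^ 2 / (N : ℝ) ^ 6) := fun i _ j' _ =>
    MinB_pair hq hr hN ((filter_subset _ _).trans hA.sub) ((filter_subset _ _).trans hS.sub) hb hg
      (by positivity) (by positivity) (fun ρ => MinB_card (x := i * bl H K) (ρ := ρ) _
        fun a ha => by
          obtain ⟨h1, h2⟩ := mem_filter.1 ha
          obtain ⟨-, h4, h5⟩ := MinB_blk h1
          exact ⟨h4, h5, h2⟩) (t i j')
  refine (sum_le_sum fun i hi => sum_le_sum fun j' hj' => hpair i hi j' hj').trans ?_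
  simp only [sum_add_distrib, sum_const, card_range, nsmul_eq_mul, ← mul_sum]
  rw [sum_comm]
  have s2 : ∑ j' ∈ range K, ∑ i ∈ range K, ∑ σ ∈ range q, MS N (U i j')
      (fun u => DP ((Blk S N K j').filter fun n => n % q = σ) g (u + t i j')) ≤
        C2 * D * (2 * N / q) * N := by
    refine (sum_le_sum hHM).trans ?_
    rw [← mul_sum]
    exact mul_le_mul (mul_le_mul_of_nonneg_left V2 (by positivity)) cardS
      (sum_nonneg fun _ _ => Nat.cast_nonneg _) (by positivity)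
  exact MinB_fin N0 K0 q0 (KH.trans HN) hδ.le (by linarith only [hD]) (by linarith only [hC2]) qM2
    (sum_nonneg fun _ _ => Nat.cast_nonneg _) cardS
    (sum_nonneg fun _ _ => sum_nonneg fun _ _ => sum_nonneg fun _ _ => MS_nonneg _ _ _) s2

end Pool.Agent.Work.MP_51e72e_nt.AV
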