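import Pool.Agent.Work.MP_51e72e_nt.AV.MinA
import Pool.Agent.Work.MP_51e72e_nt.AV.MinB

/-! Minor arcs. -/

set_option autoImplicit false
open Finset Filter MeasureTheory Pool.Agent.Lib.MR Pool.Agent.Lib.LargeSieve
open Pool.Agent.Work.MP_678620_nt

namespace Pool.Agent.Work.MP_51e72e_nt.AV

/-- The conclusion of `minB` at one value of `N`. -/
def Minor_B (κ c : ℝ) (j : ℕ) (C : ℝ) (N : ℕ) : Prop :=
  ∀ (H K q : ℕ) (r : ℤ) (lam β δ D : ℝ) (A S : Finset ℕ) (b g : ℕ → ℂ),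
    1 ≤ lam → H ≤ N → Rg lam H A → Rg lam N S → 1 ≤ q → IsCoprime r q →
    (N : ℝ) ^ κ * q * lam ≤ H → 2 * lam ≤ K → (K : ℝ) ≤ (N : ℝ) ^ c → 0 < δ → δ ≤ 1 →
    1 ≤ δ ^ j * (N : ℝ) ^ c → |β| ≤ 1 → 1 ≤ D →
    (∀ j', (Blk S N K j').Nonempty → ∀ v,
      ∑ i ∈ range K, wt N (v - 2 * Real.pi * β * xb H N K i j') ≤ D) →
    (∀ a, ‖b a‖ ≤ 1) → (∀ n, ‖g n‖ ≤ 1) →
      ∑ i ∈ range K, ∑ j' ∈ range K, MS N Set.univ (BD (Blk A H K i) (Blk S N K j') fun a n =>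
          b a * g n * ee ((a * n : ℕ) * ((r : ℝ) / q)) *
            nit (a * n) (2 * Real.pi * β * xb H N K i j'))
        ≤ C * ((H : ℝ) ^ 2 * N ^ 2 / K) * (δ + D / (K * q) + 1 / N)

lemma Minor_small (m B : ℕ) {η : ℝ} (hη : 0 < η) : ∀ᶠ N : ℕ in atTop, ∀ lam : ℝ, 0 ≤ lam →
    lam ≤ Real.log N ^ B → 4 * lam ^ m ≤ (N : ℝ) ^ η := by
  have h := (isLittleO_log_rpow_rpow_atTop ((B * m : ℕ) : ℝ) hη).bound (c := 1 / 4) (by norm_num)
  filter_upwards [tendsto_natCast_atTop_atTop.eventually h] with N hN lam h0 h1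
  rw [Real.rpow_natCast, Real.norm_of_nonneg (pow_nonneg (Real.log_natCast_nonneg N) _),
    Real.norm_of_nonneg (by positivity), pow_mul] at hN
  linarith only [hN, h0, h1, pow_le_pow_left₀ h0 h1 m]

lemma Minor_D {lam β : ℝ} {H N K q : ℕ} {S : Finset ℕ} (hl : 1 ≤ lam) (hN : 1 ≤ N)
    (hq : 1 ≤ q) (hS : Rg lam N S) (hK : lam ^ 4 * (1 + H * |β|) ≤ K)
    (hm : lam ^ 8 ≤ q * (1 + H * |β|)) : ∃ D : ℝ, 1 ≤ D ∧ D / (K * q) ≤ 30 / lam ^ 7 ∧
    ∀ j', (Blk S N K j').Nonempty → ∀ v,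
      ∑ i ∈ range K, wt N (v - 2 * Real.pi * β * xb H N K i j') ≤ D := by
  have h0 : 0 ≤ H * |β| := by positivity
  have l4 : 1 ≤ lam ^ 4 := one_le_pow₀ hl
  have l7 : 1 ≤ lam ^ 7 := one_le_pow₀ hl
  have l8 : lam ^ 8 = lam * lam ^ 7 := by ring
  have q1 : (1 : ℝ) ≤ q := by exact_mod_cast hq
  have K1 : (1 : ℝ) ≤ K := by linarith only [hK, h0, l4, mul_nonneg_of_nonpos_of_nonpos (Mathlib.Tactic.Linarith.sub_nonpos_of_le h0) (Mathlib.Tactic.Linarith.sub_nonpos_of_le l4)]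
  by_cases h : H * |β| ≤ 1
  · refine ⟨K, K1, ?_, fun j' _ v => ?_⟩
    · rw [div_le_div_iff₀ (by positivity) (by positivity)]
      have : lam ^ 7 ≤ 30 * q := by linarith only [hl, hm, q1, h, l7, mul_nonneg_of_nonpos_of_nonpos (Mathlib.Tactic.Linarith.sub_nonpos_of_le (Mathlib.Tactic.Linarith.natCast_nonneg ℝ q)) (Mathlib.Tactic.Linarith.sub_nonpos_of_le h), mul_nonneg_of_nonpos_of_nonpos (Mathlib.Tactic.Linarith.sub_nonpos_of_le hl) (Mathlib.Tactic.Linarith.sub_nonpos_of_le l7)]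
      linarith only [this, mul_nonneg_of_nonpos_of_nonpos (Mathlib.Tactic.Linarith.sub_nonpos_of_le (Mathlib.Tactic.Linarith.natCast_nonneg ℝ K)) (Mathlib.Tactic.Linarith.sub_nonpos_of_le this)]
    · simpa using sum_le_card_nsmul (range K) _ 1 fun i _ => wt_le_one _ _
  · rw [not_le] at h
    set K0 := H * |β| with hK0
    refine ⟨10 * (1 + lam * K / K0), ?_, ?_, fun j' ⟨n, hn⟩ v => ?_⟩
    · have : 0 ≤ lam * K / K0 := by positivity
      linarith only [this]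
    · have e : 10 * (1 + lam * K / K0) / (K * q) = 10 / (K * q) + 10 * lam / (K0 * q) := by
        field_simp
      have a1 : 10 / ((K : ℝ) * q) ≤ 10 / lam ^ 7 := by
        refine div_le_div_of_nonneg_left (by norm_num) (by positivity) ?_
        have : 1 + K0 ≤ K := by linarith only [l4, hK, h0, mul_nonneg_of_nonpos_of_nonpos (Mathlib.Tactic.Linarith.sub_nonpos_of_le l4) (Mathlib.Tactic.Linarith.sub_nonpos_of_le h0)]
        linarith only [hl, hm, this, l7, mul_nonneg_of_nonpos_of_nonpos (Mathlib.Tactic.Linarith.sub_nonpos_of_le (Mathlib.Tactic.Linarith.natCast_nonneg ℝ q)) (Mathlib.Tactic.Linarith.sub_nonpos_of_le this), mul_nonneg_of_nonpos_of_nonpos (Mathlib.Tactic.Linarith.sub_nonpos_of_le hl) (Mathlib.Tactic.Linarith.sub_nonpos_of_le l7)]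
      have a2 : 10 * lam / (K0 * q) ≤ 20 / lam ^ 7 := by
        rw [div_le_div_iff₀ (by positivity) (by positivity)]
        linarith only [hm, h, mul_nonneg_of_nonpos_of_nonpos (Mathlib.Tactic.Linarith.sub_nonpos_of_le (Mathlib.Tactic.Linarith.natCast_nonneg ℝ q)) (le_of_lt (Mathlib.Tactic.Linarith.sub_neg_of_lt h))]
      rw [e]
      calc _ ≤ 10 / lam ^ 7 + 20 / lam ^ 7 := add_le_add a1 a2
        _ = _ := by ring
    · obtain ⟨hn1, hj⟩ := mem_filter.1 hn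
      have N0 : (0 : ℝ) < N := by exact_mod_cast hN
      have hK1 : 1 ≤ K := by exact_mod_cast K1
      have b1 := le_bl H hK1
      have b2 : (N : ℝ) / lam ≤ ((j' : ℝ) + 1) * bl N K := by
        have e1 : n ≤ (j' + 1) * bl N K := by
          rw [← hj, mul_comm]; exact (Nat.lt_mul_div_succ n (bl_pos N K)).le
        have e2 : (n : ℝ) ≤ ((j' : ℝ) + 1) * bl N K := by exact_mod_cast e1
        rw [div_le_iff₀ (by positivity)]
        linarith only [e2, hS, hn1, hl, hS.lo n hn1, mul_nonneg_of_nonpos_of_nonpos (Mathlib.Tactic.Linarith.sub_nonpos_of_le hl) (Mathlib.Tactic.Linarith.sub_nonpos_of_le e2)]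
      set s : ℝ := 2 * Real.pi * β * (bl H K * (((j' : ℝ) + 1) * bl N K)) with hs
      have hs1 : K0 * N / (K * lam) ≤ |s| := by
        rw [hs, abs_mul, abs_mul, abs_of_pos (by positivity : 0 < 2 * Real.pi),
          abs_of_nonneg (by positivity : (0 : ℝ) ≤ bl H K * (((j' : ℝ) + 1) * bl N K))]
        calc K0 * N / (K * lam) = 1 * |β| * (H / K * (N / lam)) := by rw [hK0]; field_simp
          _ ≤ _ := by
            gcongr
            linarith only [Real.pi_gt_three]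
      have hs0 : 0 < K0 * N / (K * lam) := by positivity
      have k := overlap N0 (abs_pos.1 (hs0.trans_le hs1)) K v
      have e : ∀ i : ℕ, 2 * Real.pi * β * xb H N K i j' = (i + 1) * s := fun i => by
        rw [xb, hs]; push_cast; ring
      simp only [e]
      refine k.trans ?_
      have : (N : ℝ) / |s| ≤ lam * K / K0 :=
        (div_le_div_of_nonneg_left N0.le hs0 hs1).trans_eq (by field_simp)
      linarith only [this]

lemma Minor_fac {lam : ℝ} {H N x₀ : ℕ} (hl : 1 ≤ lam) (hH : 1 ≤ H) (hN : 1 ≤ N)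
    (hx : H * N / (2 * lam ^ 2) ≤ x₀) :
    2 * (H : ℝ) ^ 2 / (Real.pi * x₀) + 8 * ((H * N : ℕ) + H + 1 + N) / (Real.pi * (N : ℝ) ^ 2) ≤
      12 * lam ^ 2 * H / N := by
  have H1 : (1 : ℝ) ≤ H := by exact_mod_cast hH
  have N1 : (1 : ℝ) ≤ N := by exact_mod_cast hN
  have l2 : 1 ≤ lam ^ 2 := one_le_pow₀ hl
  have p3 := Real.pi_gt_three.le
  have a1 : 2 * (H : ℝ) ^ 2 / (Real.pi * x₀) ≤ 2 * (H : ℝ) ^ 2 / (3 * (H * N / (2 * lam ^ 2))) := by
    gcongr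
  have a2 : 8 * (((H * N : ℕ) : ℝ) + H + 1 + N) / (Real.pi * (N : ℝ) ^ 2) ≤
      8 * (4 * lam ^ 2 * (H * N)) / (3 * (N : ℝ) ^ 2) := by
    gcongr
    push_cast
    have : (H : ℝ) * N + H + 1 + N ≤ 4 * (H * N) := by linarith only [H1, N1, mul_nonneg_of_nonpos_of_nonpos (Mathlib.Tactic.Linarith.sub_nonpos_of_le (Mathlib.Tactic.Linarith.natCast_nonneg ℝ H)) (Mathlib.Tactic.Linarith.sub_nonpos_of_le N1), mul_nonneg_of_nonpos_of_nonpos (Mathlib.Tactic.Linarith.sub_nonpos_of_le (Mathlib.Tactic.Linarith.natCast_nonneg ℝ N)) (Mathlib.Tactic.Linarith.sub_nonpos_of_le H1)]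
    linarith only [l2, this, mul_pos (by linarith : (0 : ℝ) < H) (by linarith : (0 : ℝ) < N), mul_nonneg_of_nonpos_of_nonpos (Mathlib.Tactic.Linarith.sub_nonpos_of_le (sq_nonneg lam)) (Mathlib.Tactic.Linarith.sub_nonpos_of_le this), mul_nonneg_of_nonpos_of_nonpos (Mathlib.Tactic.Linarith.sub_nonpos_of_le (Mathlib.Tactic.Linarith.natCast_nonneg ℝ H)) (Mathlib.Tactic.Linarith.sub_nonpos_of_le l2), mul_nonneg_of_nonpos_of_nonpos (Mathlib.Tactic.Linarith.sub_nonpos_of_le (Mathlib.Tactic.Linarith.natCast_nonneg ℝ N)) (Mathlib.Tactic.Linarith.sub_nonpos_of_le l2), mul_nonneg_of_nonpos_of_nonpos (Mathlib.Tactic.Linarith.sub_nonpos_of_le l2) (Mathlib.Tactic.Linarith.sub_nonpos_of_le this)]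
  refine (add_le_add a1 a2).trans_eq ?_
  field_simp
  ring

lemma Minor_step {κ c C lam β : ℝ} {j N H q : ℕ} {r : ℤ} (hB : Minor_B κ c j C N) (hc : c ≤ κ)
    (hC : 1 ≤ C) (hl : 3840 * C + 18432 ≤ lam) (hHN : H ≤ N) (hq : 1 ≤ q) (hr : IsCoprime r q)
    (h1 : (N : ℝ) ^ κ * q * lam ≤ H) (h2 : 2 * lam ^ 4 * (1 + H * |β|) ≤ (N : ℝ) ^ c)
    (h3 : lam ^ (7 * j) ≤ (N : ℝ) ^ c) (h4 : 4 * lam ^ 7 ≤ N) (hβ : |β| ≤ 1)
    (hm : lam ^ 8 ≤ q * (1 + H * |β|)) {A S : Finset ℕ} (hA : Rg lam H A) (hS : Rg lam N S)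
    {b g : ℕ → ℂ} (hb : ∀ a, ‖b a‖ ≤ 1) (hg : ∀ n, ‖g n‖ ≤ 1) :
    ∑ x ∈ range (H * N),
      ‖Sh A S (fun a n => b a * g n * ee ((a * n : ℕ) * ((r : ℝ) / q + β))) H x‖ ^ 2
        ≤ (H : ℝ) ^ 3 * N / lam ^ 3 := by
  have l2 : 2 ≤ lam := by linarith only [hC, hl]
  have l1 : 1 ≤ lam := by linarith only [hC, hl]
  have l7 : 1 ≤ lam ^ 7 := one_le_pow₀ l1
  have l4 : 1 ≤ lam ^ 4 := one_le_pow₀ l1
  have N1 : (1 : ℝ) ≤ N := by linarith only [h4, l7]
  have hN : 1 ≤ N := by exact_mod_cast N1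
  have q1 : (1 : ℝ) ≤ q := by exact_mod_cast hq
  have h0 : 0 ≤ H * |β| := by positivity
  set K := ⌈lam ^ 4 * (1 + H * |β|)⌉₊ with hK
  have K1 : lam ^ 4 * (1 + H * |β|) ≤ K := Nat.le_ceil _
  have K2 : (K : ℝ) ≤ (N : ℝ) ^ c := by
    have := (Nat.ceil_lt_add_one (by positivity : 0 ≤ lam ^ 4 * (1 + H * |β|))).le
    linarith only [h2, l4, h0, this, mul_nonneg_of_nonpos_of_nonpos (Mathlib.Tactic.Linarith.sub_nonpos_of_le l4) (Mathlib.Tactic.Linarith.sub_nonpos_of_le h0)]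
  have K3 : 2 * lam ≤ K := by
    have : 2 * lam ≤ lam ^ 4 := by
      have : lam ^ 4 = lam ^ 3 * lam := by ring
      have : 2 ^ 3 ≤ lam ^ 3 := pow_le_pow_left₀ (by norm_num) l2 3
      linarith only [hC, hl, this, mul_nonneg_of_nonpos_of_nonpos (Mathlib.Tactic.Linarith.sub_nonpos_of_le hC) (Mathlib.Tactic.Linarith.sub_nonpos_of_le this), mul_nonneg_of_nonpos_of_nonpos (Mathlib.Tactic.Linarith.sub_nonpos_of_le hl) (Mathlib.Tactic.Linarith.sub_nonpos_of_le this)]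
    linarith only [h0, K1, this, l4, mul_nonneg_of_nonpos_of_nonpos (Mathlib.Tactic.Linarith.sub_nonpos_of_le l4) (Mathlib.Tactic.Linarith.sub_nonpos_of_le h0)]
  have K0 : (0 : ℝ) < K := by linarith only [hC, hl, K3]
  have KH : (K : ℝ) ≤ H := by
    refine (K2.trans (Real.rpow_le_rpow_of_exponent_le N1 hc)).trans (le_trans ?_ h1)
    rw [mul_assoc]
    exact le_mul_of_one_le_right (by positivity) (by linarith only [q1, hC, hl, mul_nonneg_of_nonpos_of_nonpos (Mathlib.Tactic.Linarith.sub_nonpos_of_le (Mathlib.Tactic.Linarith.natCast_nonneg ℝ q)) (Mathlib.Tactic.Linarith.sub_nonpos_of_le hC), mul_nonneg_of_nonpos_of_nonpos (Mathlib.Tactic.Linarith.sub_nonpos_of_le (Mathlib.Tactic.Linarith.natCast_nonneg ℝ q)) (Mathlib.Tactic.Linarith.sub_nonpos_of_le hl)])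
  have H1 : (1 : ℝ) ≤ H := by linarith only [hC, hl, K3, KH]
  have hH : 1 ≤ H := by exact_mod_cast H1
  obtain ⟨D, D1, D2, D3⟩ := Minor_D l1 hN hq hS K1 hm
  have kB := hB H K q r lam β (1 / lam ^ 7) D A S b g l1 hHN hA hS hq hr h1 K3 K2 (by positivity)
    ((div_le_one (by positivity)).2 l7)
    (by rw [one_div, inv_pow, ← pow_mul, ← div_eq_inv_mul, one_le_div (by positivity)]; exact h3)
    hβ D1 D3 hb hg
  have kB2 := kB.trans (mul_le_mul_of_nonneg_left (c := 32 / lam ^ 7) (by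
    have : 1 / (N : ℝ) ≤ 1 / lam ^ 7 := one_div_le_one_div_of_le (by positivity) (by linarith only [h4, l7])
    calc _ ≤ 1 / lam ^ 7 + 30 / lam ^ 7 + 1 / lam ^ 7 := by linarith only [D2, this]
      _ = _ := by ring) (by positivity))
  set f : ℕ → ℕ → ℂ := fun a n => b a * g n * ee ((a * n : ℕ) * ((r : ℝ) / q)) with hf
  have hf1 : ∀ a n, ‖f a n‖ ≤ 1 := fun a n => by
    rw [hf]
    simp only [norm_mul, norm_ee, mul_one]
    exact mul_le_one₀ (hb a) (norm_nonneg _) (hg n)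
  have e : (fun a n : ℕ => b a * g n * ee ((a * n : ℕ) * ((r : ℝ) / q + β))) =
      fun a n => f a n * ee ((a * n : ℕ) * β) := by
    funext a n
    rw [mul_add, ee_add, ← mul_assoc]
  set x₀ := ⌈(H : ℝ) * N / (2 * lam ^ 2)⌉₊ with hx
  have x1 : 1 ≤ x₀ := Nat.one_le_ceil_iff.2 (by positivity)
  have z2 : 2 * lam ^ 2 ≤ N := by
    have : lam ^ 2 ≤ lam ^ 7 := pow_le_pow_right₀ l1 (by norm_num)
    linarith only [h4, l7, this]
  have err : 2 * (24 * Real.pi * lam ^ 2 * H * (H * |β|) / K) ^ 2 ≤ 18432 * H ^ 2 / lam ^ 4 := by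
    have a1 : H * |β| / K ≤ 1 / lam ^ 4 := by
      rw [div_le_div_iff₀ K0 (by positivity)]
      linarith only [l4, K1]
    have a2 : 24 * Real.pi * lam ^ 2 * H * (H * |β|) / K ≤ 24 * 4 * lam ^ 2 * H * (1 / lam ^ 4) := by
      rw [mul_div_assoc]
      gcongr
      exact Real.pi_le_four
    calc _ ≤ 2 * (24 * 4 * lam ^ 2 * H * (1 / lam ^ 4)) ^ 2 := by gcongr
      _ = _ := by field_simp; ring
  rw [e]
  calc ∑ x ∈ range (H * N), ‖Sh A S (fun a n => f a n * ee ((a * n : ℕ) * β)) H x‖ ^ 2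
      ≤ ∑ x ∈ Icc x₀ (H * N), ‖Sh A S (fun a n => f a n * ee ((a * n : ℕ) * β)) H x‖ ^ 2 := by
        rw [← sum_filter_ne_zero]
        refine sum_le_sum_of_subset_of_nonneg (fun x hx' => ?_) fun _ _ _ => by positivity
        obtain ⟨hx', hne⟩ := mem_filter.1 hx'
        refine mem_Icc.2 ⟨?_, (mem_range.1 hx').le⟩
        by_contra hlt
        rw [Sh_zero l1 z2 hA hS _ (Nat.lt_ceil.1 (not_le.1 hlt))] at hne
        simp at hne
    _ ≤ ∑ x ∈ Icc x₀ (H * N), (10 * lam * K * ∑ i ∈ range K, ∑ j' ∈ range K,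
          ‖Sh (Blk A H K i) (Blk S N K j')
            (fun a n => f a n * nit (a * n) (2 * Real.pi * β * xb H N K i j')) H x‖ ^ 2
          + 18432 * H ^ 2 / lam ^ 4) :=
        sum_le_sum fun x _ => (minA l1 hA hS K3 (by exact_mod_cast KH) hHN f hf1 x).trans
          (add_le_add le_rfl err)
    _ ≤ 10 * lam * K * (12 * lam ^ 2 * H / N * (C * ((H : ℝ) ^ 2 * N ^ 2 / K) * (32 / lam ^ 7)))
          + H * N * (18432 * H ^ 2 / lam ^ 4) := by
        rw [sum_add_distrib, ← mul_sum, sum_const, nsmul_eq_mul]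
        refine add_le_add (mul_le_mul_of_nonneg_left ?_ (by positivity))
          (mul_le_mul_of_nonneg_right ?_ (by positivity))
        · refine le_trans ?_ (mul_le_mul_of_nonneg_left kB2 (by positivity))
          rw [sum_comm, mul_sum]
          refine sum_le_sum fun i _ => ?_
          rw [sum_comm, mul_sum]
          refine sum_le_sum fun j' _ => ?_
          refine (Sh_le _ _ _ (by linarith only [h4, l7] : (0 : ℝ) < N) x1 (H * N) H fun a ha n hn => ?_).trans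
            (mul_le_mul_of_nonneg_right (Minor_fac l1 hH hN (Nat.le_ceil _)) (MS_nonneg _ _ _))
          have ha := (mem_filter.1 ha).1
          have hn := (mem_filter.1 hn).1
          exact ⟨Nat.mul_pos (hA.pos a ha) (hS.pos n hn),
            (Nat.mul_le_mul (hA.hi a ha) (hS.hi n hn)).trans (Nat.le_add_right _ _)⟩
        · have : (Icc x₀ (H * N)).card ≤ H * N := by
            rw [Nat.card_Icc]
            omega
          exact_mod_cast this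
    _ = (H : ℝ) ^ 3 * N / lam ^ 3 * ((3840 * C + 18432) / lam) := by field_simp; ring
    _ ≤ _ := mul_le_of_le_one_right (by positivity) ((div_le_one (by positivity)).2 hl)

theorem minor {ε : ℝ} (hε : 0 < ε) (B : ℕ) : ∀ᶠ N : ℕ in atTop, ∀ (H : ℕ) (lam θ : ℝ),
    Par ε B N H lam → ¬ Major lam H θ → ∀ A S : Finset ℕ, Rg lam H A → Rg lam N S →
    ∀ b g : ℕ → ℂ, (∀ a, ‖b a‖ ≤ 1) → (∀ n, ‖g n‖ ≤ 1) →
      ∑ x ∈ range (H * N), ‖Sh A S (fun a n => b a * g n * ee ((a * n : ℕ) * θ)) H x‖ ^ 2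
        ≤ (H : ℝ) ^ 3 * N / lam ^ 3 := by
  obtain ⟨c1, c10, c1k, j1, C1, hC1, e1⟩ := minB (κ := ε / 4) (by positivity)
  obtain ⟨c', c0, ca, cb⟩ : ∃ c' : ℝ, 0 < c' ∧ c' ≤ c1 / 2 ∧ c' ≤ 1 / 2 :=
    ⟨min (c1 / 2) (1 / 2), by positivity, min_le_left _ _, min_le_right _ _⟩
  obtain ⟨c2, c20, c2k, j2, C2, hC2, e2⟩ := minB (κ := ε * c' / 2) (by positivity)
  have el : ∀ᶠ N : ℕ in atTop, 3840 * (C1 + C2) + 18432 ≤ Real.log N :=
    (Real.tendsto_log_atTop.comp tendsto_natCast_atTop_atTop).eventually_ge_atTop _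
  filter_upwards [e1, e2, el, Minor_small 1 B (η := ε / 4) (by positivity),
    Minor_small 1 B (η := ε * c' / 2) (by positivity), Minor_small 4 B (η := c1 / 2) (by positivity),
    Minor_small 4 B c20, Minor_small (7 * j1) B c10, Minor_small (7 * j2) B c20,
    Minor_small 7 B one_pos, eventually_ge_atTop 1] with N e1 e2 el s1 s2 s3 s4 s5 s6 s7 hN
  intro H lam θ hP hM A S hA hS b g hb hg
  have hl := el.trans hP.lam_lo
  have l1 : 1 ≤ lam := by linarith only [hC1, c0, cb, hC2, hl]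
  have l0 : 0 ≤ lam := by linarith only [hC1, c0, cb, hC2, hl]
  replace s1 := s1 lam l0 hP.lam_hi
  replace s2 := s2 lam l0 hP.lam_hi
  replace s3 := s3 lam l0 hP.lam_hi
  replace s4 := s4 lam l0 hP.lam_hi
  replace s5 := s5 lam l0 hP.lam_hi
  replace s6 := s6 lam l0 hP.lam_hi
  replace s7 := s7 lam l0 hP.lam_hi
  rw [Real.rpow_one] at s7
  rw [pow_one] at s1 s2
  have N1 : (1 : ℝ) ≤ N := by exact_mod_cast hN
  have H1 : (1 : ℝ) ≤ H := (Real.one_le_rpow N1 hε.le).trans hP.H_lo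
  have H0 : (0 : ℝ) < H := by linarith only [c0, cb, H1]
  have HN : (H : ℝ) ≤ N := by exact_mod_cast hP.H_hi
  have hp : ∀ t : ℝ, 0 ≤ t → (N : ℝ) ^ (ε * t / 2) * (N : ℝ) ^ (ε * t / 2) ≤ (H : ℝ) ^ t := fun t ht => by
    rw [← Real.rpow_add (by linarith only [c0, cb, N1]), add_halves, Real.rpow_mul (by linarith only [c0, cb, N1])]
    exact Real.rpow_le_rpow (by positivity) hP.H_lo ht
  have sp : ∀ t : ℝ, (H : ℝ) ^ t * (H : ℝ) ^ (1 - t) = H := fun t => by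
    rw [← Real.rpow_add H0, add_sub_cancel, Real.rpow_one]
  have y1 : 1 ≤ (H : ℝ) ^ (1 - c') := Real.one_le_rpow H1 (by linarith only [c0, cb])
  obtain ⟨ρ, r1, r2⟩ := Real.exists_rat_abs_sub_le_and_den_le θ (Nat.floor_pos.2 y1)
  have q0 : 1 ≤ ρ.den := ρ.den_pos
  have q1 : (1 : ℝ) ≤ ρ.den := by exact_mod_cast q0
  have q2 : (ρ.den : ℝ) ≤ (H : ℝ) ^ (1 - c') :=
    le_trans (by exact_mod_cast r2) (Nat.floor_le (by positivity))
  have hr : IsCoprime ρ.num (ρ.den : ℤ) := Int.isCoprime_iff_gcd_eq_one.2 ρ.reduced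
  rw [Rat.cast_def] at r1
  obtain ⟨β, rfl⟩ : ∃ β : ℝ, θ = (ρ.num : ℝ) / ρ.den + β := ⟨_, (add_sub_cancel _ _).symm⟩
  rw [add_sub_cancel_left] at r1
  have r3 : |β| ≤ 1 / ((H : ℝ) ^ (1 - c') * ρ.den) :=
    r1.trans (by gcongr; exact (Nat.lt_floor_add_one _).le)
  have hβ : |β| ≤ 1 := r3.trans ((div_le_one (by positivity)).2 (by linarith only [q1, y1, mul_nonneg_of_nonpos_of_nonpos (Mathlib.Tactic.Linarith.sub_nonpos_of_le (Mathlib.Tactic.Linarith.natCast_nonneg ℝ ρ.den)) (Mathlib.Tactic.Linarith.sub_nonpos_of_le y1)]))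
  have r4 : H * |β| * ρ.den ≤ (H : ℝ) ^ c' := by
    rw [le_div_iff₀ (by positivity)] at r3
    calc H * |β| * ρ.den = (H : ℝ) ^ c' * (|β| * ((H : ℝ) ^ (1 - c') * ρ.den)) := by
          conv_lhs => rw [← sp c']
          ring
      _ ≤ _ := mul_le_of_le_one_right (by positivity) r3
  have h0 : 0 ≤ H * |β| := by positivity
  have hm : lam ^ 8 ≤ ρ.den * (1 + H * |β|) := by
    by_contra hc
    rw [not_le] at hc
    refine hM ⟨ρ.den, ρ.num, q0, by linarith only [hc, h0, mul_nonneg_of_nonpos_of_nonpos (Mathlib.Tactic.Linarith.sub_nonpos_of_le (Mathlib.Tactic.Linarith.natCast_nonneg ℝ ρ.den)) (Mathlib.Tactic.Linarith.sub_nonpos_of_le h0)], ?_⟩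
    rw [add_sub_cancel_left, le_div_iff₀ H0]
    (refine le_of_not_gt fun h_nl => ?_; linarith only [h_nl, cb, q1, c0, hc, h0, mul_pos_of_neg_of_neg (Mathlib.Tactic.Linarith.sub_neg_of_lt c0) (Mathlib.Tactic.Linarith.sub_neg_of_lt c0), mul_nonneg_of_nonpos_of_nonpos (le_of_lt (Mathlib.Tactic.Linarith.sub_neg_of_lt c0)) (Mathlib.Tactic.Linarith.sub_nonpos_of_le cb), mul_pos_of_neg_of_neg (Mathlib.Tactic.Linarith.sub_neg_of_lt c0) (Mathlib.Tactic.Linarith.sub_neg_of_lt hc), mul_pos_of_neg_of_neg (Mathlib.Tactic.Linarith.sub_neg_of_lt c0) (Mathlib.Tactic.Linarith.sub_neg_of_lt h_nl), mul_nonneg_of_nonpos_of_nonpos (Mathlib.Tactic.Linarith.sub_nonpos_of_le cb) (le_of_lt (Mathlib.Tactic.Linarith.sub_neg_of_lt hc)), mul_nonneg_of_nonpos_of_nonpos (Mathlib.Tactic.Linarith.sub_nonpos_of_le cb) (le_of_lt (Mathlib.Tactic.Linarith.sub_neg_of_lt h_nl)), mul_nonneg_of_nonpos_of_nonpos (Mathlib.Tactic.Linarith.sub_nonpos_of_le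 q1) (Mathlib.Tactic.Linarith.sub_nonpos_of_le h0)])
  have l4 : 0 ≤ lam ^ 4 := by positivity
  by_cases hq : (ρ.den : ℝ) ≤ (H : ℝ) ^ (1 / 2 : ℝ)
  · refine Minor_step (κ := ε / 4) e1 c1k hC1 (by linarith only [c0, cb, hC2, hl]) hP.H_hi q0 hr ?_ ?_
      (by linarith only [s5, l0, pow_nonneg l0 (7 * j1)]) s7 hβ hm hA hS hb hg
    · have k := hp (1 / 2) (by norm_num)
      rw [show ε * (1 / 2) / 2 = ε / 4 by ring] at k
      have k2 := sp (1 / 2)
      rw [show (1 : ℝ) - 1 / 2 = 1 / 2 by norm_num] at k2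
      calc (N : ℝ) ^ (ε / 4) * ρ.den * lam = (N : ℝ) ^ (ε / 4) * lam * ρ.den := by ring
        _ ≤ (N : ℝ) ^ (ε / 4) * (N : ℝ) ^ (ε / 4) * (H : ℝ) ^ (1 / 2 : ℝ) := by gcongr; linarith only [hC1, c0, cb, hC2, hl, s1]
        _ ≤ (H : ℝ) ^ (1 / 2 : ℝ) * (H : ℝ) ^ (1 / 2 : ℝ) := by gcongr
        _ = H := k2
    · have k1 : (H : ℝ) ^ c' ≤ (N : ℝ) ^ (c1 / 2) :=
        (Real.rpow_le_rpow H0.le HN c0.le).trans (Real.rpow_le_rpow_of_exponent_le N1 ca)
      have k2 : 1 ≤ (N : ℝ) ^ (c1 / 2) := Real.one_le_rpow N1 (by positivity)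
      have k3 : 1 + H * |β| ≤ 2 * (N : ℝ) ^ (c1 / 2) := by (refine le_of_not_gt fun h_nl => ?_; linarith only [h_nl, r4, k1, k2, c0, cb, q1, h0, mul_pos_of_neg_of_neg (Mathlib.Tactic.Linarith.sub_neg_of_lt c0) (Mathlib.Tactic.Linarith.sub_neg_of_lt h_nl), mul_nonneg_of_nonpos_of_nonpos (Mathlib.Tactic.Linarith.sub_nonpos_of_le cb) (le_of_lt (Mathlib.Tactic.Linarith.sub_neg_of_lt h_nl)), mul_nonneg_of_nonpos_of_nonpos (Mathlib.Tactic.Linarith.sub_nonpos_of_le q1) (Mathlib.Tactic.Linarith.sub_nonpos_of_le h0)])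
      calc 2 * lam ^ 4 * (1 + H * |β|) ≤ 2 * lam ^ 4 * (2 * (N : ℝ) ^ (c1 / 2)) := by gcongr
        _ = 4 * lam ^ 4 * (N : ℝ) ^ (c1 / 2) := by ring
        _ ≤ (N : ℝ) ^ (c1 / 2) * (N : ℝ) ^ (c1 / 2) := by gcongr
        _ = _ := by rw [← Real.rpow_add (by linarith only [c0, cb, N1]), add_halves]
  · rw [not_le] at hq
    refine Minor_step (κ := ε * c' / 2) e2 c2k hC2 (by linarith only [hC1, c0, cb, hl]) hP.H_hi q0 hr ?_ ?_
      (by linarith only [s4, s6, l4, pow_nonneg l0 (7 * j2)]) s7 hβ hm hA hS hb hg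
    · calc (N : ℝ) ^ (ε * c' / 2) * ρ.den * lam = (N : ℝ) ^ (ε * c' / 2) * lam * ρ.den := by ring
        _ ≤ (N : ℝ) ^ (ε * c' / 2) * (N : ℝ) ^ (ε * c' / 2) * (H : ℝ) ^ (1 - c') := by
          gcongr; linarith only [hC1, c0, cb, hC2, hl, s2]
        _ ≤ (H : ℝ) ^ c' * (H : ℝ) ^ (1 - c') := by gcongr; exact hp c' c0.le
        _ = H := sp c'
    · have k1 : (H : ℝ) ^ c' ≤ (H : ℝ) ^ (1 / 2 : ℝ) := Real.rpow_le_rpow_of_exponent_le H1 cb
      have k2 : H * |β| ≤ 1 := by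
        refine le_of_mul_le_mul_right ?_ (by linarith only [c0, cb, q1] : (0 : ℝ) < ρ.den)
        linarith only [r4, hq, k1]
      (refine le_of_not_gt fun h_nl => ?_; linarith only [h_nl, s4, c0, cb, q1, r4, l4, hq, k1, mul_nonneg_of_nonpos_of_nonpos (Mathlib.Tactic.Linarith.sub_nonpos_of_le (Mathlib.Tactic.Linarith.natCast_nonneg ℝ ρ.den)) (Mathlib.Tactic.Linarith.sub_nonpos_of_le s4), mul_pos_of_neg_of_neg (Mathlib.Tactic.Linarith.sub_neg_of_lt c0) (Mathlib.Tactic.Linarith.sub_neg_of_lt h_nl), mul_nonneg_of_nonpos_of_nonpos (Mathlib.Tactic.Linarith.sub_nonpos_of_le cb) (le_of_lt (Mathlib.Tactic.Linarith.sub_neg_of_lt h_nl)), mul_nonneg_of_nonpos_of_nonpos (Mathlib.Tactic.Linarith.sub_nonpos_of_le q1) (le_of_lt (Mathlib.Tactic.Linarith.sub_neg_of_lt h_nl)), mul_nonneg_of_nonpos_of_nonpos (Mathlib.Tactic.Linarith.sub_nonpos_of_le r4) (Mathlib.Tactic.Linarith.sub_nonpos_of_le l4), mul_nonneg_of_nonpos_of_nonpos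 (Mathlib.Tactic.Linarith.sub_nonpos_of_le l4) (le_of_lt (Mathlib.Tactic.Linarith.sub_neg_of_lt hq)), mul_nonneg_of_nonpos_of_nonpos (Mathlib.Tactic.Linarith.sub_nonpos_of_le l4) (Mathlib.Tactic.Linarith.sub_nonpos_of_le k1)])

end Pool.Agent.Work.MP_51e72e_nt.AV
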