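import Pool.Agent.Work.MP_51e72e_nt.AV.MinA

/-! Short sums and mean squares. -/

set_option autoImplicit false
open Finset Filter MeasureTheory Pool.Agent.Lib.MR Pool.Agent.Lib.LargeSieve
open Pool.Agent.Work.MP_678620_nt

namespace Pool.Agent.Work.MP_51e72e_nt.AV

theorem short3 (a : ℕ → ℂ) {T : ℝ} (hT : 0 < T) {x₀ : ℕ} (hx : 1 ≤ x₀) (X H : ℕ) :
    ∑ x ∈ Icc x₀ X, ‖∑ j ∈ range H, a (x + 1 + j)‖ ^ 2 ≤
      (2 * (H : ℝ) ^ 2 / (Real.pi * x₀) + 8 * (X + H + 1 + T) / (Real.pi * T ^ 2)) *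
        MS T Set.univ (DP (Icc 1 (X + H)) a) := by
  have hπ := Real.pi_pos
  have hx' : (0 : ℝ) < x₀ := by exact_mod_cast hx
  set w : ℕ → ℝ := fun j => ‖smo a T j‖ ^ 2 * (1 - ((j : ℝ) / (j + 1)) ^ (2 * T)) with hw
  have hρ : ∀ j : ℕ, x₀ ≤ j → 0 ≤ w j ∧
      ‖smo a T j * ((1 - ((j : ℝ) / (j + 1)) ^ T : ℝ) : ℂ)‖ ^ 2 ≤ T / x₀ * w j ∧
      ‖smo a T j‖ ^ 2 ≤ (j + 1 + T) / T * w j := by
    intro j hj
    obtain ⟨h1, h2, h3⟩ := ratio_bounds hT (hx.trans hj)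
    have h4 : ((j : ℝ) / (j + 1)) ^ T ≤ 1 :=
      le_trans (le_mul_of_one_le_right h1 (le_add_of_nonneg_right (by positivity))) h2
    have h5 : ((j : ℝ) / (j + 1)) ^ (2 * T) = (((j : ℝ) / (j + 1)) ^ T) ^ 2 := by
      rw [mul_comm, Real.rpow_mul (by positivity), Real.rpow_two]
    have h6 : T / j ≤ T / x₀ := by gcongr
    simp only [hw, h5]
    set r := ((j : ℝ) / (j + 1)) ^ T
    have h7 : 1 - r ≤ 1 - r ^ 2 := by linarith only [h1, h4, mul_nonneg_of_nonpos_of_nonpos (Mathlib.Tactic.Linarith.sub_nonpos_of_le h1) (Mathlib.Tactic.Linarith.sub_nonpos_of_le h4)]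
    refine ⟨mul_nonneg (by positivity) (by linarith only [h4, h7]), ?_, ?_⟩
    · rw [norm_mul, Complex.norm_real, Real.norm_of_nonneg (by linarith only [h4]), mul_pow, mul_left_comm]
      refine mul_le_mul_of_nonneg_left ?_ (by positivity)
      rw [sq (1 - r)]
      exact mul_le_mul (by linarith only [h6, h3]) h7 (by linarith only [h4]) (by positivity)
    · rw [mul_left_comm]
      refine le_mul_of_one_le_right (by positivity) ?_
      have h8 : r * (j + 1 + T) ≤ j + 1 := by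
        have e : r * ((j : ℝ) + 1 + T) = r * (1 + T / (j + 1)) * (j + 1) := by field_simp
        rw [e]
        exact mul_le_of_le_one_left (by positivity) h2
      have h9 : (0 : ℝ) ≤ j + 1 + T := by positivity
      rw [div_mul_eq_mul_div, le_div_iff₀ hT]
      linarith only [h8, h7, h9, mul_le_mul_of_nonneg_left h7 h9]
  have hW : Real.pi * T * ∑ j ∈ Icc x₀ (X + H), w j ≤ MS T Set.univ (DP (Icc 1 (X + H)) a) := by
    refine le_trans ?_ (sum_sq_le_MS (Icc 1 (X + H)) id (fun i hi => (mem_Icc.1 hi).1) a hT (X + H))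
    refine mul_le_mul_of_nonneg_left ?_ (by positivity)
    have e : ∀ j ∈ Icc 1 (X + H), ‖∑ i ∈ Icc 1 (X + H) with id i ≤ j,
        a i * (((((id i : ℕ) : ℝ) / j) ^ T : ℝ) : ℂ)‖ ^ 2 * (1 - ((j : ℝ) / (j + 1)) ^ (2 * T))
        = w j := fun j hj => by
      have : (Icc 1 (X + H)).filter (fun i => id i ≤ j) = Icc 1 j := by
        ext i; have := mem_Icc.1 hj; simp only [mem_filter, mem_Icc, id]; omega
      rw [this]; rfl
    rw [sum_congr rfl e]
    refine sum_le_sum_of_subset_of_nonneg (Icc_subset_Icc_left hx) fun j hj _ => ?_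
    refine mul_nonneg (by positivity)
      (sub_nonneg.2 (Real.rpow_le_one (by positivity) ?_ (by positivity)))
    exact div_le_one_of_le₀ (by linarith only []) (by positivity)
  have h1 : ∀ x ∈ Icc x₀ X, ‖∑ j ∈ range H, a (x + 1 + j)‖ ^ 2
      ≤ 2 * H * (T / x₀) * ∑ k ∈ range H, w (x + k) +
        (4 * ‖smo a T (x + H)‖ ^ 2 + 4 * ‖smo a T (x + 0)‖ ^ 2) := by
    intro x hxm
    obtain ⟨hx1, hx2⟩ := mem_Icc.1 hxm
    rw [sum_eq_smo a T, add_zero]
    set Z := ∑ k ∈ range H,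
      smo a T (x + k) * ((1 - (((x + k : ℕ) : ℝ) / ((x + k : ℕ) + 1)) ^ T : ℝ) : ℂ) with hZ
    have b3 : ‖Z‖ ^ 2 ≤ H * (T / x₀ * ∑ k ∈ range H, w (x + k)) := by
      refine (pow_le_pow_left₀ (norm_nonneg _) (norm_sum_le _ _) 2).trans
        (sq_sum_le_card_mul_sum_sq.trans ?_)
      rw [card_range]
      refine mul_le_mul_of_nonneg_left ?_ (by positivity)
      rw [mul_sum]
      exact sum_le_sum fun k _ => (hρ (x + k) (by omega)).2.1
    have b4 : ‖smo a T (x + H) - smo a T x + Z‖ ≤ ‖smo a T (x + H)‖ + ‖smo a T x‖ + ‖Z‖ :=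
      (norm_add_le _ _).trans (by linarith only [norm_sub_le (smo a T (x + H)) (smo a T x)])
    have b5 := pow_le_pow_left₀ (norm_nonneg _) b4 2
    linarith only [b3, b5, sq_nonneg (‖smo a T (x + H)‖ + ‖smo a T x‖ - ‖Z‖),
      sq_nonneg (‖smo a T (x + H)‖ - ‖smo a T x‖), sq_nonneg (‖smo a T (x + H)‖ - ‖smo a T x‖), sq_nonneg (‖smo a T (x + H)‖ + ‖smo a T x‖ - ‖Z‖)]
  have h2 : ∑ x ∈ Icc x₀ X, ∑ k ∈ range H, w (x + k) ≤ H * ∑ j ∈ Icc x₀ (X + H), w j := by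
    rw [sum_comm]
    calc _ ≤ ∑ _k ∈ range H, ∑ j ∈ Icc x₀ (X + H), w j := sum_le_sum fun k hk =>
          MRShort_shift le_rfl (by have := mem_range.1 hk; omega) fun j hj => (hρ j hj).1
      _ = _ := by simp
  refine (sum_le_sum h1).trans ?_
  rw [sum_add_distrib, ← mul_sum, sum_add_distrib, ← mul_sum, ← mul_sum, add_mul]
  refine add_le_add ?_ ?_
  · calc _ ≤ 2 * H * (T / x₀) * (H * ∑ j ∈ Icc x₀ (X + H), w j) := by gcongr
      _ = 2 * (H : ℝ) ^ 2 / (Real.pi * x₀) * (Real.pi * T * ∑ j ∈ Icc x₀ (X + H), w j) := by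
          field_simp
      _ ≤ _ := by gcongr
  · have h3 : ∑ j ∈ Icc x₀ (X + H), ‖smo a T j‖ ^ 2 ≤
        (X + H + 1 + T) / T * ∑ j ∈ Icc x₀ (X + H), w j := by
      rw [mul_sum]
      refine sum_le_sum fun j hj => (hρ j (mem_Icc.1 hj).1).2.2.trans ?_
      have c : (j : ℝ) ≤ X + H := by exact_mod_cast (mem_Icc.1 hj).2
      have c' := (hρ j (mem_Icc.1 hj).1).1
      gcongr
    have h4 := MRShort_shift (w := fun j => ‖smo a T j‖ ^ 2) (x₀ := x₀) (X := X) (Y := X + H)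
      (k := H) le_rfl le_rfl fun _ _ => sq_nonneg _
    have h5 := MRShort_shift (w := fun j => ‖smo a T j‖ ^ 2) (x₀ := x₀) (X := X) (Y := X + H)
      (k := 0) le_rfl (by omega) fun _ _ => sq_nonneg _
    calc _ ≤ 8 * ((X + H + 1 + T) / T * ∑ j ∈ Icc x₀ (X + H), w j) := by linarith only [h3, h4, h5]
      _ = 8 * (X + H + 1 + T) / (Real.pi * T ^ 2) *
          (Real.pi * T * ∑ j ∈ Icc x₀ (X + H), w j) := by field_simp
      _ ≤ _ := by gcongr

theorem Sh_le (A S : Finset ℕ) (f : ℕ → ℕ → ℂ) {T : ℝ} (hT : 0 < T) {x₀ : ℕ} (hx : 1 ≤ x₀)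
    (X H : ℕ) (h : ∀ a ∈ A, ∀ n ∈ S, 1 ≤ a * n ∧ a * n ≤ X + H) :
    ∑ x ∈ Icc x₀ X, ‖Sh A S f H x‖ ^ 2 ≤
      (2 * (H : ℝ) ^ 2 / (Real.pi * x₀) + 8 * (X + H + 1 + T) / (Real.pi * T ^ 2)) *
        MS T Set.univ (BD A S f) := by
  have e1 : DP (Icc 1 (X + H)) (fun m => ∑ a ∈ A, ∑ n ∈ S, if a * n = m then f a n else 0) =
      BD A S f := by
    funext u
    simp only [DP, BD, sum_mul]
    rw [sum_comm]
    refine sum_congr rfl fun a ha => ?_
    rw [sum_comm]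
    refine sum_congr rfl fun n hn => ?_
    simp only [ite_mul, zero_mul]
    rw [sum_ite_eq, if_pos (mem_Icc.2 (h a ha n hn))]
  have e2 : ∀ x, Sh A S f H x =
      ∑ j ∈ range H, ∑ a ∈ A, ∑ n ∈ S, if a * n = x + 1 + j then f a n else 0 := fun x => by
    rw [Sh, sum_comm (s := range H)]
    refine sum_congr rfl fun a _ => ?_
    rw [sum_comm]
    refine sum_congr rfl fun n _ => ?_
    split_ifs with c
    · rw [sum_eq_single (a * n - (x + 1)) (fun j _ hj => if_neg (by omega))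
        (fun hj => absurd (mem_range.2 (by omega)) hj), if_pos (by omega)]
    · exact (sum_eq_zero fun j hj => if_neg (by have := mem_range.1 hj; omega)).symm
  simp only [e2]
  rw [← e1]
  exact short3 (fun m => ∑ a ∈ A, ∑ n ∈ S, if a * n = m then f a n else 0) hT hx X H

lemma Short_ee {q : ℕ} (hq : 1 ≤ q) {x y : ℤ} (h : x ≡ y [ZMOD q]) :
    ee ((x : ℝ) / q) = ee ((y : ℝ) / q) := by
  obtain ⟨k, hk⟩ := h.dvd
  have h0 : (q : ℝ) ≠ 0 := by exact_mod_cast (by omega : q ≠ 0)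
  have e : (y : ℝ) = x + q * k := by exact_mod_cast (by linarith only [hk] : y = x + q * k)
  rw [← ee_add_int _ k, e]
  congr 1
  field_simp

theorem bil_class {q : ℕ} (hq : 1 ≤ q) {r : ℤ} (hr : IsCoprime r q) (A S : Finset ℕ)
    (hA : ∀ a ∈ A, 1 ≤ a) (hS : ∀ n ∈ S, 1 ≤ n) (c g : ℕ → ℂ) (u : ℝ) :
    ‖BD A S (fun a n => c a * g n * ee ((a * n : ℕ) * ((r : ℝ) / q))) u‖ ^ 2 ≤
      q * (∑ ρ ∈ range q, ‖DP (A.filter fun a => a % q = ρ) c u‖ ^ 2) *
        ∑ σ ∈ range q, ‖DP (S.filter fun n => n % q = σ) g u‖ ^ 2 := by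
  have hq0 : (0 : ℤ) < q := by exact_mod_cast hq
  obtain ⟨t, ht⟩ : ∃ t : ℕ → ℕ, ∀ σ, (t σ : ℤ) = r * σ % q :=
    ⟨fun σ => (r * σ % q).toNat, fun σ => Int.toNat_of_nonneg (Int.emod_nonneg _ hq0.ne')⟩
  have t1 : ∀ σ, t σ < q := fun σ => by
    have := Int.emod_lt_of_pos (r * σ) hq0
    rw [← ht] at this
    exact_mod_cast this
  have t2 : ∀ σ ∈ range q, ∀ σ' ∈ range q, t σ = t σ' ↔ σ = σ' := fun σ h1 σ' h2 => by
    refine ⟨fun e => ?_, fun e => e ▸ rfl⟩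
    have e1 : r * σ ≡ r * σ' [ZMOD q] := by
      rw [Int.ModEq, ← ht, ← ht, e]
    have e2 := e1.dvd
    rw [← mul_sub] at e2
    have e3 : (σ : ℤ) ≡ σ' [ZMOD q] := Int.modEq_iff_dvd.2 (hr.symm.dvd_of_dvd_mul_left e2)
    have e4 : σ ≡ σ' [MOD q] := Int.natCast_modEq_iff.1 e3
    exact e4.eq_of_lt_of_lt (mem_range.1 h1) (mem_range.1 h2)
  have e : BD A S (fun a n => c a * g n * ee ((a * n : ℕ) * ((r : ℝ) / q))) u =
      ∑ ρ ∈ range q, DP (A.filter fun a => a % q = ρ) c u *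
        ∑ σ ∈ range q, ee (ρ * ((t σ : ℝ) / q)) * DP (S.filter fun n => n % q = σ) g u := by
    rw [BD, ← sum_fiberwise_of_maps_to (s := A) (t := range q) (g := fun a => a % q)
      fun a _ => mem_range.2 (Nat.mod_lt _ hq)]
    refine sum_congr rfl fun ρ _ => ?_
    rw [DP, sum_mul]
    refine sum_congr rfl fun a ha => ?_
    rw [← sum_fiberwise_of_maps_to (s := S) (t := range q) (g := fun a => a % q)
      fun a _ => mem_range.2 (Nat.mod_lt _ hq), mul_sum]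
    refine sum_congr rfl fun σ _ => ?_
    rw [DP, mul_sum, mul_sum]
    refine sum_congr rfl fun n hn => ?_
    obtain ⟨a1, rfl⟩ := mem_filter.1 ha
    obtain ⟨n1, rfl⟩ := mem_filter.1 hn
    have k : ((a * n : ℕ) : ℤ) * r ≡ ((a % q : ℕ) : ℤ) * (t (n % q) : ℤ) [ZMOD q] := by
      rw [ht]
      push_cast
      rw [mul_assoc, mul_comm (n : ℤ)]
      exact (Int.mod_modEq _ _).symm.mul
        (((Int.mod_modEq _ _).symm.mul_left r).trans (Int.mod_modEq _ _).symm)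
    have k1 := Short_ee hq k
    rw [Int.cast_mul, Int.cast_mul, Int.cast_natCast, Int.cast_natCast, Int.cast_natCast,
      mul_div_assoc, mul_div_assoc] at k1
    rw [k1, nit_mul (by have := hA a a1; omega) (by have := hS n n1; omega)]
    ring
  have h2 := sum_normSq_of_orth (range q) (range q) (fun ρ σ => ee (ρ * ((t σ : ℝ) / q)))
    (fun _ => (q : ℝ)) (fun σ => DP (S.filter fun n => n % q = σ) g u) fun j hj k hk => by
      rw [sum_ee_orth q hq (t1 j) (t1 k)]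
      simp only [t2 j hj k hk]
  rw [← mul_sum] at h2
  rw [e, mul_comm (q : ℝ), mul_assoc, ← h2]
  refine (pow_le_pow_left₀ (norm_nonneg _) (norm_sum_le _ _) 2).trans ?_
  simp only [norm_mul]
  exact sum_mul_sq_le_sq_mul_sq _ _ _

lemma Short_step {τ : ℝ} (h : 0 < τ) (t : ℝ) : τ ^ 2 / (τ ^ 2 + t ^ 2) ≤
    5 * (1 + τ) * ((t + 1) / (1 + τ + |t + 1|) - t / (1 + τ + |t|)) := by
  have h0 := abs_nonneg t
  have h1 := abs_nonneg (t + 1)
  have h2 : |t + 1| ≤ |t| + 1 := (abs_add_le t 1).trans_eq (by rw [abs_one])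
  have h3 : t * |t + 1| ≤ (t + 1) * |t| := by
    rcases le_total 0 t with c | c
    · rw [abs_of_nonneg c, abs_of_nonneg (by linarith)]
      linarith
    · rcases le_total 0 (t + 1) with c' | c'
      · rw [abs_of_nonpos c, abs_of_nonneg c']
        linarith only [c, c', mul_nonneg_of_nonpos_of_nonpos (Mathlib.Tactic.Linarith.sub_nonpos_of_le c) (Mathlib.Tactic.Linarith.sub_nonpos_of_le c')]
      · rw [abs_of_nonpos c, abs_of_nonpos c']
        linarith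
  have h4 : (1 + τ) / ((1 + τ + |t| + 1) * (1 + τ + |t|)) ≤
      (t + 1) / (1 + τ + |t + 1|) - t / (1 + τ + |t|) := by
    rw [div_sub_div _ _ (by positivity) (by positivity)]
    exact div_le_div₀ (by linarith only [h, h3]) (by nlinarith) (by positivity)
      (mul_le_mul_of_nonneg_right (by linarith) (by positivity))
  refine le_trans ?_ (mul_le_mul_of_nonneg_left h4 (by positivity))
  rw [← sq_abs t, ← mul_div_assoc, div_le_div_iff₀ (by positivity) (by positivity)]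
  generalize |t| = x at h0 ⊢
  have k1 : τ ^ 2 * ((1 + τ + x + 1) * (1 + τ + x)) ≤
      τ ^ 2 * ((2 * (1 + τ) + x) * (1 + τ + x)) :=
    mul_le_mul_of_nonneg_left (mul_le_mul_of_nonneg_right (by linarith) (by positivity))
      (by positivity)
  have k2 : τ * (τ * x) ≤ (1 + τ) * (τ ^ 2 + x ^ 2) :=
    mul_le_mul (by linarith) (by linarith only [sq_nonneg (τ - x), mul_nonneg h.le h0, sq_nonneg τ, sq_nonneg x, sq_nonneg (τ - x)]) (by positivity)
      (by positivity)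
  have k3 := mul_le_mul_of_nonneg_left k2 (show 0 ≤ 1 + τ by positivity)
  have k4 : τ ^ 2 * x ^ 2 ≤ (1 + τ) ^ 2 * x ^ 2 := by gcongr; linarith only []
  have k5 : 0 ≤ (1 + τ) ^ 2 * x ^ 2 := by positivity
  linarith only [k1, k3, k4, k5]

theorem overlap {T s : ℝ} (hT : 0 < T) (hs : s ≠ 0) (K : ℕ) (v : ℝ) :
    ∑ i ∈ range K, wt T (v - (i + 1) * s) ≤ 10 * (1 + T / |s|) := by
  have hs' := abs_pos.2 hs
  have hτ : 0 < T / |s| := div_pos hT hs'
  have e : ∀ i : ℕ, wt T (v - (i + 1) * s) =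
      (T / |s|) ^ 2 / ((T / |s|) ^ 2 + ((i : ℝ) + 1 - v / s) ^ 2) := fun i => by
    rw [wt, div_pow, sq_abs]
    have : (0 : ℝ) < T ^ 2 + (v - (i + 1) * s) ^ 2 := by positivity
    have e1 : T ^ 2 / s ^ 2 + ((i : ℝ) + 1 - v / s) ^ 2 =
        (T ^ 2 + (v - (i + 1) * s) ^ 2) / s ^ 2 := by
      field_simp
      ring
    rw [e1]
    field_simp
  simp only [e]
  generalize T / |s| = τ at hτ ⊢
  generalize v / s = y
  have b : ∀ t : ℝ, |t / (1 + τ + |t|)| ≤ 1 := fun t => by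
    rw [abs_div, abs_of_pos (a := 1 + τ + |t|) (by positivity)]
    exact div_le_one_of_le₀ (by linarith) (by positivity)
  have k := sum_range_sub (fun i : ℕ => ((i : ℝ) + 1 - y) / (1 + τ + |(i : ℝ) + 1 - y|)) K
  calc _ ≤ ∑ i ∈ range K, 5 * (1 + τ) * ((((i + 1 : ℕ) : ℝ) + 1 - y) /
        (1 + τ + |((i + 1 : ℕ) : ℝ) + 1 - y|) - ((i : ℝ) + 1 - y) / (1 + τ + |(i : ℝ) + 1 - y|)) := by
        refine sum_le_sum fun i _ => ?_
        rw [show ((i + 1 : ℕ) : ℝ) + 1 - y = (i : ℝ) + 1 - y + 1 by push_cast; ring]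
        exact Short_step hτ _
    _ ≤ 5 * (1 + τ) * 2 := by
        rw [← mul_sum, k]
        refine mul_le_mul_of_nonneg_left ?_ (by positivity)
        linarith only [b, (abs_le.1 (b ((K : ℝ) + 1 - y))).2, (abs_le.1 (b (((0 : ℕ) : ℝ) + 1 - y))).1]
    _ = _ := by ring

end Pool.Agent.Work.MP_51e72e_nt.AV
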