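import Pool.Agent.Work.MP_51e72e_nt.AV.Defs
import Pool.Agent.Work.MP_678620_nt.TBBox

/-! The singular product. -/

set_option autoImplicit false
open Finset Filter MeasureTheory Pool.Agent.Lib.MR Pool.Agent.Lib.LargeSieve
open Pool.Agent.Work.MP_678620_nt

namespace Pool.Agent.Work.MP_51e72e_nt.AV

/-- The product of the leading coefficients and of the determinants. -/
def Sing_D (F : Finset (ℤ × ℤ)) : ℕ :=
  (∏ f ∈ F, f.1.natAbs) * ∏ x ∈ F.offDiag, (x.1.1 * x.2.2 - x.2.1 * x.1.2).natAbs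

lemma Sing_D_ne {F : Finset (ℤ × ℤ)} (h : Prim F) : Sing_D F ≠ 0 := by
  refine mul_ne_zero (prod_ne_zero_iff.2 fun f hf => Int.natAbs_ne_zero.2 ?_)
    (prod_ne_zero_iff.2 fun x hx => Int.natAbs_ne_zero.2 fun e => ?_)
  · have := (h f hf).1
    omega
  obtain ⟨h1, h2, h3⟩ := mem_offDiag.1 hx
  obtain ⟨a1, c1⟩ := h _ h1
  obtain ⟨a2, c2⟩ := h _ h2
  have e1 : x.1.1 = x.2.1 := Int.dvd_antisymm (by omega) (by omega)
    (c1.dvd_of_dvd_mul_right ⟨x.2.2, by linarith only [e]⟩) (c2.dvd_of_dvd_mul_right ⟨x.1.2, by linarith only [e]⟩)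
  refine h3 (Prod.ext e1 (mul_left_cancel₀ (a := x.2.1) (by omega) ?_))
  rw [e1] at e
  linarith only [e]

lemma Sing_om {F : Finset (ℤ × ℤ)} {p : ℕ} (hp : p.Prime) : omF F p =
    (F.biUnion fun f => (range p).filter fun n : ℕ => (p : ℤ) ∣ f.1 * n + f.2).card := by
  rw [omF]
  congr 1
  ext n
  simp only [mem_filter, mem_biUnion, (Nat.prime_iff_prime_int.mp hp).dvd_finsetProd_iff, ev]
  exact ⟨fun ⟨h1, f, h2, h3⟩ => ⟨f, h2, h1, h3⟩, fun ⟨f, h2, h1, h3⟩ => ⟨h1, f, h2, h3⟩⟩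

lemma Sing_om_le {F : Finset (ℤ × ℤ)} (h : Prim F) {p : ℕ} (hp : p.Prime) : omF F p ≤ F.card := by
  rw [Sing_om hp]
  simpa using card_biUnion_le_card_mul F _ 1 fun f hf => TB_root_le hp (h f hf).2

lemma Sing_om_eq {F : Finset (ℤ × ℤ)} {p : ℕ} (hp : p.Prime) (hd : ¬ p ∣ Sing_D F) :
    omF F p = F.card := by
  rw [Sing_om hp, card_biUnion, card_eq_sum_ones F]
  · exact sum_congr rfl fun f hf => TB_root hp fun k =>
      hd (((Int.natCast_dvd.1 k).trans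
        (dvd_prod_of_mem (fun f : ℤ × ℤ => f.1.natAbs) hf)).mul_right _)
  · intro f hf g hg hne
    refine disjoint_filter.2 fun n _ h1 h2 => hd (Dvd.dvd.mul_left ?_ _)
    have hx : (f, g) ∈ F.offDiag := mem_offDiag.2 ⟨hf, hg, hne⟩
    refine (Int.natCast_dvd.1 ?_).trans (dvd_prod_of_mem _ hx)
    have := (h2.mul_left f.1).sub (h1.mul_left g.1)
    rwa [show f.1 * (g.1 * n + g.2) - g.1 * (f.1 * n + f.2) = f.1 * g.2 - g.1 * f.2 by ring] at this

lemma Sing_x {p : ℕ} (hp : p.Prime) : 0 < (p : ℝ)⁻¹ ∧ (p : ℝ)⁻¹ ≤ 2⁻¹ :=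
  ⟨inv_pos.2 (by exact_mod_cast hp.pos), inv_anti₀ two_pos (by exact_mod_cast hp.two_le)⟩

lemma Sing_loc (F : Finset (ℤ × ℤ)) {p : ℕ} (hp : p.Prime) :
    0 ≤ loc F p ∧ loc F p ≤ (1 - (p : ℝ)⁻¹)⁻¹ ^ F.card := by
  obtain ⟨x0, x1⟩ := Sing_x hp
  have h1 : (omF F p : ℝ) / p ≤ 1 := div_le_one_of_le₀
    (by exact_mod_cast (card_filter_le _ _).trans (card_range p).le) (Nat.cast_nonneg _)
  have h2 : 0 < (1 - (p : ℝ)⁻¹) ^ F.card := pow_pos (by linarith only [x0, x1]) _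
  rw [loc, one_div, inv_pow, ← one_div (_ ^ _)]
  exact ⟨div_nonneg (by linarith only [h1]) h2.le,
    div_le_div_of_nonneg_right (sub_le_self _ (by positivity)) h2.le⟩

lemma Sing_bern {x : ℝ} (x1 : x ≤ 1) (m : ℕ) : 1 - m * x ≤ (1 - x) ^ m := by
  simpa [sub_eq_add_neg] using one_add_mul_le_pow (a := -x) (by linarith) m

lemma Sing_bern2 {x : ℝ} (x0 : 0 ≤ x) (x1 : x ≤ 1) (m : ℕ) :
    (1 - x) ^ m ≤ 1 - m * x + (m * x) ^ 2 := by
  induction m with
  | zero => simp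
  | succ m ih =>
    rw [pow_succ]
    refine (mul_le_mul_of_nonneg_right ih (by linarith)).trans ?_
    have m0 : (0 : ℝ) ≤ m := Nat.cast_nonneg m
    push_cast
    linarith only [m0, x0, mul_nonneg m0 (sq_nonneg x), mul_nonneg (sq_nonneg (m * x)) x0, sq_nonneg x, sq_nonneg x, sq_nonneg (↑m * x)]

lemma Sing_le_one {F : Finset (ℤ × ℤ)} {p : ℕ} (hp : p.Prime) (hd : ¬ p ∣ Sing_D F) :
    loc F p ≤ 1 := by
  obtain ⟨x0, x1⟩ := Sing_x hp
  rw [loc, Sing_om_eq hp hd, one_div, div_eq_mul_inv (F.card : ℝ)]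
  exact div_le_one_of_le₀ (Sing_bern (by linarith only [x0, x1]) _) (pow_nonneg (by linarith only [x0, x1]) _)

lemma Sing_near {F : Finset (ℤ × ℤ)} (h : Prim F) {k p : ℕ} (hk : F.card ≤ k) (hp : p.Prime)
    (hkp : 2 * k ≤ p) : |loc F p - 1| ≤
      2 * k ^ 2 * ((p : ℝ) ^ 2)⁻¹ + if p ∣ Sing_D F then 2 * k * (p : ℝ)⁻¹ else 0 := by
  obtain ⟨x0, x1⟩ := Sing_x hp
  have k1 : (k : ℝ) * (p : ℝ)⁻¹ ≤ 2⁻¹ := by
    rw [mul_inv_le_iff₀ (by exact_mod_cast hp.pos)]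
    have : (2 * k : ℝ) ≤ p := by exact_mod_cast hkp
    linarith only [this]
  have m1 : (F.card : ℝ) * (p : ℝ)⁻¹ ≤ k * (p : ℝ)⁻¹ :=
    mul_le_mul_of_nonneg_right (by exact_mod_cast hk) x0.le
  have m0 : 0 ≤ (F.card : ℝ) * (p : ℝ)⁻¹ := by positivity
  have b1 := Sing_bern (x := (p : ℝ)⁻¹) (by linarith only [x0, x1]) F.card
  have b2 := Sing_bern2 x0.le (by linarith only [x0, x1]) F.card
  have b3 : (1 - (p : ℝ)⁻¹) ^ F.card ≤ 1 := pow_le_one₀ (by linarith only [x0, x1]) (by linarith only [x0])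
  have b4 : 0 < (1 - (p : ℝ)⁻¹) ^ F.card := by linarith only [x0, x1, k1, m1, b1]
  have e : 2 * (k : ℝ) ^ 2 * ((p : ℝ) ^ 2)⁻¹ = 2 * (k * (p : ℝ)⁻¹) ^ 2 := by
    rw [mul_pow, inv_pow, mul_assoc]
  rw [e, mul_assoc, abs_le, loc, one_div, div_eq_mul_inv (omF F p : ℝ), le_sub_iff_add_le,
    sub_le_iff_le_add, le_div_iff₀ b4, div_le_iff₀ b4]
  split_ifs with d
  · have o1 : (omF F p : ℝ) * (p : ℝ)⁻¹ ≤ F.card * (p : ℝ)⁻¹ :=
      mul_le_mul_of_nonneg_right (by exact_mod_cast Sing_om_le h hp) x0.le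
    have o0 : 0 ≤ (omF F p : ℝ) * (p : ℝ)⁻¹ := by positivity
    generalize (omF F p : ℝ) * (p : ℝ)⁻¹ = o at *
    generalize (F.card : ℝ) * (p : ℝ)⁻¹ = y at *
    generalize (k : ℝ) * (p : ℝ)⁻¹ = u at *
    generalize (1 - (p : ℝ)⁻¹) ^ F.card = q at *
    constructor
    · (refine le_of_not_gt fun h_nl => ?_; linarith only [h_nl, o0, o1, m1, b4, x0, x1, k1, b3, mul_nonneg (sq_nonneg u) b4.le, sq_nonneg u, mul_pos_of_neg_of_neg (Mathlib.Tactic.Linarith.sub_neg_of_lt x0) (Mathlib.Tactic.Linarith.sub_neg_of_lt h_nl), mul_nonneg_of_nonpos_of_nonpos (Mathlib.Tactic.Linarith.sub_nonpos_of_le x1) (le_of_lt (Mathlib.Tactic.Linarith.sub_neg_of_lt h_nl)), mul_nonneg_of_nonpos_of_nonpos (Mathlib.Tactic.Linarith.sub_nonpos_of_le k1) (Mathlib.Tactic.Linarith.sub_nonpos_of_le b3)])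
    · (refine le_of_not_gt fun h_nl => ?_; linarith only [h_nl, o0, m1, b1, b4, x0, x1, k1, b3, mul_nonneg (sq_nonneg u) b4.le, sq_nonneg u, mul_pos_of_neg_of_neg (Mathlib.Tactic.Linarith.sub_neg_of_lt x0) (Mathlib.Tactic.Linarith.sub_neg_of_lt h_nl), mul_nonneg_of_nonpos_of_nonpos (Mathlib.Tactic.Linarith.sub_nonpos_of_le x1) (le_of_lt (Mathlib.Tactic.Linarith.sub_neg_of_lt h_nl)), mul_nonneg_of_nonpos_of_nonpos (Mathlib.Tactic.Linarith.sub_nonpos_of_le k1) (Mathlib.Tactic.Linarith.sub_nonpos_of_le b3)])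
  · rw [Sing_om_eq hp d]
    generalize (F.card : ℝ) * (p : ℝ)⁻¹ = y at *
    generalize (k : ℝ) * (p : ℝ)⁻¹ = u at *
    generalize (1 - (p : ℝ)⁻¹) ^ F.card = q at *
    have y2 : y ^ 2 ≤ u ^ 2 := pow_le_pow_left₀ m0 m1 2
    constructor
    · linarith only [b2, y2, k1, m1, b1, mul_nonneg (sq_nonneg u) (show 0 ≤ q - 2⁻¹ by linarith), sq_nonneg u]
    · linarith only [b1, b4, mul_nonneg (sq_nonneg u) b4.le, sq_nonneg u]

lemma Sing_EP0 (F : Finset (ℤ × ℤ)) (y : ℕ) : 0 ≤ EP F y :=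
  prod_nonneg fun _ hp => (Sing_loc F (mem_filter.1 hp).2).1

/-- The tail of the product. -/
lemma Sing_tail {F : Finset (ℤ × ℤ)} (h : Prim F) {k w y : ℕ} (hk : F.card ≤ k) (hw : 0 < w)
    (hkw : 2 * k ≤ w) (hy : w ≤ y) : |EP F y - EP F w| ≤ EP F w *
      (Real.exp ((2 * k ^ 2 + 2 * k * (Sing_D F).primeFactors.card) / w) - 1) := by
  set T := (Ioc w y).filter Nat.Prime with hT
  have e : EP F y = EP F w * ∏ p ∈ T, loc F p := by
    rw [EP, EP, ← prod_union (disjoint_left.2 fun p h1 h2 => ?_)]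
    · congr 1
      ext p
      simp only [hT, mem_filter, mem_range, mem_union, mem_Ioc]
      by_cases q : p.Prime <;> simp only [q, and_true, and_false, or_self]
      omega
    · have a := mem_range.1 (mem_filter.1 h1).1
      have b := (mem_Ioc.1 (mem_filter.1 h2).1).1
      omega
  have w0 : (0 : ℝ) < w := by exact_mod_cast hw
  rw [e, ← mul_sub_one, abs_mul, abs_of_nonneg (Sing_EP0 F w)]
  refine mul_le_mul_of_nonneg_left ?_ (Sing_EP0 F w)
  have a := T.norm_prod_one_add_sub_one_le fun p => loc F p - 1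
  simp only [add_sub_cancel, Real.norm_eq_abs] at a
  refine a.trans (sub_le_sub_right (Real.exp_le_exp.2 ?_) _)
  refine (sum_le_sum fun p hp => Sing_near h hk (mem_filter.1 hp).2
    (hkw.trans (mem_Ioc.1 (mem_filter.1 hp).1).1.le)).trans ?_
  rw [sum_add_distrib, ← mul_sum, ← sum_filter, add_div, div_eq_mul_inv, div_eq_mul_inv]
  refine add_le_add (mul_le_mul_of_nonneg_left ?_ (by positivity)) ?_
  · refine (sum_le_sum_of_subset_of_nonneg (filter_subset _ _) fun _ _ _ => by positivity).trans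
      ((sum_Ioc_inv_sq_le_sub hw.ne' hy).trans (sub_le_self _ (by positivity)))
  · refine (sum_le_card_nsmul _ _ (2 * k * (w : ℝ)⁻¹) fun p hp => ?_).trans ?_
    · refine mul_le_mul_of_nonneg_left (inv_anti₀ w0 ?_) (by positivity)
      exact_mod_cast (mem_Ioc.1 (mem_filter.1 (mem_filter.1 hp).1).1).1.le
    · rw [nsmul_eq_mul, mul_comm, mul_right_comm (2 * k : ℝ) _ (w : ℝ)⁻¹]
      refine mul_le_mul_of_nonneg_left (Nat.cast_le.2 (card_le_card fun p hp => ?_))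
        (show (0 : ℝ) ≤ 2 * k * (w : ℝ)⁻¹ by positivity)
      exact Nat.mem_primeFactors.2 ⟨(mem_filter.1 (mem_filter.1 hp).1).2, (mem_filter.1 hp).2,
        Sing_D_ne h⟩

theorem EP_tendsto {F : Finset (ℤ × ℤ)} (h : Prim F) : Tendsto (EP F) atTop (nhds (CF F)) := by
  have a : Antitone fun n => EP F (n + Sing_D F) := antitone_nat_of_succ_le fun n => by
    rw [add_right_comm, EP, range_add_one, filter_insert]
    split_ifs with q
    · rw [prod_insert fun k => notMem_range_self (mem_filter.1 k).1]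
      refine mul_le_of_le_one_left (Sing_EP0 F _) (Sing_le_one q fun k => ?_)
      have := Nat.le_of_dvd (Nat.pos_of_ne_zero (Sing_D_ne h)) k
      omega
    · exact le_rfl
  exact tendsto_nhds_limUnder ⟨_, (tendsto_add_atTop_iff_nat _).1
    (tendsto_atTop_ciInf a ⟨0, by rintro _ ⟨n, rfl⟩; exact Sing_EP0 F _⟩)⟩

lemma Sing_head {F : Finset (ℤ × ℤ)} {k w : ℕ} (hk : F.card ≤ k) (hw : 2 ≤ w) :
    EP F w ≤ (Real.exp 73 * Real.log w) ^ k := by
  have a := Pool.Agent.Lib.ANT.prod_one_sub_inv_prime_inv_le w hw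
  have e : (range (w + 1)).filter Nat.Prime = (Ioc 0 w).filter Nat.Prime := by
    ext p
    simp only [mem_filter, mem_range, mem_Ioc]
    exact and_congr_left fun q => ⟨fun r => ⟨q.pos, by omega⟩, fun r => by omega⟩
  have b : 1 ≤ ∏ p ∈ (Ioc 0 w).filter Nat.Prime, (1 - (p : ℝ)⁻¹)⁻¹ := by
    refine one_le_prod fun p hp => ?_
    obtain ⟨x0, x1⟩ := Sing_x (mem_filter.1 hp).2
    exact (one_le_inv₀ (by linarith only [x0, x1])).2 (by linarith only [x0])
  rw [EP, e]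
  refine (prod_le_prod (fun p hp => (Sing_loc F (mem_filter.1 hp).2).1)
    fun p hp => (Sing_loc F (mem_filter.1 hp).2).2).trans ?_
  rw [prod_pow]
  exact (pow_le_pow_right₀ b hk).trans (pow_le_pow_left₀ (by linarith only [b]) a k)

/-- Few primes divide the discriminant. -/
lemma Sing_omega {k N : ℕ} {lam : ℝ} {F : Finset (ℤ × ℤ)} (h : Sy k N lam F) (hN : 2 ≤ N) :
    ((Sing_D F).primeFactors.card : ℝ) ≤ 2 * (k + 3 * k ^ 2) * Real.log N := by
  have a : 2 ^ (Sing_D F).primeFactors.card ≤ Sing_D F :=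
    (pow_card_le_prod _ (fun p => p) 2 fun p hp => (Nat.prime_of_mem_primeFactors hp).two_le).trans
      (Nat.le_of_dvd (Nat.pos_of_ne_zero (Sing_D_ne h.prim)) (Nat.prod_primeFactors_dvd _))
  have b : Sing_D F ≤ N ^ (k + 3 * k ^ 2) := by
    rw [pow_add, pow_mul]
    refine Nat.mul_le_mul ((prod_le_pow_card _ _ N fun f hf => ?_).trans
      (Nat.pow_le_pow_right (by omega) h.card)) ((prod_le_pow_card _ _ (N ^ 3) fun x hx => ?_).trans
      (Nat.pow_le_pow_right (by positivity) ?_))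
    · have := h.a_le f hf
      have := (h.prim f hf).1
      omega
    · obtain ⟨h1, h2, -⟩ := mem_offDiag.1 hx
      have key : ∀ f ∈ F, ∀ g ∈ F, |f.1 * g.2| ≤ (N : ℤ) * N := fun f hf g hg => by
        rw [abs_mul, abs_of_nonneg (show 0 ≤ f.1 by linarith only [h, hf, (h.prim f hf).1])]
        exact mul_le_mul (h.a_le f hf) (h.b_le g hg) (abs_nonneg _) (Nat.cast_nonneg _)
      have c := abs_sub (x.1.1 * x.2.2) (x.2.1 * x.1.2)
      have n2 : (2 : ℤ) ≤ N := by exact_mod_cast hN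
      zify
      linarith only [c, key, h1, h2, n2, key _ h1 _ h2, key _ h2 _ h1, mul_nonneg (sub_nonneg.2 n2) (mul_self_nonneg (N : ℤ)), mul_self_nonneg ↑N]
    · rw [offDiag_card, sq]
      exact (Nat.sub_le _ _).trans (Nat.mul_le_mul h.card h.card)
  have c : (2 : ℝ) ^ (Sing_D F).primeFactors.card ≤ (N : ℝ) ^ (k + 3 * k ^ 2) := by
    exact_mod_cast a.trans b
  have d := Real.log_le_log (by positivity) c
  rw [Real.log_pow, Real.log_pow] at d
  push_cast at d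
  linarith only [d, Real.log_two_gt_d9, Nat.cast_nonneg (α := ℝ) (Sing_D F).primeFactors.card, mul_nonneg_of_nonpos_of_nonpos (Mathlib.Tactic.Linarith.sub_nonpos_of_le (Mathlib.Tactic.Linarith.natCast_nonneg ℝ #(Sing_D F).primeFactors)) (le_of_lt (Mathlib.Tactic.Linarith.sub_neg_of_lt Real.log_two_gt_d9))]

theorem sing (k : ℕ) : ∀ᶠ N : ℕ in atTop, ∀ (lam : ℝ) (F : Finset (ℤ × ℤ)), Sy k N lam F →
    |EP F ⌊zz N⌋₊ - CF F| ≤ 1 / Real.log N ∧ 0 ≤ CF F ∧ CF F ≤ √(Real.log N) := by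
  obtain ⟨c, c0, hc⟩ : ∃ c : ℝ, 0 ≤ c ∧ c = 2 * k ^ 2 + 2 * k * (2 * (k + 3 * k ^ 2)) :=
    ⟨_, by positivity, rfl⟩
  obtain ⟨C, C0, hC⟩ : ∃ C : ℝ, 0 < C ∧ C = Real.exp 73 ^ k * Real.exp (2 * c) :=
    ⟨_, by positivity, rfl⟩
  filter_upwards [TB_tend.eventually ((Real.isLittleO_pow_log_id_atTop (n := k * 2)).bound
    (c := (C ^ 2)⁻¹) (by positivity)), TB_tend.eventually_ge_atTop (2 * k + 4 * c + 2), zz_big 4,
    eventually_ge_atTop 2] with N h1 h2 h3 hN lam F h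
  generalize hl : Real.log N = l at *
  have k0 : (0 : ℝ) ≤ k := Nat.cast_nonneg k
  have l2 : 2 ≤ l := by linarith only [c0, h2]
  have t := EP_tendsto h.prim
  have tail : ∀ w y : ℕ, ⌊l⌋₊ ≤ w → w ≤ y →
      |EP F y - EP F w| ≤ EP F w * (Real.exp (c * l / w) - 1) := fun w y hw hy => by
    have w1 : 2 * k + 2 ≤ w := (Nat.le_floor (by push_cast; linarith only [c0, h2])).trans hw
    refine (Sing_tail h.prim h.card (by omega) (by omega) hy).trans (mul_le_mul_of_nonneg_left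
      (sub_le_sub_right (Real.exp_le_exp.2 (div_le_div_of_nonneg_right ?_ (Nat.cast_nonneg _))) _)
      (Sing_EP0 F w))
    have a := mul_le_mul_of_nonneg_left (Sing_omega h hN) (show (0 : ℝ) ≤ 2 * k by positivity)
    rw [hl] at a
    rw [hc]
    linarith only [a, c0, h2, mul_nonneg (sq_nonneg (k : ℝ)) (show 0 ≤ l - 1 by linarith), sq_nonneg ↑k]
  have half : ∀ x : ℝ, 2 ≤ x → x / 2 ≤ ⌊x⌋₊ := fun x hx => by linarith only [hx, Nat.lt_floor_add_one x]
  have big : ∀ y, ⌊l⌋₊ ≤ y → EP F y ≤ √l := fun y hy => by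
    have w2 : 2 ≤ ⌊l⌋₊ := Nat.le_floor (by exact_mod_cast l2)
    have a1 := (abs_le.1 (tail _ y le_rfl hy)).2
    have a2 : c * l / ⌊l⌋₊ ≤ 2 * c := by
      rw [div_le_iff₀ (by linarith only [c0, h2, half, l2, half l l2])]
      linarith only [half, l2, c0, mul_le_mul_of_nonneg_left (half l l2) c0]
    have a3 : EP F ⌊l⌋₊ ≤ (Real.exp 73 * Real.log l) ^ k := (Sing_head h.card w2).trans
      (pow_le_pow_left₀ (mul_nonneg (Real.exp_pos _).le (Real.log_natCast_nonneg _))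
        (mul_le_mul_of_nonneg_left (Real.log_le_log (by linarith only [c0, h2, half, l2, half l l2])
          (Nat.floor_le (by linarith only [c0, h2]))) (Real.exp_pos _).le) k)
    have a4 : EP F y ≤ C * Real.log l ^ k := by
      have := mul_le_mul a3 (Real.exp_le_exp.2 a2) (Real.exp_pos _).le ((Sing_EP0 F _).trans a3)
      rw [hC, mul_right_comm, ← mul_pow]
      linarith only [a1, this]
    refine a4.trans (Real.le_sqrt_of_sq_le ?_)
    rw [Real.norm_eq_abs, Real.norm_eq_abs, id, abs_of_nonneg (show 0 ≤ l by linarith only [c0, h2]),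
      le_inv_mul_iff₀ (by positivity), pow_mul] at h1
    rw [mul_pow]
    exact (mul_le_mul_of_nonneg_left (le_abs_self _) (sq_nonneg _)).trans h1
  refine ⟨?_, ge_of_tendsto' t (Sing_EP0 F), le_of_tendsto t
    ((eventually_ge_atTop ⌊l⌋₊).mono big)⟩
  have l4 : l ≤ l ^ 4 := le_self_pow₀ (by linarith only [c0, h2]) (by norm_num)
  have z1 : ⌊l⌋₊ ≤ ⌊zz N⌋₊ := Nat.floor_le_floor (l4.trans h3.1)
  have z2 : l ^ 4 / 2 ≤ ⌊zz N⌋₊ := by linarith only [h3, half, c0, h2, l4, half (zz N) (by linarith [h3.1]), h3.1]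
  have s1 : c * l / ⌊zz N⌋₊ ≤ 1 / (2 * l ^ 2) := by
    rw [div_le_div_iff₀ (by linarith only [c0, h2, l4, z2]) (by positivity)]
    linarith only [z2, h2, l2, mul_le_mul_of_nonneg_right (show 4 * c ≤ l by linarith)
      (show 0 ≤ l ^ 3 by positivity)]
  have s0 : 0 ≤ c * l / ⌊zz N⌋₊ := by positivity
  have s2 : 1 / (2 * l ^ 2) ≤ 1 := div_le_one_of_le₀ (by (refine le_of_not_gt fun h_nl => ?_; linarith only [h_nl, c0, h2, l4, mul_nonneg_of_nonpos_of_nonpos (Mathlib.Tactic.Linarith.sub_nonpos_of_le (sq_nonneg l)) (le_of_lt (Mathlib.Tactic.Linarith.sub_neg_of_lt h_nl))])) (by positivity)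
  have s3 := (le_abs_self _).trans (Real.abs_exp_sub_one_le (x := c * l / ⌊zz N⌋₊)
    (by rw [abs_of_nonneg s0]; linarith only [s1, s2]))
  rw [abs_of_nonneg s0] at s3
  have s4 : √l ≤ l := Real.sqrt_le_self_iff.2 (Or.inr (by linarith only [c0, h2]))
  rw [abs_sub_comm]
  refine le_of_tendsto (t.sub_const _).abs ((eventually_ge_atTop ⌊zz N⌋₊).mono fun y hy =>
    (tail _ y z1 hy).trans ?_)
  refine (mul_le_mul ((big _ z1).trans s4) (s3.trans (mul_le_mul_of_nonneg_left s1 zero_le_two))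
    (sub_nonneg.2 (Real.one_le_exp s0)) (by linarith only [c0, h2])).trans_eq ?_
  field_simp

end Pool.Agent.Work.MP_51e72e_nt.AV
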