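import Pool.Agent.Work.MP_51e72e_nt.AV.Minor
import Pool.Agent.Work.MP_51e72e_nt.AV.Major
import Pool.Agent.Work.MP_51e72e_nt.PV.Mult
import Pool.Agent.Work.MP_51e72e_nt.AV.Fix

-- merged part: Pool.Agent.Work.MP_51e72e_nt.AV.Core
section
/-! The core estimate. -/

set_option autoImplicit false
open Finset Filter MeasureTheory Pool.Agent.Lib.MR Pool.Agent.Lib.LargeSieve
open Pool.Agent.Work.MP_678620_nt

namespace Pool.Agent.Work.MP_51e72e_nt.AV

open Classical in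
theorem card_major {lam : ℝ} {H : ℕ} (hl : 1 ≤ lam) (hH : lam ^ 16 ≤ H) :
    (((range (3 * H)).filter fun t : ℕ => Major lam H ((t : ℝ) / (3 * H : ℕ))).card : ℝ)
      ≤ 40 * lam ^ 24 := by
  have hl8 : 1 ≤ lam ^ 8 := one_le_pow₀ hl
  have hH1 : (1 : ℝ) ≤ H := (one_le_pow₀ hl).trans hH
  have hH0 : (0 : ℝ) < H := by linarith only [hH1]
  set Q := ⌊lam ^ 8⌋₊ with hQ
  have hQ1 : (Q : ℝ) ≤ lam ^ 8 := Nat.floor_le (by linarith only [hl8])
  let W : ℕ × ℤ → Finset ℕ := fun y => (range (3 * H)).filter fun t : ℕ =>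
    |(t : ℝ) / (3 * H : ℕ) - (y.2 : ℝ) / y.1| ≤ lam ^ 8 / H
  have hW : ∀ y, ((W y).card : ℝ) ≤ 7 * lam ^ 8 := by
    intro y
    set c : ℝ := (y.2 : ℝ) / y.1 * (3 * H) with hc
    have h1 : (W y).card ≤ (Icc ⌈c - 3 * lam ^ 8⌉ ⌊c + 3 * lam ^ 8⌋).card := by
      refine card_le_card_of_injOn (fun t : ℕ => (t : ℤ)) (fun t ht => ?_)
        fun a _ b _ h => Int.natCast_inj.1 h
      have h2 := (mem_filter.1 (mem_coe.1 ht)).2
      push_cast at h2
      have e : (t : ℝ) / (3 * H) - (y.2 : ℝ) / y.1 = (t - c) / (3 * H) := by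
        rw [hc]; field_simp
      rw [e, abs_div, abs_of_pos (by positivity : (0 : ℝ) < 3 * H), div_le_div_iff₀ (by positivity)
        hH0] at h2
      have h3 : |(t : ℝ) - c| ≤ 3 * lam ^ 8 := le_of_mul_le_mul_right (by linarith only [h2]) hH0
      obtain ⟨h4, h5⟩ := abs_le.1 h3
      simp only [coe_Icc, Set.mem_Icc, Int.ceil_le, Int.le_floor, Int.cast_natCast]
      constructor <;> linarith only [h4, h5]
    have h2 : ((Icc ⌈c - 3 * lam ^ 8⌉ ⌊c + 3 * lam ^ 8⌋).card : ℝ) ≤ 7 * lam ^ 8 := by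
      rw [Int.card_Icc]
      have a := Int.le_ceil (c - 3 * lam ^ 8)
      have b := Int.floor_le (c + 3 * lam ^ 8)
      rcases le_total (⌊c + 3 * lam ^ 8⌋ + 1 - ⌈c - 3 * lam ^ 8⌉) 0 with h | h
      · rw [Int.toNat_of_nonpos h]; push_cast; linarith only [hl8]
      · rw [← Int.cast_natCast, Int.toNat_of_nonneg h]; push_cast; linarith only [hl8, a, b]
    exact le_trans (by exact_mod_cast h1) h2
  have hsub : ((range (3 * H)).filter fun t : ℕ => Major lam H ((t : ℝ) / (3 * H : ℕ))) ⊆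
      (Icc 1 Q ×ˢ Icc (-1 : ℤ) (Q + 1)).biUnion W := by
    intro t ht
    obtain ⟨h1, q, r, q1, q2, h2⟩ := mem_filter.1 ht
    have q0 : (0 : ℝ) < q := by exact_mod_cast q1
    have qQ : q ≤ Q := Nat.le_floor q2
    have t0 : (0 : ℝ) ≤ (t : ℝ) / (3 * H : ℕ) := by positivity
    have t1 : (t : ℝ) / (3 * H : ℕ) ≤ 1 :=
      div_le_one_of_le₀ (by exact_mod_cast (mem_range.1 h1).le) (by positivity)
    have h3 : lam ^ 8 / H ≤ 1 / q := by
      rw [div_le_div_iff₀ hH0 q0]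
      linarith only [hH, q2, hl8, mul_nonneg_of_nonpos_of_nonpos (Mathlib.Tactic.Linarith.sub_nonpos_of_le hl8) (Mathlib.Tactic.Linarith.sub_nonpos_of_le q2)]
    obtain ⟨h4, h5⟩ := abs_le.1 (h2.trans h3)
    have h6 : (r : ℝ) / q ≤ (q + 1) / q := by rw [add_div, div_self q0.ne']; linarith only [t1, h4]
    have h7 : (-1 : ℝ) / q ≤ r / q := by rw [neg_div]; linarith only [t0, h5]
    rw [div_le_div_iff_of_pos_right q0] at h6 h7
    have h8 : r ≤ q + 1 := by exact_mod_cast h6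
    have h9 : -1 ≤ r := by exact_mod_cast h7
    refine mem_biUnion.2 ⟨(q, r), mem_product.2 ⟨mem_Icc.2 ⟨q1, qQ⟩, mem_Icc.2 ⟨h9, ?_⟩⟩,
      mem_filter.2 ⟨h1, h2⟩⟩
    simp only
    omega
  have h1 := (card_le_card hsub).trans card_biUnion_le
  have h2 : ∑ y ∈ Icc 1 Q ×ˢ Icc (-1 : ℤ) (Q + 1), ((W y).card : ℝ) ≤ Q * (Q + 3) * (7 * lam ^ 8) := by
    refine (sum_le_card_nsmul _ _ _ fun y _ => hW y).trans (le_of_eq ?_)
    rw [card_product, Nat.card_Icc, Int.card_Icc, nsmul_eq_mul,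
      show (Q : ℤ) + 1 + 1 - -1 = ((Q + 3 : ℕ) : ℤ) by push_cast; ring, Int.toNat_natCast]
    push_cast
    ring
  refine le_trans (by exact_mod_cast h1) (h2.trans ?_)
  have h3 : (Q : ℝ) * (Q + 3) ≤ lam ^ 8 * (4 * lam ^ 8) :=
    mul_le_mul hQ1 (by linarith only [hl8, hQ1]) (by positivity) (by positivity)
  calc _ ≤ lam ^ 8 * (4 * lam ^ 8) * (7 * lam ^ 8) := by gcongr
    _ = 28 * lam ^ 24 := by ring
    _ ≤ _ := by gcongr; norm_num

lemma Core_ev {ε : ℝ} (hε : 0 < ε) (B : ℕ) : ∀ᶠ N : ℕ in atTop, Real.log N ^ B ≤ (N : ℝ) ^ ε := by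
  filter_upwards [MRHM_ev B (δ := 1) (D := 1) one_pos hε one_pos] with N h
  refine le_trans ?_ h
  rw [one_mul]
  exact le_mul_of_one_le_right (pow_nonneg (Real.log_natCast_nonneg N) B)
    (Real.one_le_exp (Real.rpow_nonneg (Real.log_natCast_nonneg N) _))

theorem core {ε : ℝ} (hε : 0 < ε) (B : ℕ) : ∃ A' : ℕ, ∀ᶠ N : ℕ in atTop,
    ∀ (H : ℕ) (lam : ℝ), Par ε B N H lam → ∀ G : ℤ → ℂ,
    (∀ m : ℤ, 1 ≤ m → m ≤ 3 * H * N → ‖G m‖ ≤ 3 * Real.log N) → KeyP N (H * N) (1 / 2) A' G →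
    ∀ A S : Finset ℕ, Rg lam H A → Rg lam N S → ∀ g : ℕ → ℂ, (∀ n, ‖g n‖ ≤ 1) →
      ∑ a ∈ A, ∑ b ∈ Icc (-(H : ℤ)) H, ‖∑ n ∈ S, g n * G ((a * n : ℕ) + b)‖ ^ 2
        ≤ 100 * Real.log N ^ 2 * H ^ 2 * N ^ 2 / lam := by
  classical
  obtain ⟨A', h1⟩ := major hε B
  refine ⟨A', ?_⟩
  filter_upwards [h1, minor hε B, Core_ev hε (16 * B), Core_ev one_pos (2 * B + 1),
    TB_tend.eventually_ge_atTop 2] with N h1 h2 h3 h4 hl H lam hP G hG hK A S hA hS g hg
  have l1 : 1 ≤ lam := by linarith [hP.lam_lo]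
  have l0 : 0 < lam := by linarith
  have a1 : lam ^ 16 ≤ H := by
    refine le_trans ?_ (h3.trans hP.H_lo)
    rw [mul_comm, pow_mul]
    exact pow_le_pow_left₀ l0.le hP.lam_hi 16
  have a2 : 2 * lam ^ 2 ≤ N := by
    rw [Real.rpow_one, pow_succ, mul_comm 2 B, pow_mul] at h4
    have := pow_le_pow_left₀ l0.le hP.lam_hi 2
    linarith only [h4, this, hl, sq_nonneg (Real.log N ^ B), mul_nonneg_of_nonpos_of_nonpos (Mathlib.Tactic.Linarith.sub_nonpos_of_le (sq_nonneg (Real.log ↑N ^ B))) (Mathlib.Tactic.Linarith.sub_nonpos_of_le hl)]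
  have H1 : (1 : ℝ) ≤ H := (one_le_pow₀ l1).trans a1
  have := four (E₁ := √((H : ℝ) ^ 3 * N / lam ^ 3)) (E₂ := (H : ℝ) ^ 2 * N / lam ^ 30) l1
    (by exact_mod_cast H1) a2 hA hS G hG g hg
    ((range (3 * H)).filter fun t : ℕ => Major lam H ((t : ℝ) / (3 * H : ℕ)))
    (Real.sqrt_nonneg _) (by positivity) (by positivity)
    (fun t ht hn b hb => by
      rw [Real.sq_sqrt (by positivity)]
      exact h2 H lam _ hP (fun h => hn (mem_filter.2 ⟨ht, h⟩)) A S hA hS b g hb hg)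
    (fun t ht b hb j hj hj' => h1 H lam _ hP (mem_filter.1 ht).2 G hG hK A S hA hS b g hb hg j hj hj')
  refine this.trans ?_
  have c1 := card_major l1 a1
  have c2 : √(2 * lam * H * N) * √((H : ℝ) ^ 3 * N / lam ^ 3) ≤ 2 * (H ^ 2 * N / lam) := by
    rw [← Real.sqrt_mul (by positivity)]
    refine Real.sqrt_le_iff.2 ⟨by positivity, ?_⟩
    have e : 2 * lam * H * N * ((H : ℝ) ^ 3 * N / lam ^ 3) = 2 * (H ^ 2 * N / lam) ^ 2 := by
      field_simp
    rw [e]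
    linarith only [sq_nonneg ((H : ℝ) ^ 2 * N / lam), sq_nonneg ((1 : ℝ) * (↑H ^ (2 : ℕ) * ↑N / lam))]
  have ll := hP.lam_lo
  generalize Real.log N = l at *
  generalize (((range (3 * H)).filter fun t : ℕ =>
    Major lam H ((t : ℝ) / (3 * H : ℕ))).card : ℝ) = m at *
  have N0 : (0 : ℝ) ≤ N := Nat.cast_nonneg N
  have c3 : m * (3 * l) * N * ((H : ℝ) ^ 2 * N / lam ^ 30)
      ≤ 46 * l ^ 2 * (H ^ 2 * N ^ 2 / lam) := by
    calc _ ≤ 40 * lam ^ 24 * (3 * l) * N * ((H : ℝ) ^ 2 * N / lam ^ 30) := by gcongr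
      _ = 120 * l / lam ^ 5 * (H ^ 2 * N ^ 2 / lam) := by field_simp; ring
      _ ≤ _ := by
          refine mul_le_mul_of_nonneg_right ?_ (by positivity)
          rw [div_le_iff₀ (by positivity)]
          have : 2 ^ 5 ≤ lam ^ 5 := pow_le_pow_left₀ (by norm_num) (by linarith only [hl, ll]) 5
          linarith only [hl, this, mul_nonneg_of_nonpos_of_nonpos (Mathlib.Tactic.Linarith.sub_nonpos_of_le (sq_nonneg l)) (Mathlib.Tactic.Linarith.sub_nonpos_of_le this), mul_nonneg_of_nonpos_of_nonpos (Mathlib.Tactic.Linarith.sub_nonpos_of_le hl) (Mathlib.Tactic.Linarith.sub_nonpos_of_le hl)]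
  have c4 : 3 * N * (3 * l) ^ 2 * √(2 * lam * H * N) * √((H : ℝ) ^ 3 * N / lam ^ 3)
      ≤ 54 * l ^ 2 * (H ^ 2 * N ^ 2 / lam) := by
    rw [mul_assoc]
    refine (mul_le_mul_of_nonneg_left c2 (by positivity)).trans (le_of_eq ?_)
    ring
  refine (add_le_add c4 c3).trans (le_of_eq ?_)
  ring

end Pool.Agent.Work.MP_51e72e_nt.AV
end

-- merged part: Pool.Agent.Work.MP_51e72e_nt.AV.Tele
section
/-! Replacing the primes by the model, one random form at a time. -/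

set_option autoImplicit false
open Finset Filter MeasureTheory Pool.Agent.Lib.MR Pool.Agent.Lib.LargeSieve
open Pool.Agent.Work.MP_678620_nt

namespace Pool.Agent.Work.MP_51e72e_nt.AV

lemma Tele_split {X : Type} [DecidableEq X] (B : Finset X) {m : ℕ} (i : Fin (m + 1))
    (Φ : (Fin (m + 1) → X) → ℝ) {M : ℝ} (hM : 0 ≤ M)
    (h : ∀ v ∈ Fintype.piFinset (fun _ : Fin (m + 1) => B),
      ∑ f ∈ B, Φ (Function.update v i f) ≤ M) :
    ∑ v ∈ Fintype.piFinset (fun _ : Fin (m + 1) => B), Φ v ≤ (B.card : ℝ) ^ m * M := by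
  rcases B.eq_empty_or_nonempty with rfl | hB
  · have : Fintype.piFinset (fun _ : Fin (m + 1) => (∅ : Finset X)) = ∅ := by simp
    rw [this, sum_empty]
    positivity
  have hc : (0 : ℝ) < B.card := by exact_mod_cast hB.card_pos
  have hmem : ∀ v ∈ Fintype.piFinset (fun _ : Fin (m + 1) => B), ∀ f ∈ B,
      Function.update v i f ∈ Fintype.piFinset (fun _ : Fin (m + 1) => B) := by
    intro v hv f hf
    rw [Fintype.mem_piFinset] at hv ⊢
    intro j
    by_cases e : j = i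
    · subst e; simpa using hf
    · rw [Function.update_of_ne e]; exact hv j
  have e : ∑ p ∈ Fintype.piFinset (fun _ : Fin (m + 1) => B) ×ˢ B, Φ p.1 =
      ∑ p ∈ Fintype.piFinset (fun _ : Fin (m + 1) => B) ×ˢ B, Φ (Function.update p.1 i p.2) := by
    refine sum_nbij' (fun p => (Function.update p.1 i p.2, p.1 i))
      (fun p => (Function.update p.1 i p.2, p.1 i)) ?_ ?_ ?_ ?_ ?_
    · intro p hp
      obtain ⟨h1, h2⟩ := mem_product.1 hp
      exact mem_product.2 ⟨hmem _ h1 _ h2, Fintype.mem_piFinset.1 h1 i⟩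
    · intro p hp
      obtain ⟨h1, h2⟩ := mem_product.1 hp
      exact mem_product.2 ⟨hmem _ h1 _ h2, Fintype.mem_piFinset.1 h1 i⟩
    · intro p _; simp
    · intro p _; simp
    · intro p _; simp
  rw [sum_product, sum_product] at e
  simp only [sum_const, nsmul_eq_mul] at e
  rw [← mul_sum] at e
  have h2 : ∑ v ∈ Fintype.piFinset (fun _ : Fin (m + 1) => B), ∑ f ∈ B, Φ (Function.update v i f)
      ≤ (B.card : ℝ) ^ (m + 1) * M := by
    refine (sum_le_sum h).trans_eq ?_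
    rw [sum_const, nsmul_eq_mul, Fintype.card_piFinset_const]
    push_cast
    rfl
  refine le_of_mul_le_mul_left ?_ hc
  rw [e]
  exact h2.trans_eq (by ring)

lemma Tele_sum_Box (lam : ℝ) (H : ℕ) (φ : ℤ × ℤ → ℝ) :
    ∑ f ∈ Box lam H, φ f = ∑ a ∈ Ra lam H, ∑ b ∈ Icc (-(H : ℤ)) H, φ ((a : ℤ), b) := by
  have e : ((Icc (1 : ℤ) H).filter fun a : ℤ => (H : ℝ) ≤ lam * a) =
      (Ra lam H).image (fun a : ℕ => (a : ℤ)) := by
    ext a
    simp only [mem_filter, mem_Icc, mem_image, Ra]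
    constructor
    · rintro ⟨⟨h1, h2⟩, h3⟩
      obtain ⟨b, rfl⟩ := Int.eq_ofNat_of_zero_le (show 0 ≤ a by omega)
      exact ⟨b, ⟨⟨by exact_mod_cast h1, by exact_mod_cast h2⟩, by exact_mod_cast h3⟩, rfl⟩
    · rintro ⟨b, ⟨⟨h1, h2⟩, h3⟩, rfl⟩
      exact ⟨⟨by exact_mod_cast h1, by exact_mod_cast h2⟩, by exact_mod_cast h3⟩
  rw [Box, sum_product, e, sum_image fun a _ b _ h => by exact_mod_cast h]

lemma Tele_card_Box (lam : ℝ) {H : ℕ} (hH : 1 ≤ H) : ((Box lam H).card : ℝ) ≤ 3 * (H : ℝ) ^ 2 := by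
  have h1 : ((Icc (1 : ℤ) H).filter fun a : ℤ => (H : ℝ) ≤ lam * a).card ≤ H := by
    refine (card_filter_le _ _).trans ?_
    simp
  have h2 : (Icc (-(H : ℤ)) H).card ≤ 3 * H := by
    rw [Int.card_Icc]
    omega
  have h3 : (Box lam H).card ≤ H * (3 * H) := by
    rw [Box, card_product]
    exact Nat.mul_le_mul h1 h2
  calc ((Box lam H).card : ℝ) ≤ ((H * (3 * H) : ℕ) : ℝ) := by exact_mod_cast h3
    _ = 3 * (H : ℝ) ^ 2 := by push_cast; ring

lemma Tele_ev_le {lam : ℝ} {H N n : ℕ} (hN : 3 ≤ N) (hH : H ≤ N) {f : ℤ × ℤ} (hf : f ∈ Box lam H)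
    (hn : n ∈ Ra lam N) : ev f n ≤ (N : ℤ) ^ 3 := by
  obtain ⟨h1, h2⟩ := mem_product.1 hf
  have h3 := mem_Icc.1 (mem_filter.1 h1).1
  have h4 := (mem_Icc.1 h2).2
  have h5 : (n : ℤ) ≤ N := by exact_mod_cast (rg_Ra lam N).hi n hn
  have h6 : (H : ℤ) ≤ N := by exact_mod_cast hH
  have h7 : (3 : ℤ) ≤ N := by exact_mod_cast hN
  have h8 : f.1 * n ≤ N * N := mul_le_mul (h3.2.trans h6) h5 (by positivity) (by positivity)
  rw [ev]
  nlinarith only [hN, hH, h4, h8]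

/-- The other factors. -/
noncomputable def Tele_R {k : ℕ} (z : ℝ) (i : Fin k) (v : Fin k → ℤ × ℤ) (n : ℕ) : ℝ :=
  (∏ j ∈ univ.filter (fun j => j < i), L1 z (ev (v j) n)) *
    ∏ j ∈ univ.filter (fun j => i < j), F1 z (ev (v j) n)

lemma Tele_tel {k : ℕ} (z : ℝ) (v : Fin k → ℤ × ℤ) (n : ℕ) :
    ∏ i, L1 z (ev (v i) n) - ∏ i, F1 z (ev (v i) n) =
      ∑ i, G1 z (ev (v i) n) * Tele_R z i v n := by
  have h := prod_add_ordered (univ : Finset (Fin k)) (fun i => F1 z (ev (v i) n))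
    (fun i => G1 z (ev (v i) n))
  have e : ∀ m, F1 z m + G1 z m = L1 z m := fun m => by rw [G1]; ring
  simp only [e] at h
  rw [h, add_sub_cancel_left]
  exact sum_congr rfl fun i _ => by rw [Tele_R, mul_assoc]

lemma Tele_R_update {k : ℕ} (z : ℝ) (i : Fin k) (v : Fin k → ℤ × ℤ) (f : ℤ × ℤ) (n : ℕ) :
    Tele_R z i (Function.update v i f) n = Tele_R z i v n := by
  unfold Tele_R
  rw [prod_congr rfl (g := fun j => L1 z (ev (v j) n)) fun j hj => by
      rw [Function.update_of_ne (mem_filter.1 hj).2.ne],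
    prod_congr rfl (s₁ := univ.filter (fun j => i < j)) (g := fun j => F1 z (ev (v j) n))
      fun j hj => by rw [Function.update_of_ne (mem_filter.1 hj).2.ne']]

lemma Tele_R_le {m : ℕ} {z c : ℝ} (i : Fin (m + 1)) (v : Fin (m + 1) → ℤ × ℤ) (n : ℕ)
    (hL : ∀ j, |L1 z (ev (v j) n)| ≤ c) (hF : ∀ j, |F1 z (ev (v j) n)| ≤ c) :
    |Tele_R z i v n| ≤ c ^ m := by
  have hc : 0 ≤ c := (abs_nonneg _).trans (hL i)
  have e : (univ.filter (fun j => j < i)).card + (univ.filter (fun j => i < j)).card = m := by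
    rw [filter_gt_eq_Iio, filter_lt_eq_Ioi, Fin.card_Iio, Fin.card_Ioi]
    have := i.2
    omega
  rw [Tele_R, abs_mul, abs_prod, abs_prod]
  calc _ ≤ (∏ _j ∈ univ.filter (fun j => j < i), c) * ∏ _j ∈ univ.filter (fun j => i < j), c :=
        mul_le_mul (prod_le_prod (fun _ _ => abs_nonneg _) fun j _ => hL j)
          (prod_le_prod (fun _ _ => abs_nonneg _) fun j _ => hF j)
          (prod_nonneg fun _ _ => abs_nonneg _) (prod_nonneg fun _ _ => hc)
    _ = c ^ m := by rw [prod_const, prod_const, ← pow_add, e]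

theorem tele (k : ℕ) {ε : ℝ} (hε : 0 < ε) (B : ℕ) : ∀ᶠ N : ℕ in atTop,
    ∀ (H : ℕ) (lam : ℝ), Par ε B N H lam → ∀ w : ℕ → ℝ,
    (∀ n ∈ Ra lam N, |w n| ≤ 3 * Real.log N) →
      ∑ v ∈ Tup k lam H, (∑ n ∈ Ra lam N, w n *
          (∏ i, L1 (zz N) (ev (v i) n) - ∏ i, F1 (zz N) (ev (v i) n))) ^ 2
        ≤ 100 * k ^ 2 * (3 * Real.log N) ^ (2 * k + 2) * (3 * (H : ℝ) ^ 2) ^ k * N ^ 2 / lam := by
  rcases k with _ | m
  · exact Eventually.of_forall fun N H lam _ w _ => by simp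
  obtain ⟨A', hcore⟩ := core hε B
  filter_upwards [hcore, G1_key A', LF_bound, eventually_ge_atTop 3] with N h1 h2 h3 hN H lam hP w hw
  have hN' : (3 : ℝ) ≤ N := by exact_mod_cast hN
  have hl : 0 < Real.log N := Real.log_pos (by linarith only [hN'])
  have hlam : 0 < lam := hl.trans_le hP.lam_lo
  have hH : 1 ≤ H := by
    have : (0 : ℝ) < H := (Real.rpow_pos_of_pos (by linarith) ε).trans_le hP.H_lo
    exact_mod_cast this
  have hHN := hP.H_hi
  have hkey := h2 (H * N) (by nlinarith only [hN, hH, Nat.mul_le_mul_right N hH, Nat.zero_le (H * N)])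
    (by rw [sq]; exact Nat.mul_le_mul_right N hHN)
  have hG : ∀ x : ℤ, 1 ≤ x → x ≤ 3 * H * N → ‖(G1 (zz N) x : ℂ)‖ ≤ 3 * Real.log N := by
    intro x _ hx
    rw [Complex.norm_real, Real.norm_eq_abs]
    refine (h3 x (hx.trans ?_)).2.2.2.2
    have h6 : (H : ℤ) ≤ N := by exact_mod_cast hHN
    have h7 : (3 : ℤ) ≤ N := by exact_mod_cast hN
    have h8 : (0 : ℤ) ≤ H := by positivity
    calc (3 : ℤ) * H * N ≤ N * N * N := by gcongr
      _ = (N : ℤ) ^ 3 := by ring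
  have hc := h1 H lam hP _ hG hkey _ _ (rg_Ra lam H) (rg_Ra lam N)
  set c : ℝ := 3 * Real.log N with hcdef
  have hc0 : 0 < c := by positivity
  set M : ℝ := c ^ (2 * (m + 1)) * (100 * Real.log N ^ 2 * H ^ 2 * N ^ 2 / lam) with hM
  have hM0 : 0 ≤ M := by positivity
  have hone : ∀ i : Fin (m + 1), ∑ v ∈ Tup (m + 1) lam H,
      (∑ n ∈ Ra lam N, w n * (G1 (zz N) (ev (v i) n) * Tele_R (zz N) i v n)) ^ 2 ≤
        (3 * (H : ℝ) ^ 2) ^ m * M := by
    intro i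
    refine (Tele_split (Box lam H) i _ hM0 fun v hv => ?_).trans ?_
    · simp only [Tele_R_update, Function.update_self]
      have hb : ∀ n ∈ Ra lam N, |w n * Tele_R (zz N) i v n / c ^ (m + 1)| ≤ 1 := by
        intro n hn
        have h4 : ∀ j, ev (v j) n ≤ (N : ℤ) ^ 3 := fun j =>
          Tele_ev_le hN hHN (Fintype.mem_piFinset.1 hv j) hn
        have h5 : |Tele_R (zz N) i v n| ≤ c ^ m := by
          refine Tele_R_le i v n (fun j => ?_) fun j => ?_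
          · rw [abs_of_nonneg (h3 _ (h4 j)).1]; exact (h3 _ (h4 j)).2.1
          · rw [abs_of_nonneg (h3 _ (h4 j)).2.2.1]
            have := (h3 _ (h4 j)).2.2.2.1
            linarith only [hl, this]
        rw [abs_div, abs_mul, abs_of_pos (pow_pos hc0 _), div_le_one (pow_pos hc0 _), pow_succ']
        exact mul_le_mul (hw n hn) h5 (abs_nonneg _) hc0.le
      have h6 := hc (fun n => if n ∈ Ra lam N then
        ((w n * Tele_R (zz N) i v n / c ^ (m + 1) : ℝ) : ℂ) else 0) fun n => by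
          split_ifs with hn
          · rw [Complex.norm_real, Real.norm_eq_abs]; exact hb n hn
          · simp
      rw [Tele_sum_Box, hM]
      refine le_trans (le_of_eq ?_) (mul_le_mul_of_nonneg_left h6 (by positivity))
      rw [mul_sum]
      refine sum_congr rfl fun a _ => ?_
      rw [mul_sum]
      refine sum_congr rfl fun b _ => ?_
      have e : ∑ n ∈ Ra lam N, (if n ∈ Ra lam N then
          ((w n * Tele_R (zz N) i v n / c ^ (m + 1) : ℝ) : ℂ) else 0) *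
            (G1 (zz N) ((a * n : ℕ) + b) : ℂ) =
          (((∑ n ∈ Ra lam N, w n * (G1 (zz N) (ev ((a : ℤ), b) n) * Tele_R (zz N) i v n)) /
            c ^ (m + 1) : ℝ) : ℂ) := by
        rw [sum_div, Complex.ofReal_sum]
        refine sum_congr rfl fun n hn => ?_
        rw [if_pos hn, ← Complex.ofReal_mul, ev, Nat.cast_mul]
        exact congrArg _ (by ring)
      rw [e, Complex.norm_real, Real.norm_eq_abs, sq_abs, div_pow, ← pow_mul, mul_comm (m + 1) 2,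
        mul_div_cancel₀ _ (pow_pos hc0 _).ne']
    · exact mul_le_mul_of_nonneg_right
        (pow_le_pow_left₀ (Nat.cast_nonneg _) (Tele_card_Box lam hH) m) hM0
  have hcs : ∀ v : Fin (m + 1) → ℤ × ℤ, (∑ n ∈ Ra lam N, w n *
      (∏ i, L1 (zz N) (ev (v i) n) - ∏ i, F1 (zz N) (ev (v i) n))) ^ 2 ≤
      ((m + 1 : ℕ) : ℝ) * ∑ i, (∑ n ∈ Ra lam N,
        w n * (G1 (zz N) (ev (v i) n) * Tele_R (zz N) i v n)) ^ 2 := by
    intro v
    simp only [Tele_tel, mul_sum]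
    rw [sum_comm, ← mul_sum]
    have := sq_sum_le_card_mul_sum_sq (s := (univ : Finset (Fin (m + 1))))
      (f := fun i => ∑ n ∈ Ra lam N, w n * (G1 (zz N) (ev (v i) n) * Tele_R (zz N) i v n))
    simpa using this
  refine (sum_le_sum fun v _ => hcs v).trans ?_
  rw [← mul_sum, sum_comm]
  refine (mul_le_mul_of_nonneg_left (sum_le_sum fun i _ => hone i) (Nat.cast_nonneg _)).trans ?_
  rw [sum_const, card_univ, Fintype.card_fin, nsmul_eq_mul, hM]
  have h9 : Real.log N ^ 2 * (H : ℝ) ^ 2 ≤ c ^ 2 * (3 * (H : ℝ) ^ 2) := by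
    rw [hcdef]
    linarith only [mul_nonneg (sq_nonneg (Real.log N)) (sq_nonneg (H : ℝ)), sq_nonneg (Real.log ↑N), sq_nonneg ↑H]
  calc _ = (100 * ((m + 1 : ℕ) : ℝ) ^ 2 * c ^ (2 * (m + 1)) * (3 * (H : ℝ) ^ 2) ^ m * N ^ 2 / lam) *
        (Real.log N ^ 2 * (H : ℝ) ^ 2) := by ring
    _ ≤ (100 * ((m + 1 : ℕ) : ℝ) ^ 2 * c ^ (2 * (m + 1)) * (3 * (H : ℝ) ^ 2) ^ m * N ^ 2 / lam) *
        (c ^ 2 * (3 * (H : ℝ) ^ 2)) := mul_le_mul_of_nonneg_left h9 (by positivity)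
    _ = _ := by ring

end Pool.Agent.Work.MP_51e72e_nt.AV
end
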